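import Pool.Agent.Lib.MP_6babc4_nt.Sp.Defs

/-!
# Module Hou: the size of the roots (20 minutes)

PROOF. `σ = τ|_K`, `z = τ x` is a root of `F = σ f = ∑ a_i X^i`, `|a_i| ≤ H`, `a = a_n ≠ 0`, `n ≥ 1`. If
`|z| ≤ 1` then `|a z| ≤ H`. If `|z| > 1`: `|a| |z|^n ≤ ∑_{i < n} H |z|^i = H (|z|^n - 1) / (|z| - 1) ≤
H |z|^n / (|z| - 1)`, so `|a| (|z| - 1) ≤ H` and `|a z| ≤ H + |a| ≤ 2 H`. (Mathlib also has
`Polynomial.cauchyBound`, `Polynomial.IsRoot.norm_lt_cauchyBound`.)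
-/

open Polynomial NumberField

namespace FreySparse

theorem root_bound {K : Type} [Field K] [NumberField K] {f : (𝓞 K)[X]} {H : ℝ} (hH : 1 ≤ H)
    (hn : 1 ≤ f.natDegree) (hc : ∀ i, f.coeff i ∈ FreyAvg.Box K H) {x : Spl f} (hx : x ∈ rts f)
    (τ : Spl f →+* ℂ) :
    ‖τ (algebraMap K (Spl f) (algebraMap (𝓞 K) K f.leadingCoeff) * x)‖ ≤ 2 * H := by
  set σ : K →+* ℂ := τ.comp (algebraMap K (Spl f)) with hσ
  set F : ℂ[X] := (f.map (algebraMap (𝓞 K) K)).map σ with hF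
  set z : ℂ := τ x with hz
  set n : ℕ := f.natDegree with hnn
  have hroot : F.eval z = 0 := by
    have h1 : aeval x (f.map (algebraMap (𝓞 K) K)) = 0 := hx
    rw [aeval_def, eval₂_eq_eval_map] at h1
    have h2 : τ (eval x ((f.map (algebraMap (𝓞 K) K)).map (algebraMap K (Spl f)))) = 0 := by
      rw [h1, map_zero]
    rw [← eval_map_apply, Polynomial.map_map] at h2
    exact h2
  have hcoef : ∀ i, F.coeff i = σ (algebraMap (𝓞 K) K (f.coeff i)) := by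
    intro i
    rw [hF, coeff_map, coeff_map]
  have hb : ∀ i, ‖F.coeff i‖ ≤ H := by
    intro i
    rw [hcoef]
    exact hc i σ
  set a : ℂ := F.coeff n with ha
  have hgoal : ‖τ (algebraMap K (Spl f) (algebraMap (𝓞 K) K f.leadingCoeff) * x)‖ = ‖a‖ * ‖z‖ := by
    rw [map_mul, norm_mul, ha, hcoef]
    rfl
  rw [hgoal]
  have hdeg : F.natDegree < n + 1 := by
    apply Nat.lt_succ_of_le
    exact le_trans natDegree_map_le natDegree_map_le
  have hsum : a * z ^ n = -∑ i ∈ Finset.range n, F.coeff i * z ^ i := by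
    rw [eval_eq_sum_range' hdeg, Finset.sum_range_succ] at hroot
    linear_combination hroot
  have hnorm : ‖a‖ * ‖z‖ ^ n ≤ H * ∑ i ∈ Finset.range n, ‖z‖ ^ i := by
    calc ‖a‖ * ‖z‖ ^ n = ‖a * z ^ n‖ := by rw [norm_mul, norm_pow]
      _ = ‖∑ i ∈ Finset.range n, F.coeff i * z ^ i‖ := by rw [hsum, norm_neg]
      _ ≤ ∑ i ∈ Finset.range n, ‖F.coeff i * z ^ i‖ := norm_sum_le _ _
      _ ≤ ∑ i ∈ Finset.range n, H * ‖z‖ ^ i := by
          apply Finset.sum_le_sum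
          intro i _
          rw [norm_mul, norm_pow]
          exact mul_le_mul_of_nonneg_right (hb i) (by positivity)
      _ = _ := by rw [Finset.mul_sum]
  have han : ‖a‖ ≤ H := hb n
  have ha0 : 0 ≤ ‖a‖ := norm_nonneg _
  rcases le_or_gt ‖z‖ 1 with h1 | h1
  · have h2 : ‖a‖ * ‖z‖ ≤ H * 1 := mul_le_mul han h1 (norm_nonneg _) (by linarith)
    linarith
  · have h2 : (∑ i ∈ Finset.range n, ‖z‖ ^ i) * (‖z‖ - 1) = ‖z‖ ^ n - 1 := geom_sum_mul _ _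
    have h3 : ‖a‖ * (‖z‖ - 1) * ‖z‖ ^ n ≤ H * ‖z‖ ^ n := by
      calc ‖a‖ * (‖z‖ - 1) * ‖z‖ ^ n = (‖a‖ * ‖z‖ ^ n) * (‖z‖ - 1) := by ring
        _ ≤ (H * ∑ i ∈ Finset.range n, ‖z‖ ^ i) * (‖z‖ - 1) :=
            mul_le_mul_of_nonneg_right hnorm (by linarith)
        _ = H * (‖z‖ ^ n - 1) := by rw [mul_assoc, h2]
        _ ≤ H * ‖z‖ ^ n := by
            apply mul_le_mul_of_nonneg_left _ (by linarith)
            linarith
    have h4 : ‖a‖ * (‖z‖ - 1) ≤ H := le_of_mul_le_mul_right h3 (by positivity)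
    have h5 : ‖a‖ * ‖z‖ = ‖a‖ * (‖z‖ - 1) + ‖a‖ := by ring
    linarith

end FreySparse
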