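import Pool.Agent.Lib.MP_6babc4_nt.Sp.Bas

/-!
# Module Red: roots, reduction and differences of roots (60 minutes)

`f` of degree `n ≥ 1` over `𝓞 K`, separable over `K`, `a` its leading coefficient, `L = Spl f`.

PROOFS.
* `card_rts`: `f` splits in `L` (`SplittingField.splits`) and is separable.
* `isIntegral_lc_mul`: `a x` is a root of the monic polynomial `a^(n-1) f(X / a)`
  (`integralNormalization`, or `isIntegral_leadingCoeff_smul`), integral over `𝓞 K`, so over `ℤ`.
* `ord_nonneg_of_lc`: if `a ∉ v` then `ord P a = 0` and `ord P x = ord P (a x) ≥ 0`, the same for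
  `x - y` by the ultrametric inequality (or because `a (x - y)` is an algebraic integer).
* `sep_mod`: put `y_x = a x ∈ 𝓞 L` for the roots `x`. In `(𝓞 L)[X]`:
  `∏_x (a X - y_x) = a^(n-1) f(X)` (true over `L`: `f = a ∏ (X - x)`). Reduce modulo `P`; `ā ≠ 0`
  (`mem_iff_of_above`). If no `a (x - y) = y_x - y_y`, `x ≠ y`, is in `P`, the linear factors
  `ā X - ȳ_x` are pairwise coprime, so their product is separable over the field `𝓞 L / P`, so `f`
  modulo `P` is separable, and `f` modulo `v` is separable (`Polynomial.separable_map`, field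
  extension `𝓞 K / v → 𝓞 L / P`).
* `sep_mod'` the converse: if `f` modulo `v` is separable, then so is `∏ (ā X - ȳ_x)`, so the `ȳ_x`
  are distinct.
* `tree_of_sep`: by `sep_mod'` and `ord_nonneg_of_lc` all `ord P (x - y) = 0`; the first two
  conditions of `Tree` are clear (`0`), and the disc `{z | z = x ∨ k ≤ ord P (z - x)}` is the set of
  all the `n` roots for `k ≤ 0` and `{x}` for `k ≥ 1`, and `ℓ ∤ 1`.
-/

open Polynomial NumberField IsDedekindDomain Module

namespace FreySparse

variable {K : Type} [Field K] [NumberField K]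

omit [NumberField K] in
private lemma red_inj : Function.Injective (algebraMap (𝓞 K) K) :=
  FaithfulSMul.algebraMap_injective (𝓞 K) K

private lemma red_rts_eq {f : (𝓞 K)[X]} (hf : f ≠ 0) :
    rts f = (f.map (algebraMap (𝓞 K) K)).rootSet (Spl f) := by
  have h : f.map (algebraMap (𝓞 K) K) ≠ 0 := (Polynomial.map_ne_zero_iff red_inj).2 hf
  ext x
  rw [mem_rootSet]
  exact ⟨fun hx => ⟨h, hx⟩, fun hx => hx.2⟩

omit [NumberField K] in
private lemma red_ne_zero {f : (𝓞 K)[X]} (hf : (f.map (algebraMap (𝓞 K) K)).Separable) :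
    f ≠ 0 := by
  rintro rfl
  rw [Polynomial.map_zero] at hf
  exact hf.ne_zero rfl

lemma rts_finite (f : (𝓞 K)[X]) (hf : f ≠ 0) : (rts f).Finite := by
  rw [red_rts_eq hf]
  exact rootSet_finite _ _

lemma card_rts {f : (𝓞 K)[X]} (hf : (f.map (algebraMap (𝓞 K) K)).Separable) :
    (rts f).ncard = f.natDegree := by
  classical
  rw [red_rts_eq (red_ne_zero hf), ← Nat.card_coe_set_eq, Nat.card_eq_fintype_card,
    card_rootSet_eq_natDegree hf (SplittingField.splits _), natDegree_map_eq_of_injective red_inj]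

/-- The factorisation of `f` in the splitting field, in terms of any enumeration of the roots. -/
lemma factor {f : (𝓞 K)[X]} (hf : (f.map (algebraMap (𝓞 K) K)).Separable) {n : ℕ}
    (x : Fin n → Spl f) (hx : Function.Injective x) (hr : Set.range x = rts f) :
    (f.map (algebraMap (𝓞 K) K)).map (algebraMap K (Spl f)) =
      C (algebraMap K (Spl f) (algebraMap (𝓞 K) K f.leadingCoeff)) * ∏ i, (X - C (x i)) := by
  classical
  set F := (f.map (algebraMap (𝓞 K) K)).map (algebraMap K (Spl f)) with hF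
  have hF0 : F ≠ 0 := by
    rw [hF, Polynomial.map_ne_zero_iff (algebraMap K (Spl f)).injective,
      Polynomial.map_ne_zero_iff red_inj]
    exact red_ne_zero hf
  have hs : F.Splits := SplittingField.splits _
  have hlc : F.leadingCoeff = algebraMap K (Spl f) (algebraMap (𝓞 K) K f.leadingCoeff) := by
    rw [hF, leadingCoeff_map_of_injective (algebraMap K (Spl f)).injective,
      leadingCoeff_map_of_injective red_inj]
  have hroots : F.roots = Finset.univ.val.map x := by
    refine (Multiset.Nodup.ext (nodup_roots hf.map) ((Multiset.nodup_map_iff_of_injective hx).2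
      Finset.univ.nodup)).2 fun y => ?_
    rw [mem_roots hF0, Multiset.mem_map]
    have h1 : F.IsRoot y ↔ y ∈ rts f := by
      rw [IsRoot.def, hF, eval_map_algebraMap]
      exact Iff.rfl
    rw [h1, ← hr]
    constructor
    · rintro ⟨i, rfl⟩
      exact ⟨i, Finset.mem_univ_val i, rfl⟩
    · rintro ⟨i, -, rfl⟩
      exact ⟨i, rfl⟩
  rw [hs.eq_prod_roots, hlc, hroots, Multiset.map_map]
  rfl

/-- There is an enumeration of the roots. -/
lemma exists_enum {f : (𝓞 K)[X]} (hf : (f.map (algebraMap (𝓞 K) K)).Separable) :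
    ∃ x : Fin f.natDegree → Spl f, Function.Injective x ∧ Set.range x = rts f := by
  have hfin := rts_finite f (red_ne_zero hf)
  have : Finite (rts f) := hfin
  have hc : Nat.card (rts f) = f.natDegree := by
    rw [Nat.card_coe_set_eq, card_rts hf]
  let e := Finite.equivFinOfCardEq hc
  refine ⟨fun i => (e.symm i : Spl f), ?_, ?_⟩
  · intro i j h
    exact e.symm.injective (Subtype.ext h)
  · ext y
    constructor
    · rintro ⟨i, rfl⟩
      exact (e.symm i).2
    · intro hy
      exact ⟨e ⟨y, hy⟩, by simp⟩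

/-- `a x` is an algebraic integer for every root `x`. -/
lemma isIntegral_lc_mul {f : (𝓞 K)[X]} (hf : (f.map (algebraMap (𝓞 K) K)).Separable) {x : Spl f}
    (hx : x ∈ rts f) :
    IsIntegral ℤ (algebraMap K (Spl f) (algebraMap (𝓞 K) K f.leadingCoeff) * x) := by
  have h0 : aeval x f = 0 := by
    have h : aeval x (f.map (algebraMap (𝓞 K) K)) = 0 := hx
    rwa [aeval_map_algebraMap] at h
  have h1 := isIntegral_leadingCoeff_smul f x h0
  have h2 : f.leadingCoeff • x =
      algebraMap K (Spl f) (algebraMap (𝓞 K) K f.leadingCoeff) * x := by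
    rw [← IsScalarTower.algebraMap_apply (𝓞 K) K (Spl f)]
    exact Algebra.smul_def _ _
  rw [← h2]
  exact isIntegral_trans _ h1

private lemma red_int {f : (𝓞 K)[X]} (hf : (f.map (algebraMap (𝓞 K) K)).Separable) {x : Spl f}
    (hx : x ∈ rts f) : ∃ y : 𝓞 (Spl f), algebraMap (𝓞 (Spl f)) (Spl f) y =
      algebraMap K (Spl f) (algebraMap (𝓞 K) K f.leadingCoeff) * x :=
  ⟨⟨_, isIntegral_lc_mul hf hx⟩, rfl⟩

omit [NumberField K] in
private lemma red_comm (f : (𝓞 K)[X]) (a : 𝓞 K) :
    algebraMap (𝓞 (Spl f)) (Spl f) (algebraMap (𝓞 K) (𝓞 (Spl f)) a) =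
      algebraMap K (Spl f) (algebraMap (𝓞 K) K a) := rfl

private lemma red_ord_lc {f : (𝓞 K)[X]} {v : HeightOneSpectrum (𝓞 K)}
    {P : HeightOneSpectrum (𝓞 (Spl f))} (hP : Above v P) {a : 𝓞 K} (ha : a ∉ v.asIdeal) :
    ord P (algebraMap K (Spl f) (algebraMap (𝓞 K) K a)) = 0 := by
  have ha' : algebraMap (𝓞 K) (𝓞 (Spl f)) a ∉ P.asIdeal := fun h => ha ((mem_iff_of_above hP a).1 h)
  have h0 : algebraMap (𝓞 K) (𝓞 (Spl f)) a ≠ 0 := fun h => ha' (h ▸ P.asIdeal.zero_mem)
  rw [← red_comm]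
  have h1 := ord_nonneg P (algebraMap (𝓞 K) (𝓞 (Spl f)) a)
  have h2 : ¬ 1 ≤ ord P (algebraMap (𝓞 (Spl f)) (Spl f) (algebraMap (𝓞 K) (𝓞 (Spl f)) a)) :=
    fun h => ha' ((ord_pos_iff P h0).1 h)
  omega

private lemma red_ord_diff {f : (𝓞 K)[X]} {v : HeightOneSpectrum (𝓞 K)}
    {P : HeightOneSpectrum (𝓞 (Spl f))} (hP : Above v P) (ha : f.leadingCoeff ∉ v.asIdeal)
    {x y : Spl f} (hxy : x ≠ y) {X Y : 𝓞 (Spl f)}
    (hX : algebraMap (𝓞 (Spl f)) (Spl f) X =
      algebraMap K (Spl f) (algebraMap (𝓞 K) K f.leadingCoeff) * x)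
    (hY : algebraMap (𝓞 (Spl f)) (Spl f) Y =
      algebraMap K (Spl f) (algebraMap (𝓞 K) K f.leadingCoeff) * y) :
    X - Y ≠ 0 ∧ ord P (algebraMap (𝓞 (Spl f)) (Spl f) (X - Y)) = ord P (x - y) := by
  have ha0 : algebraMap K (Spl f) (algebraMap (𝓞 K) K f.leadingCoeff) ≠ 0 := by
    intro h
    rw [map_eq_zero, map_eq_zero_iff _ red_inj] at h
    exact ha (h ▸ v.asIdeal.zero_mem)
  have h1 : algebraMap (𝓞 (Spl f)) (Spl f) (X - Y) =
      algebraMap K (Spl f) (algebraMap (𝓞 K) K f.leadingCoeff) * (x - y) := by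
    rw [map_sub, hX, hY, mul_sub]
  have h2 : x - y ≠ 0 := sub_ne_zero.2 hxy
  refine ⟨?_, ?_⟩
  · intro h
    rw [h, map_zero] at h1
    exact mul_ne_zero ha0 h2 h1.symm
  · rw [h1, ord_mul P ha0 h2, red_ord_lc hP ha, zero_add]

/-- At the primes not dividing the leading coefficient the differences of roots are integral. -/
lemma ord_nonneg_of_lc {f : (𝓞 K)[X]} (hf : (f.map (algebraMap (𝓞 K) K)).Separable)
    {v : HeightOneSpectrum (𝓞 K)} {P : HeightOneSpectrum (𝓞 (Spl f))} (hP : Above v P)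
    (ha : f.leadingCoeff ∉ v.asIdeal) {x y : Spl f} (hx : x ∈ rts f) (hy : y ∈ rts f) :
    0 ≤ ord P (x - y) := by
  by_cases hxy : x = y
  · rw [hxy, sub_self, ord, map_zero, WithZero.log_zero, neg_zero]
  obtain ⟨X, hX⟩ := red_int hf hx
  obtain ⟨Y, hY⟩ := red_int hf hy
  rw [← (red_ord_diff hP ha hxy hX hY).2]
  exact ord_nonneg P _

/-- The reduction of `f` modulo `v` is separable if and only if the roots are pairwise incongruent
modulo `P`. -/
private lemma red_sep_iff {f : (𝓞 K)[X]} (hf : (f.map (algebraMap (𝓞 K) K)).Separable)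
    {v : HeightOneSpectrum (𝓞 K)} {P : HeightOneSpectrum (𝓞 (Spl f))} (hP : Above v P)
    (ha : f.leadingCoeff ∉ v.asIdeal) :
    (f.map (Ideal.Quotient.mk v.asIdeal)).Separable ↔
      ∀ x ∈ rts f, ∀ y ∈ rts f, x ≠ y → ¬ 1 ≤ ord P (x - y) := by
  classical
  obtain ⟨x, hx, hr⟩ := exists_enum hf
  have hmem : ∀ i, x i ∈ rts f := fun i => hr ▸ ⟨i, rfl⟩
  choose y hy using fun i => red_int hf (hmem i)
  have : v.asIdeal.IsMaximal := v.isMaximal
  have : P.asIdeal.IsMaximal := P.isMaximal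
  letI : Field (𝓞 K ⧸ v.asIdeal) := Ideal.Quotient.field v.asIdeal
  letI : Field (𝓞 (Spl f) ⧸ P.asIdeal) := Ideal.Quotient.field P.asIdeal
  have hle : v.asIdeal ≤ P.asIdeal.comap (algebraMap (𝓞 K) (𝓞 (Spl f))) := fun b hb =>
    (mem_iff_of_above hP b).2 hb
  let φ : 𝓞 K ⧸ v.asIdeal →+* 𝓞 (Spl f) ⧸ P.asIdeal := Ideal.quotientMap P.asIdeal _ hle
  set A : 𝓞 (Spl f) := algebraMap (𝓞 K) (𝓞 (Spl f)) f.leadingCoeff with hA
  have hAP : A ∉ P.asIdeal := fun h => ha ((mem_iff_of_above hP _).1 h)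
  have hA0 : Ideal.Quotient.mk P.asIdeal A ≠ 0 := by
    rwa [Ne, Ideal.Quotient.eq_zero_iff_mem]
  -- the polynomial identity in `𝓞 L`
  have hid : C A ^ f.natDegree * f.map (algebraMap (𝓞 K) (𝓞 (Spl f))) =
      C A * ∏ i, (C A * X - C (y i)) := by
    apply Polynomial.map_injective (algebraMap (𝓞 (Spl f)) (Spl f))
      (FaithfulSMul.algebraMap_injective _ _)
    rw [Polynomial.map_mul, Polynomial.map_mul, Polynomial.map_pow, map_C, Polynomial.map_map,
      Polynomial.map_prod]
    have h1 : f.map ((algebraMap (𝓞 (Spl f)) (Spl f)).comp (algebraMap (𝓞 K) (𝓞 (Spl f)))) =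
        (f.map (algebraMap (𝓞 K) K)).map (algebraMap K (Spl f)) := by
      rw [Polynomial.map_map]
      rfl
    rw [h1, factor hf x hx hr]
    have h2 : ∀ i, (C A * X - C (y i)).map (algebraMap (𝓞 (Spl f)) (Spl f)) =
        C (algebraMap (𝓞 (Spl f)) (Spl f) A) * (X - C (x i)) := by
      intro i
      rw [Polynomial.map_sub, Polynomial.map_mul, map_C, map_C, map_X, hy i, C_mul, mul_sub]
      rfl
    rw [Finset.prod_congr rfl fun i _ => h2 i, Finset.prod_mul_distrib, Finset.prod_const,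
      Finset.card_univ, Fintype.card_fin]
    have h3 : algebraMap K (Spl f) (algebraMap (𝓞 K) K f.leadingCoeff) =
      algebraMap (𝓞 (Spl f)) (Spl f) A := rfl
    rw [h3]
    ring
  -- modulo `P`
  set q := Ideal.Quotient.mk P.asIdeal with hq
  have hid2 : C (q A) ^ f.natDegree * ((f.map (Ideal.Quotient.mk v.asIdeal)).map φ) =
      C (q A) * ∏ i, (C (q A) * X - C (q (y i))) := by
    have h1 := congrArg (Polynomial.map q) hid
    rw [Polynomial.map_mul, Polynomial.map_mul, Polynomial.map_pow, map_C, Polynomial.map_map,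
      Polynomial.map_prod] at h1
    have h2 : (f.map (Ideal.Quotient.mk v.asIdeal)).map φ =
        f.map (q.comp (algebraMap (𝓞 K) (𝓞 (Spl f)))) := by
      rw [Polynomial.map_map]
      rfl
    rw [h2, h1]
    congr 1
    refine Finset.prod_congr rfl fun i _ => ?_
    rw [Polynomial.map_sub, Polynomial.map_mul, map_C, map_C, map_X]
  have hid3 : (f.map (Ideal.Quotient.mk v.asIdeal)).map φ =
      C (q A) * ∏ i, (X - C (q (y i) / q A)) := by
    have h1 : ∀ i, C (q A) * X - C (q (y i)) = C (q A) * (X - C (q (y i) / q A)) := by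
      intro i
      rw [mul_sub, ← C_mul, mul_div_cancel₀ _ hA0]
    rw [Finset.prod_congr rfl fun i _ => h1 i, Finset.prod_mul_distrib, Finset.prod_const,
      Finset.card_univ, Fintype.card_fin] at hid2
    have h2 : (C (q A) ^ f.natDegree : (𝓞 (Spl f) ⧸ P.asIdeal)[X]) ≠ 0 :=
      pow_ne_zero _ (C_ne_zero.2 hA0)
    refine mul_left_cancel₀ h2 ?_
    rw [hid2]
    ring
  have hsep : (f.map (Ideal.Quotient.mk v.asIdeal)).Separable ↔
      Function.Injective fun i => q (y i) / q A := by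
    rw [← Polynomial.separable_map φ, hid3, ← separable_prod_X_sub_C_iff]
    have hu : IsUnit (C (q A)) := isUnit_C.2 (isUnit_iff_ne_zero.2 hA0)
    constructor
    · intro h
      exact h.of_mul_right
    · intro h
      exact h.unit_mul hu
  rw [hsep]
  constructor
  · intro hinj a ha' b hb hab h1
    rw [← hr] at ha' hb
    obtain ⟨i, rfl⟩ := ha'
    obtain ⟨j, rfl⟩ := hb
    have h2 := red_ord_diff hP ha hab (hy i) (hy j)
    rw [← h2.2, ord_pos_iff P h2.1] at h1
    have h3 : q (y i) = q (y j) := by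
      rw [hq, Ideal.Quotient.eq]
      exact h1
    exact hab (congrArg x (hinj (by simp only [h3])))
  · intro h i j hij
    by_contra hne
    have hab : x i ≠ x j := fun h' => hne (hx h')
    have h2 := red_ord_diff hP ha hab (hy i) (hy j)
    refine h (x i) (hmem i) (x j) (hmem j) hab ?_
    rw [← h2.2, ord_pos_iff P h2.1]
    have h3 : q (y i) = q (y j) := by
      simp only at hij
      rwa [div_left_inj' hA0] at hij
    rwa [hq, Ideal.Quotient.eq] at h3

/-- If `f` modulo `v` is not separable, two roots are congruent modulo `P`. -/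
lemma exists_pos_ord {f : (𝓞 K)[X]} (hf : (f.map (algebraMap (𝓞 K) K)).Separable)
    {v : HeightOneSpectrum (𝓞 K)} {P : HeightOneSpectrum (𝓞 (Spl f))} (hP : Above v P)
    (ha : f.leadingCoeff ∉ v.asIdeal)
    (hs : ¬ (f.map (Ideal.Quotient.mk v.asIdeal)).Separable) :
    ∃ x ∈ rts f, ∃ y ∈ rts f, x ≠ y ∧ 1 ≤ ord P (x - y) := by
  rw [red_sep_iff hf hP ha] at hs
  push Not at hs
  exact hs

/-- If `f` modulo `v` is separable, no two roots are congruent modulo `P`. -/
lemma ord_eq_zero_of_sep {f : (𝓞 K)[X]} (hf : (f.map (algebraMap (𝓞 K) K)).Separable)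
    {v : HeightOneSpectrum (𝓞 K)} {P : HeightOneSpectrum (𝓞 (Spl f))} (hP : Above v P)
    (ha : f.leadingCoeff ∉ v.asIdeal)
    (hs : (f.map (Ideal.Quotient.mk v.asIdeal)).Separable) {x y : Spl f} (hx : x ∈ rts f)
    (hy : y ∈ rts f) (hxy : x ≠ y) : ord P (x - y) = 0 := by
  have h1 := (red_sep_iff hf hP ha).1 hs x hx y hy hxy
  have h2 := ord_nonneg_of_lc hf hP ha hx hy
  omega

/-- If `f` modulo `v` is separable then `Tree` holds at `v`. -/
lemma tree_of_sep {ℓ : ℕ} (hℓ : ℓ.Prime) {f : (𝓞 K)[X]}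
    (hf : (f.map (algebraMap (𝓞 K) K)).Separable) {v : HeightOneSpectrum (𝓞 K)}
    (ha : f.leadingCoeff ∉ v.asIdeal)
    (hs : (f.map (Ideal.Quotient.mk v.asIdeal)).Separable) : Tree ℓ f v := by
  intro P hP
  have h0 : ∀ x ∈ rts f, ∀ y ∈ rts f, x ≠ y → ord P (x - y) = 0 := fun x hx y hy hxy =>
    ord_eq_zero_of_sep hf hP ha hs hx hy hxy
  refine ⟨?_, ?_, ?_⟩
  · intro x hx y hy x' hx' y' hy' hxy hxy'
    rw [h0 x hx y hy hxy, h0 x' hx' y' hy' hxy', sub_zero]
    exact dvd_zero _
  · intro x hx y hy hxy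
    rw [h0 x hx y hy hxy, mul_zero]
    exact dvd_zero _
  · intro x hx k
    rcases le_or_gt k 0 with hk | hk
    · right
      have : {z ∈ rts f | z = x ∨ k ≤ ord P (z - x)} = rts f := by
        ext z
        refine ⟨fun hz => hz.1, fun hz => ⟨hz, ?_⟩⟩
        by_cases hzx : z = x
        · exact Or.inl hzx
        · right
          rw [h0 z hz x hx hzx]
          exact hk
      rw [this, card_rts hf]
    · left
      have : {z ∈ rts f | z = x ∨ k ≤ ord P (z - x)} = {x} := by
        ext z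
        constructor
        · rintro ⟨hz, h | h⟩
          · exact h
          · by_contra hzx
            rw [h0 z hz x hx hzx] at h
            omega
        · rintro rfl
          exact ⟨hx, Or.inl rfl⟩
      rw [this, Set.ncard_singleton]
      exact hℓ.one_lt.ne' ∘ Nat.dvd_one.1

end FreySparse
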