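import Pool.Agent.Lib.MP_6babc4_nt.Sp.Defs

/-!
# Module Bas: orders at primes, primes above, conjugates (30 minutes)

All the statements are direct from Mathlib: `HeightOneSpectrum.valuation`,
`HeightOneSpectrum.valuation_le_one`, `valuation_lt_one_iff_mem`, `valuation_of_algebraMap`,
`intValuation_le_pow_iff_dvd`, `Valuation.map_mul`, `map_add`, `WithZero.log_mul`, `WithZero.log_le_log`
(the value of a nonzero element is nonzero), `Ideal.comap`, `Ideal.dvd_iff_le`,
`Ideal.exists_ideal_over_prime_of_isIntegral`;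
conjugates: `NumberField.Embeddings.range_eval_eq_rootSet_minpoly`,
`minpoly.algHom_eq`.
-/

open Polynomial NumberField IsDedekindDomain Module

namespace FreySparse

section Ord

variable {L : Type*} [Field L] [NumberField L]

private lemma bas_ne (P : HeightOneSpectrum (𝓞 L)) {x : L} (hx : x ≠ 0) :
    P.valuation L x ≠ 0 := (Valuation.ne_zero_iff _).2 hx

lemma ord_one (P : HeightOneSpectrum (𝓞 L)) : ord P (1 : L) = 0 := by
  unfold ord
  rw [map_one, WithZero.log_one, neg_zero]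

lemma ord_mul (P : HeightOneSpectrum (𝓞 L)) {x y : L} (hx : x ≠ 0) (hy : y ≠ 0) :
    ord P (x * y) = ord P x + ord P y := by
  unfold ord
  rw [map_mul, WithZero.log_mul (bas_ne P hx) (bas_ne P hy)]
  ring

lemma ord_neg (P : HeightOneSpectrum (𝓞 L)) (x : L) : ord P (-x) = ord P x := by
  unfold ord
  rw [Valuation.map_neg]

lemma ord_pow (P : HeightOneSpectrum (𝓞 L)) {x : L} (hx : x ≠ 0) (k : ℕ) :
    ord P (x ^ k) = k * ord P x := by
  unfold ord
  rw [map_pow, WithZero.log_pow, nsmul_eq_mul]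
  ring

lemma ord_prod (P : HeightOneSpectrum (𝓞 L)) {ι : Type*} (s : Finset ι) (x : ι → L)
    (hx : ∀ i ∈ s, x i ≠ 0) : ord P (∏ i ∈ s, x i) = ∑ i ∈ s, ord P (x i) := by
  classical
  induction s using Finset.induction_on with
  | empty => rw [Finset.prod_empty, Finset.sum_empty, ord_one]
  | insert a s ha ih =>
    rw [Finset.prod_insert ha, Finset.sum_insert ha, ord_mul P (hx a (Finset.mem_insert_self a s))
      (Finset.prod_ne_zero_iff.2 (fun i hi => hx i (Finset.mem_insert_of_mem hi))),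
      ih (fun i hi => hx i (Finset.mem_insert_of_mem hi))]

/-- The order of an algebraic integer is nonnegative. -/
lemma ord_nonneg (P : HeightOneSpectrum (𝓞 L)) (α : 𝓞 L) :
    0 ≤ ord P (algebraMap (𝓞 L) L α) := by
  unfold ord
  by_cases hα : algebraMap (𝓞 L) L α = 0
  · rw [hα, map_zero, WithZero.log_zero, neg_zero]
  · have h1 : P.valuation L (algebraMap (𝓞 L) L α) ≤ 1 := P.valuation_le_one α
    have h2 := (WithZero.log_le_log (bas_ne P hα) one_ne_zero).2 h1
    rw [WithZero.log_one] at h2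
    omega

/-- The powers of `P` which divide an algebraic integer. -/
lemma pow_dvd_iff (P : HeightOneSpectrum (𝓞 L)) {α : 𝓞 L} (hα : α ≠ 0) (k : ℕ) :
    P.asIdeal ^ k ∣ Ideal.span {α} ↔ (k : ℤ) ≤ ord P (algebraMap (𝓞 L) L α) := by
  have hα' : algebraMap (𝓞 L) L α ≠ 0 := by
    rwa [ne_eq, FaithfulSMul.algebraMap_eq_zero_iff]
  unfold ord
  rw [← HeightOneSpectrum.intValuation_le_pow_iff_dvd, ← HeightOneSpectrum.valuation_of_algebraMap
    (K := L), ← WithZero.log_le_iff_le_exp (bas_ne P hα')]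
  omega

/-- The order is positive exactly at the elements of `P`. -/
lemma ord_pos_iff (P : HeightOneSpectrum (𝓞 L)) {α : 𝓞 L} (hα : α ≠ 0) :
    1 ≤ ord P (algebraMap (𝓞 L) L α) ↔ α ∈ P.asIdeal := by
  have h := pow_dvd_iff P hα 1
  rw [pow_one, Ideal.dvd_span_singleton] at h
  rw [h]
  norm_cast

/-- The ultrametric inequality. -/
lemma le_ord_add (P : HeightOneSpectrum (𝓞 L)) {x y : L} (hx : x ≠ 0) (hy : y ≠ 0)
    (hxy : x + y ≠ 0) : min (ord P x) (ord P y) ≤ ord P (x + y) := by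
  have h1 := Valuation.map_add (P.valuation L) x y
  unfold ord
  rcases le_max_iff.1 h1 with h | h
  · have h2 := (WithZero.log_le_log (bas_ne P hxy) (bas_ne P hx)).2 h
    exact le_trans (min_le_left _ _) (by omega)
  · have h2 := (WithZero.log_le_log (bas_ne P hxy) (bas_ne P hy)).2 h
    exact le_trans (min_le_right _ _) (by omega)

end Ord

section Above

variable {K L : Type*} [Field K] [NumberField K] [Field L] [NumberField L] [Algebra K L]

/-- Every prime of `L` lies above a prime of `K`. -/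
lemma exists_below (P : HeightOneSpectrum (𝓞 L)) : ∃ v : HeightOneSpectrum (𝓞 K), Above v P := by
  haveI := P.isPrime
  have hne : P.asIdeal.comap (algebraMap (𝓞 K) (𝓞 L)) ≠ ⊥ :=
    Ideal.IsIntegral.comap_ne_bot (𝓞 K) P.ne_bot
  refine ⟨⟨P.asIdeal.comap (algebraMap (𝓞 K) (𝓞 L)), Ideal.comap_isPrime _ _, hne⟩, ?_⟩
  unfold Above
  rw [Ideal.dvd_iff_le]
  exact Ideal.map_comap_le

/-- Above every prime of `K` there is a prime of `L`. -/
lemma exists_above (L : Type*) [Field L] [NumberField L] [Algebra K L]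
    (v : HeightOneSpectrum (𝓞 K)) : ∃ P : HeightOneSpectrum (𝓞 L), Above v P := by
  haveI := v.isPrime
  obtain ⟨Q, -, hQ1, hQ2⟩ := Ideal.exists_ideal_over_prime_of_isIntegral (S := 𝓞 L) v.asIdeal
    (⊥ : Ideal (𝓞 L)) (by
      rw [← RingHom.ker_eq_comap_bot,
        (RingHom.injective_iff_ker_eq_bot _).1 (FaithfulSMul.algebraMap_injective (𝓞 K) (𝓞 L))]
      exact bot_le)
  refine ⟨⟨Q, hQ1, ?_⟩, ?_⟩
  · intro hb
    rw [hb, ← RingHom.ker_eq_comap_bot,
      (RingHom.injective_iff_ker_eq_bot _).1 (FaithfulSMul.algebraMap_injective (𝓞 K) (𝓞 L))] at hQ2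
    exact v.ne_bot hQ2.symm
  · unfold Above
    rw [Ideal.dvd_iff_le, Ideal.map_le_iff_le_comap, hQ2]

private lemma bas_comap {v : HeightOneSpectrum (𝓞 K)} {P : HeightOneSpectrum (𝓞 L)}
    (h : Above v P) : P.asIdeal.comap (algebraMap (𝓞 K) (𝓞 L)) = v.asIdeal := by
  haveI := P.isPrime
  have h1 : v.asIdeal ≤ P.asIdeal.comap (algebraMap (𝓞 K) (𝓞 L)) := by
    unfold Above at h
    rwa [Ideal.dvd_iff_le, Ideal.map_le_iff_le_comap] at h
  have h2 : P.asIdeal.comap (algebraMap (𝓞 K) (𝓞 L)) ≠ ⊤ :=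
    (Ideal.comap_isPrime (algebraMap (𝓞 K) (𝓞 L)) P.asIdeal).ne_top
  exact (v.isMaximal.eq_of_le h2 h1).symm

lemma mem_iff_of_above {v : HeightOneSpectrum (𝓞 K)} {P : HeightOneSpectrum (𝓞 L)}
    (h : Above v P) (α : 𝓞 K) : algebraMap (𝓞 K) (𝓞 L) α ∈ P.asIdeal ↔ α ∈ v.asIdeal := by
  rw [← bas_comap h, Ideal.mem_comap]

lemma below_unique {v v' : HeightOneSpectrum (𝓞 K)} {P : HeightOneSpectrum (𝓞 L)}
    (h : Above v P) (h' : Above v' P) : v = v' := by
  have h1 := bas_comap h
  have h2 := bas_comap h'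
  exact HeightOneSpectrum.ext (h1.symm.trans h2)

end Above

section Conj

/-- The roots in `ℂ` of the minimal polynomial of `σ α` are the conjugates of `α`. -/
lemma exists_emb {L : Type*} [Field L] [NumberField L] (α : L) (σ : L →+* ℂ) (z : ℂ)
    (h : aeval z (minpoly ℚ (σ α)) = 0) : ∃ τ : L →+* ℂ, τ α = z := by
  have h1 : minpoly ℚ (σ α) = minpoly ℚ α :=
    minpoly.algHom_eq σ.toRatAlgHom σ.injective α
  rw [h1] at h
  have h2 : z ∈ (minpoly ℚ α).rootSet ℂ := by
    rw [mem_rootSet]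
    exact ⟨minpoly.ne_zero (Algebra.IsIntegral.isIntegral α), h⟩
  rw [← NumberField.Embeddings.range_eval_eq_rootSet_minpoly] at h2
  exact h2

/-- The degree of the minimal polynomial of `σ α`. -/
lemma minpoly_emb {L : Type*} [Field L] [NumberField L] (α : L) (σ : L →+* ℂ) :
    minpoly ℚ (σ α) = minpoly ℚ α := by
  exact minpoly.algHom_eq σ.toRatAlgHom σ.injective α

end Conj

end FreySparse
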