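import Pool.Agent.Lib.MP_6babc4_nt.Sp.Defs

/-!
# Module Pol: counting algebraic integers of bounded degree and house (30 minutes)

PROOF. Let `z` be in `AlgInt N B` and `p = minpoly ℤ z`, monic of degree `k ≤ N`; it maps to
`minpoly ℚ z` (`minpoly.isIntegrallyClosed_eq_field_fractions'`), and its complex roots have
absolute value at most `B` (`B ≥ 1`). Its coefficients are, up to sign, the elementary symmetric
functions of the `k` roots, so `|p.coeff i| ≤ 2^N B^N` (Mathlib: `Polynomial.coeff_bdd_of_roots_le`,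
`B ^ d * choose d (d/2)` or similar). So `p` is determined by `k ≤ N` and the integers `p.coeff i`,
`i < N`, in an interval with at most `3 (2B)^N` elements (use `i ≤ N`, this gives the exponent
`N (N+1)`): at most `(N+1) (3 (2B)^N)^(N+1)` polynomials, each with at most `N` roots.
-/

open Polynomial NumberField

namespace FreySparse

/-- The algebraic integers in `ℂ` of degree at most `N` all of whose conjugates have absolute
value at most `B`. -/
def AlgInt (N : ℕ) (B : ℝ) : Set ℂ :=
  {z | IsIntegral ℤ z ∧ (minpoly ℚ z).natDegree ≤ N ∧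
    ∀ w : ℂ, aeval w (minpoly ℚ z) = 0 → ‖w‖ ≤ B}

theorem algInt_card (N : ℕ) : ∃ C : ℝ, 1 ≤ C ∧ ∀ B : ℝ, 1 ≤ B →
    (AlgInt N B).Finite ∧ ((AlgInt N B).ncard : ℝ) ≤ C * B ^ (N * (N + 1)) := by
  classical
  have hN0 : (0 : ℝ) ≤ N := Nat.cast_nonneg N
  have hc0 : (0 : ℝ) ≤ (3 * 2 ^ N) ^ (N + 1) * N := by positivity
  refine ⟨(3 * 2 ^ N) ^ (N + 1) * N + 1, by linarith, ?_⟩
  intro B hB
  set R : ℝ := (2 * B) ^ N with hR
  have hR1 : 1 ≤ R := one_le_pow₀ (by linarith)
  set M : ℤ := ⌊R⌋ with hM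
  have hM0 : 0 ≤ M := Int.floor_nonneg.2 (by linarith)
  have hMR : (M : ℝ) ≤ R := Int.floor_le R
  set V : Finset (Fin (N + 1) → ℤ) :=
    Fintype.piFinset (fun _ : Fin (N + 1) => Finset.Icc (-M) M) with hV
  set P : (Fin (N + 1) → ℤ) → ℤ[X] := fun v => ∑ i : Fin (N + 1), monomial (i : ℕ) (v i) with hP
  set F : Finset ℂ := V.biUnion
    (fun v => ((P v).map (Int.castRingHom ℂ)).roots.toFinset) with hF
  have hsub : AlgInt N B ⊆ (F : Set ℂ) := by
    rintro z ⟨hz, hdeg, hroots⟩
    have hzQ : IsIntegral ℚ z := hz.tower_top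
    have hmin : minpoly ℚ z = (minpoly ℤ z).map (algebraMap ℤ ℚ) :=
      minpoly.isIntegrallyClosed_eq_field_fractions' ℚ hz
    set p : ℤ[X] := minpoly ℤ z with hp
    have hpm : p.Monic := minpoly.monic hz
    have hpd : p.natDegree ≤ N := by
      rw [hmin, hpm.natDegree_map] at hdeg
      exact hdeg
    have hbd : ∀ i : ℕ, p.coeff i ∈ Finset.Icc (-M) M := by
      intro i
      have h1 := coeff_bdd_of_roots_le (B := B) (d := N) (algebraMap ℚ ℂ) (p := minpoly ℚ z)
        (minpoly.monic hzQ) (IsAlgClosed.splits _) hdeg (by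
          intro w hw
          apply hroots w
          have h2 := isRoot_of_mem_roots hw
          rw [IsRoot.def, eval_map_algebraMap] at h2
          exact h2) i
      rw [coeff_map, hmin, coeff_map, max_eq_left hB] at h1
      have h2 : ‖(algebraMap ℚ ℂ) ((algebraMap ℤ ℚ) (p.coeff i))‖ = |(p.coeff i : ℝ)| := by
        simp
      rw [h2] at h1
      have h3 : B ^ N * (N.choose (N / 2) : ℝ) ≤ R := by
        rw [hR, mul_pow, mul_comm]
        have h4 : (N.choose (N / 2) : ℝ) ≤ 2 ^ N := by
          exact_mod_cast Nat.choose_le_two_pow N (N / 2)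
        exact mul_le_mul_of_nonneg_right h4 (by positivity)
      have h5 : |(p.coeff i : ℝ)| ≤ R := le_trans h1 h3
      rw [abs_le] at h5
      rw [Finset.mem_Icc]
      constructor
      · have h6 : ((-p.coeff i : ℤ) : ℝ) ≤ R := by push_cast; linarith [h5.1]
        have h7 := Int.le_floor.2 h6
        omega
      · exact Int.le_floor.2 h5.2
    have hPv : P (fun i => p.coeff i) = p := by
      rw [hP]
      simp only
      rw [← Finset.sum_range (fun i : ℕ => monomial i (p.coeff i))]
      exact (p.as_sum_range' (N + 1) (by omega)).symm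
    rw [hF, Finset.mem_coe, Finset.mem_biUnion]
    refine ⟨fun i => p.coeff i, ?_, ?_⟩
    · rw [hV, Fintype.mem_piFinset]
      intro i
      exact hbd i
    · rw [hPv, Multiset.mem_toFinset, mem_roots (hpm.map _).ne_zero, IsRoot.def]
      have h1 := minpoly.aeval ℤ z
      rw [← eval_map_algebraMap] at h1
      exact h1
  have hcard : (F.card : ℝ) ≤ (3 * R) ^ (N + 1) * N := by
    have h1 : F.card ≤ V.card * N := by
      apply Finset.card_biUnion_le_card_mul
      intro v _
      refine le_trans (Multiset.toFinset_card_le _) (le_trans (card_roots' _)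
        (le_trans (natDegree_map_le) ?_))
      rw [hP]
      simp only
      apply natDegree_sum_le_of_forall_le
      intro i _
      exact le_trans (natDegree_monomial_le _) (Nat.lt_succ_iff.1 i.2)
    have h2 : (V.card : ℝ) ≤ (3 * R) ^ (N + 1) := by
      rw [hV, Fintype.card_piFinset, Finset.prod_const, Finset.card_univ, Fintype.card_fin,
        Int.card_Icc]
      push_cast
      apply pow_le_pow_left₀ (Nat.cast_nonneg _)
      have h3 : (((M + 1 - -M).toNat : ℕ) : ℝ) = 2 * M + 1 := by
        have h4 : (((M + 1 - -M).toNat : ℕ) : ℤ) = 2 * M + 1 := by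
          rw [Int.toNat_of_nonneg (by omega)]
          ring
        have h5 : ((((M + 1 - -M).toNat : ℕ) : ℤ) : ℝ) = ((2 * M + 1 : ℤ) : ℝ) := by rw [h4]
        push_cast at h5
        exact h5
      rw [h3]
      linarith
    calc (F.card : ℝ) ≤ ((V.card * N : ℕ) : ℝ) := by exact_mod_cast h1
      _ = (V.card : ℝ) * N := by push_cast; ring
      _ ≤ (3 * R) ^ (N + 1) * N := mul_le_mul_of_nonneg_right h2 hN0
  have hfin : (AlgInt N B).Finite := Set.Finite.subset (Finset.finite_toSet F) hsub
  refine ⟨hfin, ?_⟩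
  have h1 : (AlgInt N B).ncard ≤ F.card := by
    have h2 := Set.ncard_le_ncard hsub (Finset.finite_toSet F)
    rwa [Set.ncard_coe_finset] at h2
  have h2 : ((AlgInt N B).ncard : ℝ) ≤ F.card := by exact_mod_cast h1
  have h3 : (3 * R) ^ (N + 1) * N = (3 * 2 ^ N) ^ (N + 1) * N * B ^ (N * (N + 1)) := by
    rw [hR, mul_pow 2 B N, ← mul_assoc, mul_pow (3 * 2 ^ N) (B ^ N), ← pow_mul]
    ring
  have h4 : (1 : ℝ) ≤ B ^ (N * (N + 1)) := one_le_pow₀ hB
  calc ((AlgInt N B).ncard : ℝ) ≤ (3 * R) ^ (N + 1) * N := le_trans h2 hcard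
    _ = (3 * 2 ^ N) ^ (N + 1) * N * B ^ (N * (N + 1)) := h3
    _ ≤ ((3 * 2 ^ N) ^ (N + 1) * N + 1) * B ^ (N * (N + 1)) := by
        apply mul_le_mul_of_nonneg_right _ (by linarith)
        linarith

end FreySparse
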