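import Pool.Agent.Lib.MP_6babc4_nt.Sp.Red

/-!
# Module Fin: finiteness of the bad primes, and the products of their norms (35 minutes)

PROOFS.
* `ramified_finite`: if `P ^ 2 ∣ v 𝓞 L` then `P` divides the different of `L / K`, nonzero
  (`dvd_differentIdeal_iff`, or `pow_sub_one_dvd_differentIdeal`: `P ^ e ∣ v 𝓞 L` gives
  `P ^ (e - 1) ∣` different); a nonzero ideal has finitely many prime divisors, and `v` is determined
  by `P` (`below_unique`).
* `insep_finite`: `f` modulo `v` not separable and `a ∉ v`: by `exists_above` and `exists_pos_ord`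
  some `P` above `v` contains `a (x - y)`, `x ≠ y` two roots, so `P` divides the nonzero algebraic
  integer `∏_{x ≠ y} a (x - y)`; finitely many `P`, so finitely many `v`.
* `bad_finite`: if `v` is bad it is ramified or (`a ∉ v` and not `Tree`, so `f` mod `v` is not
  separable by `tree_of_sep`).
* `comp_finite`: from `insep_finite`.
* `cond_eq`, `dvd` statements: `finprod_mem_eq_finite_toFinset_prod`,
  `finprod_mem_coe_finset`; `absNorm v ≥ 2 > 0`.
-/

open Polynomial NumberField IsDedekindDomain Module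

namespace FreySparse

variable {K : Type} [Field K] [NumberField K]

private lemma fin_of_above {L : Type*} [Field L] [NumberField L] [Algebra K L]
    {S : Set (HeightOneSpectrum (𝓞 K))} {T : Set (HeightOneSpectrum (𝓞 L))} (hT : T.Finite)
    (h : ∀ v ∈ S, ∃ P ∈ T, Above v P) : S.Finite := by
  classical
  choose b hb using fun P : HeightOneSpectrum (𝓞 L) => exists_below (K := K) P
  refine (hT.image b).subset fun v hv => ?_
  obtain ⟨P, hP, hvP⟩ := h v hv
  exact ⟨P, hP, (below_unique hvP (hb P)).symm⟩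

lemma ramified_finite (f : (𝓞 K)[X]) : {v : HeightOneSpectrum (𝓞 K) | Ramified f v}.Finite := by
  have h0 : differentIdeal (𝓞 K) (𝓞 (Spl f)) ≠ 0 := differentIdeal_ne_bot
  refine fin_of_above (Ideal.finite_factors h0) fun v hv => ?_
  obtain ⟨P, hP⟩ := hv
  refine ⟨P, ?_, dvd_trans (dvd_pow_self _ two_ne_zero) hP⟩
  have := v.isMaximal
  have h1 := pow_sub_one_dvd_differentIdeal (𝓞 K) P.asIdeal 2 v.ne_bot hP
  simpa using h1

lemma insep_finite {f : (𝓞 K)[X]} (hf : (f.map (algebraMap (𝓞 K) K)).Separable) :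
    {v : HeightOneSpectrum (𝓞 K) | f.leadingCoeff ∉ v.asIdeal ∧
      ¬ (f.map (Ideal.Quotient.mk v.asIdeal)).Separable}.Finite := by
  classical
  have hf0 : f ≠ 0 := by
    intro h
    rw [h, Polynomial.map_zero] at hf
    exact not_separable_zero hf
  have ha0 : f.leadingCoeff ≠ 0 := leadingCoeff_ne_zero.mpr hf0
  have hinj : Function.Injective (algebraMap (𝓞 K) (𝓞 (Spl f))) :=
    FaithfulSMul.algebraMap_injective _ _
  have hinjL : Function.Injective (algebraMap (𝓞 (Spl f)) (Spl f)) :=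
    FaithfulSMul.algebraMap_injective _ _
  have htow : ∀ β : 𝓞 K, algebraMap (𝓞 (Spl f)) (Spl f) (algebraMap (𝓞 K) (𝓞 (Spl f)) β) =
      algebraMap K (Spl f) (algebraMap (𝓞 K) K β) := by
    intro β
    rw [← IsScalarTower.algebraMap_apply, ← IsScalarTower.algebraMap_apply]
  have haL : algebraMap K (Spl f) (algebraMap (𝓞 K) K f.leadingCoeff) ≠ 0 := by
    rw [← htow]
    intro h
    apply ha0
    apply hinj
    rw [map_zero]
    exact (map_eq_zero_iff _ hinjL).mp h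
  let A : Spl f → Spl f → Set (HeightOneSpectrum (𝓞 (Spl f))) := fun x y =>
    {P | x ≠ y ∧ ∃ δ : 𝓞 (Spl f), algebraMap (𝓞 (Spl f)) (Spl f) δ =
      algebraMap K (Spl f) (algebraMap (𝓞 K) K f.leadingCoeff) * (x - y) ∧ δ ∈ P.asIdeal}
  have hA : ∀ x y, (A x y).Finite := by
    intro x y
    by_cases h : x ≠ y ∧ ∃ δ : 𝓞 (Spl f), algebraMap (𝓞 (Spl f)) (Spl f) δ =
      algebraMap K (Spl f) (algebraMap (𝓞 K) K f.leadingCoeff) * (x - y)
    · obtain ⟨hxy, δ, hδ⟩ := h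
      have hδ0 : δ ≠ 0 := by
        intro h
        rw [h, map_zero] at hδ
        exact mul_ne_zero haL (sub_ne_zero.mpr hxy) hδ.symm
      have hs0 : Ideal.span {δ} ≠ (0 : Ideal (𝓞 (Spl f))) := by
        rw [Ne, Ideal.zero_eq_bot, Ideal.span_singleton_eq_bot]
        exact hδ0
      refine (Ideal.finite_factors hs0).subset fun P hP => ?_
      obtain ⟨_, δ', hδ', hm⟩ := hP
      have : δ' = δ := hinjL (hδ'.trans hδ.symm)
      subst this
      exact Ideal.dvd_iff_le.mpr ((Ideal.span_singleton_le_iff_mem _).mpr hm)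
    · refine Set.Finite.subset Set.finite_empty fun P hP => ?_
      obtain ⟨hxy, δ, hδ, _⟩ := hP
      exact (h ⟨hxy, δ, hδ⟩).elim
  have hfin : (⋃ x ∈ rts f, ⋃ y ∈ rts f, A x y).Finite :=
    (rts_finite f hf0).biUnion fun x _ => (rts_finite f hf0).biUnion fun y _ => hA x y
  refine fin_of_above hfin fun v hv => ?_
  obtain ⟨hav, hns⟩ := hv
  obtain ⟨P, hP⟩ := exists_above (Spl f) v
  obtain ⟨x, hx, y, hy, hxy, ho⟩ := exists_pos_ord hf hP hav hns
  refine ⟨P, ?_, hP⟩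
  simp only [Set.mem_iUnion]
  refine ⟨x, hx, y, hy, hxy, ?_⟩
  have hint : IsIntegral ℤ
      (algebraMap K (Spl f) (algebraMap (𝓞 K) K f.leadingCoeff) * (x - y)) := by
    rw [mul_sub]
    exact (isIntegral_lc_mul hf hx).sub (isIntegral_lc_mul hf hy)
  obtain ⟨δ, hδ⟩ : ∃ δ : 𝓞 (Spl f), algebraMap (𝓞 (Spl f)) (Spl f) δ =
      algebraMap K (Spl f) (algebraMap (𝓞 K) K f.leadingCoeff) * (x - y) := ⟨⟨_, hint⟩, rfl⟩
  have hsub : x - y ≠ 0 := sub_ne_zero.mpr hxy
  have hδ0 : δ ≠ 0 := by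
    intro h
    rw [h, map_zero] at hδ
    exact mul_ne_zero haL hsub hδ.symm
  refine ⟨δ, hδ, (ord_pos_iff P hδ0).mp ?_⟩
  have h1 : 0 ≤ ord P (algebraMap K (Spl f) (algebraMap (𝓞 K) K f.leadingCoeff)) := by
    rw [← htow]
    exact ord_nonneg P _
  rw [hδ, ord_mul P haL hsub]
  omega

lemma bad_finite {ℓ : ℕ} (hℓ : ℓ.Prime) {f : (𝓞 K)[X]}
    (hf : (f.map (algebraMap (𝓞 K) K)).Separable) :
    {v : HeightOneSpectrum (𝓞 K) | Bad ℓ f v}.Finite := by
  refine ((ramified_finite f).union (insep_finite hf)).subset fun v hv => ?_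
  obtain ⟨_, h | ⟨ha, ht⟩⟩ := hv
  · exact Or.inl h
  · exact Or.inr ⟨ha, fun hs => ht (tree_of_sep hℓ hf ha hs)⟩

lemma comp_finite (ℓ : ℕ) {f : (𝓞 K)[X]} (hf : (f.map (algebraMap (𝓞 K) K)).Separable) :
    {v : HeightOneSpectrum (𝓞 K) | Comp ℓ f v}.Finite := by
  refine (insep_finite hf).subset fun v hv => ?_
  obtain ⟨_, ha, hs, _⟩ := hv
  exact ⟨ha, hs⟩

private lemma absNorm_pos' (v : HeightOneSpectrum (𝓞 K)) : 1 ≤ Ideal.absNorm v.asIdeal := by
  rw [Nat.one_le_iff_ne_zero, Ne, Ideal.absNorm_eq_zero_iff]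
  exact v.ne_bot

lemma cond_pos (ℓ : ℕ) (f : (𝓞 K)[X]) : 1 ≤ cond ℓ f := by
  refine finprod_induction (fun n : ℕ => 1 ≤ n) le_rfl
    (fun a b ha hb => Nat.one_le_iff_ne_zero.mpr (Nat.mul_ne_zero (by omega) (by omega)))
    fun v => finprod_induction (fun n : ℕ => 1 ≤ n) le_rfl
    (fun a b ha hb => Nat.one_le_iff_ne_zero.mpr (Nat.mul_ne_zero (by omega) (by omega)))
    fun _ => absNorm_pos' v

lemma excess_pos (ℓ : ℕ) (f : (𝓞 K)[X]) : 1 ≤ excess ℓ f := by
  refine finprod_induction (fun n : ℕ => 1 ≤ n) le_rfl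
    (fun a b ha hb => Nat.one_le_iff_ne_zero.mpr (Nat.mul_ne_zero (by omega) (by omega)))
    fun v => finprod_induction (fun n : ℕ => 1 ≤ n) le_rfl
    (fun a b ha hb => Nat.one_le_iff_ne_zero.mpr (Nat.mul_ne_zero (by omega) (by omega)))
    fun _ => absNorm_pos' v

lemma cond_eq {ℓ : ℕ} (hℓ : ℓ.Prime) {f : (𝓞 K)[X]}
    (hf : (f.map (algebraMap (𝓞 K) K)).Separable) :
    cond ℓ f = ∏ v ∈ (bad_finite hℓ hf).toFinset, Ideal.absNorm v.asIdeal :=
  finprod_mem_eq_finite_toFinset_prod (fun v : HeightOneSpectrum (𝓞 K) =>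
    Ideal.absNorm v.asIdeal) (bad_finite hℓ hf)

lemma excess_eq (ℓ : ℕ) {f : (𝓞 K)[X]} (hf : (f.map (algebraMap (𝓞 K) K)).Separable) :
    excess ℓ f = ∏ v ∈ (comp_finite ℓ hf).toFinset, Ideal.absNorm v.asIdeal :=
  finprod_mem_eq_finite_toFinset_prod (fun v : HeightOneSpectrum (𝓞 K) =>
    Ideal.absNorm v.asIdeal) (comp_finite ℓ hf)

lemma dvd_cond {ℓ : ℕ} (hℓ : ℓ.Prime) {f : (𝓞 K)[X]}
    (hf : (f.map (algebraMap (𝓞 K) K)).Separable) {v : HeightOneSpectrum (𝓞 K)}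
    (hv : Bad ℓ f v) : Ideal.absNorm v.asIdeal ∣ cond ℓ f := by
  rw [cond_eq hℓ hf]
  exact Finset.dvd_prod_of_mem (fun v : HeightOneSpectrum (𝓞 K) => Ideal.absNorm v.asIdeal)
    ((bad_finite hℓ hf).mem_toFinset.mpr hv)

lemma dvd_excess (ℓ : ℕ) {f : (𝓞 K)[X]} (hf : (f.map (algebraMap (𝓞 K) K)).Separable)
    {v : HeightOneSpectrum (𝓞 K)} (hv : Comp ℓ f v) :
    Ideal.absNorm v.asIdeal ∣ excess ℓ f := by
  rw [excess_eq ℓ hf]
  exact Finset.dvd_prod_of_mem (fun v : HeightOneSpectrum (𝓞 K) => Ideal.absNorm v.asIdeal)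
    ((comp_finite ℓ hf).mem_toFinset.mpr hv)

end FreySparse
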