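import Mathlib
import Pool.Agent.Lib.MP_6babc4_nt.AvgDefs

/-!
# Frey's inequality outside a very thin set of superelliptic curves: definitions

`K` is a number field, `ℓ` a prime number, `f` a polynomial of degree `n ≥ 3` over the ring of
integers `𝓞 K`, without multiple roots; the curve is `y ^ ℓ = f(x)`.

`FreyAvg.Box K H` (from `AvgDefs.lean`) is the set of the elements of `𝓞 K` all of whose conjugates
have absolute value at most `H`.
-/

open Polynomial NumberField MeasureTheory IsDedekindDomain Module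
open scoped ComplexConjugate

namespace FreySparse

/-- The number of the holomorphic forms `x^i dx / y^j` on the curve `y^ℓ = F(x)`, `deg F = n`,
`1 ≤ j < ℓ`: the number of the `i ≥ 0` with `ℓ (i + 1) < j n`. -/
def forms (ℓ n j : ℕ) : ℕ := (j * n - 1) / ℓ

/-- The Gram matrix of the forms `x^i dx / (ℓ y^j)` (`0 ≤ i < forms ℓ n j`) on the curve
`y^ℓ = F(x)`: the entries are `(1/ℓ) ∫_ℂ z^i conj(z)^k / |F(z)|^(2j/ℓ) d²z`. -/
noncomputable def gram (ℓ n j : ℕ) (F : ℂ[X]) :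
    Matrix (Fin (forms ℓ n j)) (Fin (forms ℓ n j)) ℂ :=
  Matrix.of fun i k =>
    (1 / (ℓ : ℂ)) * ∫ z : ℂ, z ^ (i : ℕ) * (conj z) ^ (k : ℕ) /
      ((‖F.eval z‖ ^ (2 * (j : ℝ) / ℓ) : ℝ) : ℂ)

/-- The order of `x` at the prime `P` (with the value `0` at `x = 0`). -/
noncomputable def ord {L : Type*} [Field L] [NumberField L] (P : HeightOneSpectrum (𝓞 L))
    (x : L) : ℤ :=
  -WithZero.log (P.valuation L x)

/-- The prime `P` of `L` lies above the prime `v` of `K`. -/
def Above {K L : Type*} [Field K] [Field L] [Algebra K L] (v : HeightOneSpectrum (𝓞 K))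
    (P : HeightOneSpectrum (𝓞 L)) : Prop :=
  P.asIdeal ∣ v.asIdeal.map (algebraMap (𝓞 K) (𝓞 L))

/-- The exponent of Lemma `Loc`: `12` for `ℓ = 2` and `2 ℓ` for `ℓ ≥ 3`. -/
def qexp (ℓ : ℕ) : ℕ := if ℓ = 2 then 12 else 2 * ℓ

variable {K : Type*} [Field K] [NumberField K]

/-- The height of `f` (of degree `n`): minus `1 / (2 [K : ℚ])` times the sum over all the complex
embeddings `σ` of `K` and over `1 ≤ j < ℓ` of `log |det (gram ℓ n j (σ f))|`. -/
noncomputable def height (ℓ : ℕ) (f : (𝓞 K)[X]) : ℝ :=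
  -(1 / (2 * (finrank ℚ K : ℝ))) *
    ∑ σ : K →+* ℂ, ∑ j ∈ Finset.Ico 1 ℓ,
      Real.log ‖(gram ℓ f.natDegree j (f.map (σ.comp (algebraMap (𝓞 K) K)))).det‖

/-- The splitting field of `f` over `K`. -/
abbrev Spl (f : (𝓞 K)[X]) : Type _ := (f.map (algebraMap (𝓞 K) K)).SplittingField

noncomputable instance (f : (𝓞 K)[X]) : NumberField (Spl f) :=
  NumberField.of_module_finite K (Spl f)

/-- The set of the roots of `f` in the splitting field. -/
def rts (f : (𝓞 K)[X]) : Set (Spl f) := {x | aeval x (f.map (algebraMap (𝓞 K) K)) = 0}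

/-- The prime `v` of `K` is ramified in the splitting field of `f`. -/
def Ramified (f : (𝓞 K)[X]) (v : HeightOneSpectrum (𝓞 K)) : Prop :=
  ∃ P : HeightOneSpectrum (𝓞 (Spl f)),
    P.asIdeal ^ 2 ∣ v.asIdeal.map (algebraMap (𝓞 K) (𝓞 (Spl f)))

/-- For each prime `P` of the splitting field above `v`: the orders of the differences of two roots
of `f` are congruent modulo `ℓ`; `n` times such an order is divisible by `ℓ`; the number of the
roots in each disc with a root as centre is not divisible by `ℓ`, or is `n`. -/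
def Tree (ℓ : ℕ) (f : (𝓞 K)[X]) (v : HeightOneSpectrum (𝓞 K)) : Prop :=
  ∀ P : HeightOneSpectrum (𝓞 (Spl f)), Above v P →
    (∀ x ∈ rts f, ∀ y ∈ rts f, ∀ x' ∈ rts f, ∀ y' ∈ rts f, x ≠ y → x' ≠ y' →
      (ℓ : ℤ) ∣ ord P (x - y) - ord P (x' - y')) ∧
    (∀ x ∈ rts f, ∀ y ∈ rts f, x ≠ y → (ℓ : ℤ) ∣ f.natDegree * ord P (x - y)) ∧
    (∀ x ∈ rts f, ∀ k : ℤ, ¬ ℓ ∣ {z ∈ rts f | z = x ∨ k ≤ ord P (z - x)}.ncard ∨
      {z ∈ rts f | z = x ∨ k ≤ ord P (z - x)}.ncard = f.natDegree)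

/-- The bad primes of `f`: not above `ℓ`, and either ramified in the splitting field of `f`, or
not dividing the leading coefficient of `f` and without the property `Tree`. -/
def Bad (ℓ : ℕ) (f : (𝓞 K)[X]) (v : HeightOneSpectrum (𝓞 K)) : Prop :=
  (ℓ : 𝓞 K) ∉ v.asIdeal ∧
    (Ramified f v ∨ (f.leadingCoeff ∉ v.asIdeal ∧ ¬ Tree ℓ f v))

/-- The product of the norms of the bad primes. -/
noncomputable def cond (ℓ : ℕ) (f : (𝓞 K)[X]) : ℕ :=
  ∏ᶠ (v : HeightOneSpectrum (𝓞 K)) (_ : Bad ℓ f v), Ideal.absNorm v.asIdeal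

/-- The primes, not dividing `ℓ` or the leading coefficient of `f`, which are not bad but modulo
which `f` has a multiple root. -/
def Comp (ℓ : ℕ) (f : (𝓞 K)[X]) (v : HeightOneSpectrum (𝓞 K)) : Prop :=
  (ℓ : 𝓞 K) ∉ v.asIdeal ∧ f.leadingCoeff ∉ v.asIdeal ∧
    ¬ (f.map (Ideal.Quotient.mk v.asIdeal)).Separable ∧ ¬ Bad ℓ f v

/-- The product of the norms of the primes of `Comp`. -/
noncomputable def excess (ℓ : ℕ) (f : (𝓞 K)[X]) : ℕ :=
  ∏ᶠ (v : HeightOneSpectrum (𝓞 K)) (_ : Comp ℓ f v), Ideal.absNorm v.asIdeal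

/-- Frey's inequality for `f` with the constants `κ` and `c`. -/
def Frey (ℓ : ℕ) (κ c : ℝ) (f : (𝓞 K)[X]) : Prop :=
  height ℓ f ≤ κ * Real.log (|(NumberField.discr K : ℝ)| * cond ℓ f) + c

/-- The polynomials of degree `n` without multiple roots and with coefficients in `Box K H`. -/
def Fam (K : Type*) [Field K] [NumberField K] (n : ℕ) (H : ℝ) : Set (𝓞 K)[X] :=
  {f | f.natDegree = n ∧ (∀ i, f.coeff i ∈ FreyAvg.Box K H) ∧
    (f.map (algebraMap (𝓞 K) K)).Separable}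

end FreySparse
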