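import Pool.Agent.Lib.MP_6babc4_nt.Sp.Defs

/-!
# Module Dif: the different of a Galois extension with few ramified primes

`L / K` Galois of degree `m`: the different divides `m J 𝓞 L`, when `J` is an ideal of `𝓞 K`
divisible by all the ramified primes. The different is stable under the Galois group, so if `a` is
the exponent of `P` in the different and `e` its exponent in `v 𝓞 L`, `j = a / e`, then
`(v 𝓞 L)^j` divides the different, hence `v^j` divides `Tr(1) = m`.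
-/

open Polynomial NumberField IsDedekindDomain Module nonZeroDivisors
open scoped Pointwise

namespace FreySparse

section

variable (K L : Type) [Field K] [NumberField K] [Field L] [NumberField L] [Algebra K L]

lemma mem_different_iff (x : 𝓞 L) : x ∈ differentIdeal (𝓞 K) (𝓞 L) ↔
    ∀ y : L, (∀ a : 𝓞 L, Algebra.trace K L (y * algebraMap (𝓞 L) L a) ∈
      (algebraMap (𝓞 K) K).range) → ∃ z : 𝓞 L, algebraMap (𝓞 L) L z = algebraMap (𝓞 L) L x * y := by
  have h1 : x ∈ differentIdeal (𝓞 K) (𝓞 L) ↔ algebraMap (𝓞 L) L x ∈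
      IsLocalization.coeSubmodule L (differentIdeal (𝓞 K) (𝓞 L)) := by
    rw [IsLocalization.mem_coeSubmodule]
    constructor
    · intro h
      exact ⟨x, h, rfl⟩
    · rintro ⟨y, hy, hxy⟩
      rwa [← FaithfulSMul.algebraMap_injective (𝓞 L) L hxy]
  rw [h1, coeSubmodule_differentIdeal (𝓞 K) K, Submodule.mem_div_iff_forall_mul_mem]
  constructor
  · intro h y hy
    have h2 : y ∈ Submodule.traceDual (𝓞 K) K (1 : Submodule (𝓞 L) L) := by
      rw [Submodule.mem_traceDual]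
      intro a ha
      obtain ⟨b, rfl⟩ := Submodule.mem_one.mp ha
      rw [Algebra.traceForm_apply]
      exact hy b
    obtain ⟨z, hz⟩ := Submodule.mem_one.mp (h y h2)
    exact ⟨z, hz⟩
  · intro h y hy
    rw [Submodule.mem_traceDual] at hy
    obtain ⟨z, hz⟩ := h y (fun a => by
      have := hy (algebraMap (𝓞 L) L a) (Submodule.mem_one.mpr ⟨a, rfl⟩)
      rwa [Algebra.traceForm_apply] at this)
    exact Submodule.mem_one.mpr ⟨z, hz⟩

/-- The different is stable under the automorphisms. -/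
lemma different_stable (σ : L ≃ₐ[K] L) (τ : 𝓞 L →+* 𝓞 L)
    (hτ : ∀ x : 𝓞 L, algebraMap (𝓞 L) L (τ x) = σ (algebraMap (𝓞 L) L x)) {x : 𝓞 L}
    (hx : x ∈ differentIdeal (𝓞 K) (𝓞 L)) : τ x ∈ differentIdeal (𝓞 K) (𝓞 L) := by
  rw [mem_different_iff] at hx ⊢
  intro y hy
  obtain ⟨z, hz⟩ := hx (σ.symm y) (fun a => by
    have h1 := hy (τ a)
    have h2 : y * algebraMap (𝓞 L) L (τ a) = σ (σ.symm y * algebraMap (𝓞 L) L a) := by
      rw [map_mul, AlgEquiv.apply_symm_apply, hτ]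
    rw [h2, Algebra.trace_eq_of_algEquiv σ] at h1
    exact h1)
  refine ⟨τ z, ?_⟩
  rw [hτ, hτ, hz, map_mul, AlgEquiv.apply_symm_apply]

/-- A prime dividing the different is ramified. -/
lemma sq_dvd_of_dvd_different {v : HeightOneSpectrum (𝓞 K)} {P : HeightOneSpectrum (𝓞 L)}
    (hv : Above v P) (h : P.asIdeal ∣ differentIdeal (𝓞 K) (𝓞 L)) :
    P.asIdeal ^ 2 ∣ v.asIdeal.map (algebraMap (𝓞 K) (𝓞 L)) := by
  by_contra hcon
  obtain ⟨Q, hQ⟩ := hv
  have hQP : ¬ P.asIdeal ∣ Q := fun ⟨R, hR⟩ => hcon ⟨R, by rw [hQ, hR, sq, mul_assoc]⟩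
  have hmax : P.asIdeal.IsMaximal := P.isMaximal
  have hvmax : v.asIdeal.IsMaximal := v.isMaximal
  have hcop : IsCoprime P.asIdeal Q := by
    rw [Ideal.isCoprime_iff_sup_eq]
    by_contra hne
    have h1 : P.asIdeal = P.asIdeal ⊔ Q := hmax.eq_of_le hne le_sup_left
    exact hQP (Ideal.dvd_iff_le.mpr (h1 ▸ le_sup_right))
  have : Finite (𝓞 K ⧸ v.asIdeal) := by
    exact Ideal.finiteQuotientOfFreeOfNeBot v.asIdeal v.ne_bot
  exact not_dvd_differentIdeal_of_isCoprime (𝓞 K) P.asIdeal Q hcop hQ.symm h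

/-- The trace of one. -/
lemma pow_dvd_degree {v : HeightOneSpectrum (𝓞 K)} {j : ℕ}
    (h : (v.asIdeal.map (algebraMap (𝓞 K) (𝓞 L))) ^ j ∣ differentIdeal (𝓞 K) (𝓞 L)) :
    v.asIdeal ^ j ∣ Ideal.span {(finrank K L : 𝓞 K)} := by
  classical
  set I : Ideal (𝓞 K) := v.asIdeal ^ j with hI
  set IB : Ideal (𝓞 L) := I.map (algebraMap (𝓞 K) (𝓞 L)) with hIB
  have hI0 : I ≠ ⊥ := pow_ne_zero _ v.ne_bot
  have hIB0 : IB ≠ ⊥ := by
    rw [hIB, Ne, Ideal.map_eq_bot_iff_of_injective (FaithfulSMul.algebraMap_injective _ _)]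
    exact hI0
  have hD : differentIdeal (𝓞 K) (𝓞 L) ≤ IB := by
    rw [← Ideal.dvd_iff_le, hIB, hI, Ideal.map_pow]
    exact h
  rw [differentialIdeal_le_iff (K := K) (L := L) hIB0] at hD
  -- the elements of the inverse of `I`
  have hinv : ∀ x : K, x ∈ ((I : FractionalIdeal (𝓞 K)⁰ K)⁻¹ : FractionalIdeal (𝓞 K)⁰ K) →
      algebraMap K L x ∈ ((IB : FractionalIdeal (𝓞 L)⁰ L)⁻¹ : FractionalIdeal (𝓞 L)⁰ L) := by
    intro x hx
    rw [FractionalIdeal.mem_inv_iff (by simpa using hI0)] at hx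
    rw [FractionalIdeal.mem_inv_iff (by simpa using hIB0)]
    intro z hz
    obtain ⟨z', hz', rfl⟩ := (FractionalIdeal.mem_coeIdeal _).mp hz
    rw [hIB] at hz'
    induction hz' using Submodule.span_induction with
    | mem w hw =>
      obtain ⟨y, hy, rfl⟩ := hw
      have h1 := hx (algebraMap (𝓞 K) K y) (FractionalIdeal.mem_coeIdeal_of_mem _ hy)
      obtain ⟨t, ht⟩ := (FractionalIdeal.mem_one_iff _).mp h1
      refine (FractionalIdeal.mem_one_iff _).mpr ⟨algebraMap (𝓞 K) (𝓞 L) t, ?_⟩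
      rw [← IsScalarTower.algebraMap_apply (𝓞 K) (𝓞 L) L,
        ← IsScalarTower.algebraMap_apply (𝓞 K) (𝓞 L) L,
        IsScalarTower.algebraMap_apply (𝓞 K) K L, IsScalarTower.algebraMap_apply (𝓞 K) K L y,
        ht, map_mul]
    | zero =>
      rw [map_zero, mul_zero]
      exact Submodule.zero_mem _
    | add u w hu hw hu' hw' =>
      rw [map_add, mul_add]
      exact Submodule.add_mem _ (hu' (FractionalIdeal.mem_coeIdeal_of_mem _ hu))
        (hw' (FractionalIdeal.mem_coeIdeal_of_mem _ hw))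
    | smul a u hu hu' =>
      have h2 := hu' (FractionalIdeal.mem_coeIdeal_of_mem _ hu)
      have h3 : algebraMap K L x * algebraMap (𝓞 L) L (a • u) =
          a • (algebraMap K L x * algebraMap (𝓞 L) L u) := by
        rw [smul_eq_mul, map_mul, Algebra.smul_def]
        ring
      rw [h3]
      exact Submodule.smul_mem _ _ h2
  have hle : FractionalIdeal.spanSingleton (𝓞 K)⁰ (finrank K L : K) *
      ((I : FractionalIdeal (𝓞 K)⁰ K)⁻¹ : FractionalIdeal (𝓞 K)⁰ K) ≤ 1 := by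
    rw [FractionalIdeal.spanSingleton_mul_le_iff]
    intro x hx
    have h1 := hD (Submodule.mem_map_of_mem (hinv x hx))
    rw [LinearMap.restrictScalars_apply, Algebra.trace_algebraMap, nsmul_eq_mul] at h1
    obtain ⟨t, ht⟩ := Submodule.mem_one.mp h1
    exact (FractionalIdeal.mem_one_iff _).mpr ⟨t, ht⟩
  have hI0' : (I : FractionalIdeal (𝓞 K)⁰ K) ≠ 0 := by simpa using hI0
  have h2 : FractionalIdeal.spanSingleton (𝓞 K)⁰ (finrank K L : K) ≤
      (I : FractionalIdeal (𝓞 K)⁰ K) := by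
    calc FractionalIdeal.spanSingleton (𝓞 K)⁰ (finrank K L : K)
        = FractionalIdeal.spanSingleton (𝓞 K)⁰ (finrank K L : K) *
            (I : FractionalIdeal (𝓞 K)⁰ K)⁻¹ * (I : FractionalIdeal (𝓞 K)⁰ K) := by
          rw [mul_assoc, inv_mul_cancel₀ hI0', mul_one]
      _ ≤ 1 * (I : FractionalIdeal (𝓞 K)⁰ K) := by gcongr
      _ = (I : FractionalIdeal (𝓞 K)⁰ K) := one_mul _
  rw [Ideal.dvd_iff_le, Ideal.span_singleton_le_iff_mem]
  have h3 : ((finrank K L : ℕ) : K) ∈ (I : FractionalIdeal (𝓞 K)⁰ K) :=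
    h2 (FractionalIdeal.mem_spanSingleton_self _ _)
  obtain ⟨t, ht, hte⟩ := (FractionalIdeal.mem_coeIdeal _).mp h3
  have h4 : t = ((finrank K L : ℕ) : 𝓞 K) := by
    apply FaithfulSMul.algebraMap_injective (𝓞 K) K
    rw [hte, map_natCast]
  rw [← h4]
  exact ht

/-- Powers of conjugate primes divide an ideal stable under the Galois group simultaneously. -/
lemma conj_pow_dvd {I P Q : Ideal (𝓞 L)} (σ : L ≃ₐ[K] L)
    (hI : ∀ (ρ : L ≃ₐ[K] L), ∀ x ∈ I, ρ • x ∈ I) (hQ : σ • P = Q) {k : ℕ} (h : P ^ k ∣ I) :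
    Q ^ k ∣ I := by
  rw [Ideal.dvd_iff_le] at h ⊢
  intro x hx
  have h1 : σ⁻¹ • x ∈ P ^ k := h (hI σ⁻¹ x hx)
  have h2 : Q ^ k = (P ^ k).map (MulSemiringAction.toRingHom (L ≃ₐ[K] L) (𝓞 L) σ) := by
    rw [← hQ, Ideal.pointwise_smul_def, Ideal.map_pow]
  rw [h2]
  have h3 := Ideal.mem_map_of_mem (MulSemiringAction.toRingHom (L ≃ₐ[K] L) (𝓞 L) σ) h1
  have h4 : MulSemiringAction.toRingHom (L ≃ₐ[K] L) (𝓞 L) σ (σ⁻¹ • x) = x := by
    rw [MulSemiringAction.toRingHom_apply, smul_inv_smul]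
  rwa [h4] at h3

lemma map_stable (v : Ideal (𝓞 K)) (ρ : L ≃ₐ[K] L) {x : 𝓞 L}
    (hx : x ∈ v.map (algebraMap (𝓞 K) (𝓞 L))) :
    ρ • x ∈ v.map (algebraMap (𝓞 K) (𝓞 L)) := by
  have h1 := Ideal.mem_map_of_mem (MulSemiringAction.toRingHom (L ≃ₐ[K] L) (𝓞 L) ρ) hx
  rw [Ideal.map_map] at h1
  have h2 : (MulSemiringAction.toRingHom (L ≃ₐ[K] L) (𝓞 L) ρ).comp (algebraMap (𝓞 K) (𝓞 L)) =
      algebraMap (𝓞 K) (𝓞 L) := by
    ext y
    change ρ (algebraMap (𝓞 L) L (algebraMap (𝓞 K) (𝓞 L) y)) =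
      algebraMap (𝓞 L) L (algebraMap (𝓞 K) (𝓞 L) y)
    rw [← IsScalarTower.algebraMap_apply (𝓞 K) (𝓞 L) L,
      IsScalarTower.algebraMap_apply (𝓞 K) K L, AlgEquiv.commutes]
  rw [h2] at h1
  exact h1

lemma smul_different (ρ : L ≃ₐ[K] L) {x : 𝓞 L} (hx : x ∈ differentIdeal (𝓞 K) (𝓞 L)) :
    ρ • x ∈ differentIdeal (𝓞 K) (𝓞 L) :=
  different_stable K L ρ (MulSemiringAction.toRingHom (L ≃ₐ[K] L) (𝓞 L) ρ) (fun _ => rfl) hx

end

theorem different_dvd (K L : Type) [Field K] [NumberField K] [Field L] [NumberField L]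
    [Algebra K L] [IsGalois K L] (J : Ideal (𝓞 K))
    (hJ : ∀ (v : HeightOneSpectrum (𝓞 K)) (P : HeightOneSpectrum (𝓞 L)),
      P.asIdeal ^ 2 ∣ v.asIdeal.map (algebraMap (𝓞 K) (𝓞 L)) → v.asIdeal ∣ J) :
    differentIdeal (𝓞 K) (𝓞 L) ∣
      Ideal.span {(finrank K L : 𝓞 L)} * J.map (algebraMap (𝓞 K) (𝓞 L)) := by
  have hD0 : differentIdeal (𝓞 K) (𝓞 L) ≠ 0 := differentIdeal_ne_bot
  rw [UniqueFactorizationMonoid.dvd_iff_emultiplicity_le hD0]
  intro p hp
  rw [emultiplicity_le_emultiplicity_iff]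
  intro a ha
  rcases Nat.eq_zero_or_pos a with rfl | ha0
  · exact one_dvd _
  -- the prime `P` and the prime `v` below it
  set P : HeightOneSpectrum (𝓞 L) := ⟨p, Ideal.isPrime_of_prime hp, hp.ne_zero⟩ with hP
  have hPp : P.asIdeal = p := rfl
  have hpprime : p.IsPrime := Ideal.isPrime_of_prime hp
  have hv0 : p.under (𝓞 K) ≠ ⊥ := mt Ideal.eq_bot_of_comap_eq_bot hp.ne_zero
  set v : HeightOneSpectrum (𝓞 K) := ⟨p.under (𝓞 K), inferInstance, hv0⟩ with hv
  set VL : Ideal (𝓞 L) := v.asIdeal.map (algebraMap (𝓞 K) (𝓞 L)) with hVL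
  have hpVL : p ∣ VL := by
    rw [Ideal.dvd_iff_le, hVL, Ideal.map_le_iff_le_comap]
  have hAbove : Above v P := hpVL
  have hVL0 : VL ≠ 0 := by
    rw [hVL, Ne, Ideal.zero_eq_bot,
      Ideal.map_eq_bot_iff_of_injective (FaithfulSMul.algebraMap_injective _ _)]
    exact v.ne_bot
  have hfin : FiniteMultiplicity p VL := FiniteMultiplicity.of_prime_left hp hVL0
  set e : ℕ := multiplicity p VL with he
  have hee : emultiplicity p VL = e := hfin.emultiplicity_eq_multiplicity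
  have he0 : 0 < e := by
    have h1 : ((1 : ℕ) : ℕ∞) ≤ emultiplicity p VL :=
      le_emultiplicity_of_pow_dvd (by rwa [pow_one])
    rw [hee] at h1
    exact_mod_cast h1
  have hpe : p ^ e ∣ VL := pow_multiplicity_dvd p VL
  set j : ℕ := a / e with hj
  have hje : e * j ≤ a := Nat.mul_div_le a e
  have haj : a ≤ e * j + e := by
    have := Nat.lt_mul_div_succ a he0
    rw [← hj] at this
    have h2 : e * (j + 1) = e * j + e := by ring
    omega
  -- a power of `v` divides the different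
  have hVD : VL ^ j ∣ differentIdeal (𝓞 K) (𝓞 L) := by
    rw [UniqueFactorizationMonoid.dvd_iff_emultiplicity_le (pow_ne_zero _ hVL0)]
    intro q hq
    rw [emultiplicity_le_emultiplicity_iff]
    intro k hk
    by_cases hqV : q ∣ VL
    · have hqprime : q.IsPrime := Ideal.isPrime_of_prime hq
      have hqv : q.under (𝓞 K) = v.asIdeal := by
        have h1 : v.asIdeal ≤ q.under (𝓞 K) := by
          rw [Ideal.dvd_iff_le, hVL, Ideal.map_le_iff_le_comap] at hqV
          exact hqV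
        exact (v.isMaximal.eq_of_le (Ideal.IsPrime.ne_top inferInstance) h1).symm
      have hlP : p.LiesOver v.asIdeal := ⟨rfl⟩
      have hlQ : q.LiesOver v.asIdeal := ⟨hqv.symm⟩
      obtain ⟨σ, hσ⟩ := Ideal.exists_smul_eq_of_isGaloisGroup v.asIdeal p q (L ≃ₐ[K] L)
      have hσ' : σ⁻¹ • q = p := by rw [← hσ, inv_smul_smul]
      have hkk : k ≤ e * j := by
        have h1 : ∀ i : ℕ, q ^ i ∣ VL → p ^ i ∣ VL := fun i hi =>
          conj_pow_dvd K L σ⁻¹ (fun ρ x hx => map_stable K L v.asIdeal ρ hx) hσ' hi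
        have h2 : emultiplicity q VL ≤ e := by
          rw [← hee, emultiplicity_le_emultiplicity_iff]
          exact fun i hi => h1 i hi
        have h3 : (k : ℕ∞) ≤ emultiplicity q (VL ^ j) := le_emultiplicity_of_pow_dvd hk
        rw [emultiplicity_pow hq] at h3
        have h4 : (j : ℕ∞) * emultiplicity q VL ≤ (j : ℕ∞) * e := by gcongr
        have h5 : (k : ℕ∞) ≤ ((j * e : ℕ) : ℕ∞) := by
          push_cast
          exact h3.trans h4
        have h6 : k ≤ j * e := by exact_mod_cast h5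
        rw [mul_comm]
        exact h6
      have h7 : p ^ (e * j) ∣ differentIdeal (𝓞 K) (𝓞 L) := (pow_dvd_pow p hje).trans ha
      exact (pow_dvd_pow q hkk).trans
        (conj_pow_dvd K L σ (fun ρ x hx => smul_different K L ρ hx) hσ h7)
    · have hk0 : k = 0 := by
        by_contra hk0
        exact hqV (hq.dvd_of_dvd_pow ((dvd_pow_self q hk0).trans hk))
      rw [hk0, pow_zero]
      exact one_dvd _
  have hdeg := pow_dvd_degree K L hVD
  have h1 : p ^ (e * j) ∣ Ideal.span {(finrank K L : 𝓞 L)} := by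
    have h2 : VL ^ j ∣ Ideal.span {(finrank K L : 𝓞 L)} := by
      rw [Ideal.dvd_iff_le] at hdeg ⊢
      have h3 := Ideal.map_mono (f := algebraMap (𝓞 K) (𝓞 L)) hdeg
      rw [Ideal.map_span, Set.image_singleton, map_natCast, Ideal.map_pow] at h3
      exact h3
    rw [pow_mul]
    exact (pow_dvd_pow_of_dvd hpe j).trans h2
  have h4 : p ^ e ∣ J.map (algebraMap (𝓞 K) (𝓞 L)) := by
    have h5 : v.asIdeal ∣ J := by
      apply hJ v P
      apply sq_dvd_of_dvd_different K L hAbove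
      rw [hPp]
      exact (dvd_pow_self p ha0.ne').trans ha
    refine hpe.trans ?_
    rw [Ideal.dvd_iff_le] at h5 ⊢
    exact Ideal.map_mono h5
  calc p ^ a ∣ p ^ (e * j + e) := pow_dvd_pow p haj
    _ = p ^ (e * j) * p ^ e := pow_add _ _ _
    _ ∣ _ := mul_dvd_mul h1 h4

end FreySparse
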