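import Pool.Agent.Lib.MP_6babc4_nt.Sp.Defs

/-!
# Module IdK: the number of ideals of given norm, uniformly in the field (50 minutes)

PROOF. Let `E` be a number field of degree at most `M` and `I` an ideal of norm `k ≥ 1`. Then
`k ∈ I` (`Ideal.absNorm_mem`), so `I` divides `(k)`. For a prime `p`, above `p` there are at most
`M` prime ideals, and the exponent in `I` of a prime ideal `P | p` is at most `a = v_p(k)`, because
`N(P)^e` divides `N(I) = k` and `N(P)` is a power (`≥ 1`) of `p`. So the number of the `I` is at most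
`∏_{p | k} (v_p(k) + 1)^M`. (Formally: `I` is determined by the function `P ↦ v_P(I)` on the set
`T` of the prime ideals dividing `(k)`, `I = ∏ P^(v_P(I))`; the number of functions with
`v_P(I) ≤ v_p(k)` is `∏_{P ∈ T} (v_{p(P)}(k) + 1) ≤ ∏_{p | k} (v_p(k)+1)^M`.) Now
`(a + 1)^M ≤ C_0(p) p^(ε a)` with `C_0(p) = 1` as soon as `p^ε ≥ 2^M` (as `(a+1) ≤ 2^a`), and
`(a+1)^M ≤ C_0 2^(ε a)` for all `a ≥ 0` with one constant `C_0 = C_0(M, ε)` for the finitely many
others. So the count is at most `C k^ε`, `C = C_0^(number of primes p with p^ε < 2^M)`.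
The number of prime ideals above `p`: `Ideal.card_primesOverFinset...`,
`Ideal.sum_ramification_inertia` (the sum of `e f` is the degree).
-/

open NumberField Module UniqueFactorizationMonoid

namespace FreySparse

private lemma idK_local_factor {η : ℝ} (hη : 0 < η) (a : ℕ) :
    ((a : ℝ) + 1) ≤ max 1 (1 / (η * Real.log 2)) * ((2 : ℝ) ^ η) ^ a := by
  have hlog : 0 < Real.log 2 := Real.log_pos (by norm_num)
  have h1 : 1 + (a : ℝ) * (η * Real.log 2) ≤ ((2 : ℝ) ^ η) ^ a := by
    have h2 : ((2 : ℝ) ^ η) ^ a = Real.exp ((a : ℝ) * (η * Real.log 2)) := by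
      rw [Real.rpow_def_of_pos (by norm_num), ← Real.exp_nat_mul]
      congr 1; ring
    rw [h2]
    have := Real.add_one_le_exp ((a : ℝ) * (η * Real.log 2))
    linarith
  have hM1 : (1 : ℝ) ≤ max 1 (1 / (η * Real.log 2)) := le_max_left _ _
  have hM2 : 1 / (η * Real.log 2) ≤ max 1 (1 / (η * Real.log 2)) := le_max_right _ _
  set M := max 1 (1 / (η * Real.log 2))
  have h3 : 1 ≤ M * (η * Real.log 2) := by
    rw [div_le_iff₀ (by positivity)] at hM2; exact hM2
  have ha : (0 : ℝ) ≤ a := Nat.cast_nonneg a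
  calc (a : ℝ) + 1 ≤ M * (1 + (a : ℝ) * (η * Real.log 2)) := by
        nlinarith
    _ ≤ _ := by gcongr

private lemma idK_divisors {η : ℝ} (hη : 0 < η) :
    ∃ C : ℝ, 1 ≤ C ∧ ∀ n : ℕ, n ≠ 0 → (n.divisors.card : ℝ) ≤ C * (n : ℝ) ^ η := by
  set M := max 1 (1 / (η * Real.log 2)) with hM
  have hM1 : (1 : ℝ) ≤ M := le_max_left _ _
  set P0 : ℕ := ⌈(2 : ℝ) ^ (1 / η)⌉₊ with hP0
  refine ⟨M ^ (P0 + 1), one_le_pow₀ hM1, fun n hn => ?_⟩
  have e1 : (n : ℝ) ^ η = ∏ p ∈ n.primeFactors, ((p : ℝ) ^ η) ^ (n.factorization p) := by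
    have h1 : (n : ℝ) = ∏ p ∈ n.primeFactors, (p : ℝ) ^ (n.factorization p) := by
      have := Nat.prod_factorization_pow_eq_self hn
      conv_lhs => rw [← this]
      rw [Finsupp.prod, Nat.support_factorization]
      push_cast; rfl
    conv_lhs => rw [h1]
    rw [← Real.finsetProd_rpow _ _ (fun p _ => by positivity)]
    refine Finset.prod_congr rfl fun p _ => ?_
    rw [← Real.rpow_natCast, ← Real.rpow_natCast, ← Real.rpow_mul (by positivity),
      ← Real.rpow_mul (by positivity), mul_comm]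
  have e2 : (n.divisors.card : ℝ) = ∏ p ∈ n.primeFactors, ((n.factorization p : ℝ) + 1) := by
    rw [Nat.card_divisors hn]; push_cast; rfl
  have hle : ∀ p ∈ n.primeFactors, ((n.factorization p : ℝ) + 1) ≤
      (if p ∈ Finset.range (P0 + 1) then M else 1) * ((p : ℝ) ^ η) ^ (n.factorization p) := by
    intro p hp
    have hpp := Nat.prime_of_mem_primeFactors hp
    have hp2 : (2 : ℝ) ≤ p := by exact_mod_cast hpp.two_le
    by_cases hpr : p ∈ Finset.range (P0 + 1)
    · rw [if_pos hpr]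
      refine (idK_local_factor hη _).trans ?_
      gcongr
    · rw [if_neg hpr, one_mul]
      have hpP : (2 : ℝ) ^ (1 / η) ≤ p := by
        have h1 : P0 + 1 ≤ p := by
          by_contra h; exact hpr (Finset.mem_range.2 (by omega))
        calc (2 : ℝ) ^ (1 / η) ≤ P0 := Nat.le_ceil _
          _ ≤ p := by exact_mod_cast (by omega : P0 ≤ p)
      have h2 : (2 : ℝ) ≤ (p : ℝ) ^ η := by
        calc (2 : ℝ) = ((2 : ℝ) ^ (1 / η)) ^ η := by
              rw [← Real.rpow_mul (by norm_num), one_div_mul_cancel hη.ne', Real.rpow_one]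
          _ ≤ _ := by gcongr
      calc ((n.factorization p : ℝ) + 1) ≤ (2 : ℝ) ^ (n.factorization p) := by
            have : n.factorization p + 1 ≤ 2 ^ (n.factorization p) := Nat.lt_two_pow_self
            exact_mod_cast this
        _ ≤ _ := by gcongr
  rw [e1, e2]
  refine (Finset.prod_le_prod (fun p _ => by positivity) hle).trans ?_
  rw [Finset.prod_mul_distrib]
  refine mul_le_mul_of_nonneg_right ?_ (Finset.prod_nonneg fun p _ => by positivity)
  rw [Finset.prod_ite, Finset.prod_const, Finset.prod_const_one, mul_one]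
  refine pow_le_pow_right₀ hM1 ?_
  calc (n.primeFactors.filter fun x => x ∈ Finset.range (P0 + 1)).card
      ≤ (Finset.range (P0 + 1)).card :=
        Finset.card_le_card fun x hx => (Finset.mem_filter.1 hx).2
    _ = P0 + 1 := Finset.card_range _

section IdK

variable {E : Type} [Field E] [NumberField E]

omit [NumberField E] in
private lemma idK_exists_mem (P : Ideal (𝓞 E)) (hP : P.IsPrime) : ∀ n : ℕ, 1 ≤ n →
    (n : 𝓞 E) ∈ P → ∃ p : ℕ, p.Prime ∧ p ∣ n ∧ (p : 𝓞 E) ∈ P := by
  intro n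
  induction n using Nat.strong_induction_on with
  | _ n ih =>
    intro hn hmem
    rcases eq_or_ne n 1 with rfl | h1
    · exact absurd ((Ideal.eq_top_iff_one P).2 (by simpa using hmem)) hP.ne_top
    · have hp := Nat.minFac_prime h1
      obtain ⟨m, hm⟩ := Nat.minFac_dvd n
      have he : ((n.minFac : ℕ) : 𝓞 E) * (m : 𝓞 E) = (n : 𝓞 E) := by
        rw [← Nat.cast_mul, ← hm]
      have hmem' : ((n.minFac : ℕ) : 𝓞 E) * (m : 𝓞 E) ∈ P := by rw [he]; exact hmem
      rcases hP.mem_or_mem hmem' with h | h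
      · exact ⟨_, hp, Nat.minFac_dvd n, h⟩
      · have hm1 : 1 ≤ m := by
          rcases Nat.eq_zero_or_pos m with h0 | h0
          · rw [h0, mul_zero] at hm; omega
          · exact h0
        have hlt : m < n := by
          have h2 := hp.two_le
          nlinarith
        obtain ⟨p, h1, h2, h3⟩ := ih m hlt hm1 h
        exact ⟨p, h1, h2.trans (Dvd.intro_left _ hm.symm), h3⟩

private lemma idK_finrank : finrank ℤ (𝓞 E) = finrank ℚ E := RingOfIntegers.rank E

private lemma idK_dvd_absNorm {P : Ideal (𝓞 E)} (hP : P.IsPrime) {p : ℕ}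
    (hp : p.Prime) (hm : (p : 𝓞 E) ∈ P) : p ∣ Ideal.absNorm P := by
  have h1 : P ∣ Ideal.span {(p : 𝓞 E)} := (Ideal.dvd_span_singleton).2 hm
  have h2 : Ideal.absNorm P ∣ p ^ finrank ℤ (𝓞 E) := by
    rw [← Ideal.absNorm_span_natCast]
    exact map_dvd _ h1
  obtain ⟨f, -, hf⟩ := (Nat.dvd_prime_pow hp).1 h2
  rcases Nat.eq_zero_or_pos f with h0 | h0
  · rw [h0, pow_zero] at hf
    exact absurd (Ideal.absNorm_eq_one_iff.1 hf) hP.ne_top
  · rw [hf]; exact dvd_pow_self _ h0.ne'

private lemma idK_card_above {p : ℕ} (hp : p.Prime) (F : Finset (Ideal (𝓞 E)))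
    (hF : ∀ P ∈ F, Prime P ∧ (p : 𝓞 E) ∈ P) : F.card ≤ finrank ℚ E := by
  have h1 : ∏ P ∈ F, P ∣ Ideal.span {(p : 𝓞 E)} :=
    Finset.prod_primes_dvd _ (fun P hP => (hF P hP).1)
      (fun P hP => (Ideal.dvd_span_singleton).2 (hF P hP).2)
  have h2 : ∏ P ∈ F, Ideal.absNorm P ∣ p ^ finrank ℤ (𝓞 E) := by
    rw [← Ideal.absNorm_span_natCast, ← map_prod]
    exact map_dvd _ h1
  have h3 : p ^ F.card ∣ ∏ P ∈ F, Ideal.absNorm P := by
    rw [← Finset.prod_const]
    exact Finset.prod_dvd_prod_of_dvd _ _ fun P hP =>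
      idK_dvd_absNorm (Ideal.isPrime_of_prime (hF P hP).1) hp (hF P hP).2
  have h4 := h3.trans h2
  rw [idK_finrank] at h4
  exact (Nat.pow_dvd_pow_iff_le_right hp.one_lt).1 h4

private lemma idK_count (k : ℕ) (hk : 1 ≤ k) :
    {I : Ideal (𝓞 E) | Ideal.absNorm I = k}.ncard ≤ k.divisors.card ^ finrank ℚ E := by
  classical
  have hk0 : k ≠ 0 := by omega
  set T : Finset (Ideal (𝓞 E)) := (normalizedFactors (Ideal.span {(k : 𝓞 E)})).toFinset with hT
  have hspan : Ideal.span {(k : 𝓞 E)} ≠ 0 := by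
    rw [Ne, Ideal.zero_eq_bot, Ideal.span_singleton_eq_bot]
    exact_mod_cast hk0
  have hTp : ∀ P ∈ T, Prime P ∧ (k : 𝓞 E) ∈ P := by
    intro P hP
    rw [hT, Multiset.mem_toFinset] at hP
    exact ⟨prime_of_normalized_factor P hP,
      (Ideal.dvd_span_singleton).1 (dvd_of_mem_normalizedFactors hP)⟩
  have hex : ∀ P : Ideal (𝓞 E), ∃ p : ℕ, P ∈ T → p ∈ k.primeFactors ∧ (p : 𝓞 E) ∈ P := by
    intro P
    by_cases hP : P ∈ T
    · obtain ⟨p, h1, h2, h3⟩ :=
        idK_exists_mem P (Ideal.isPrime_of_prime (hTp P hP).1) k hk (hTp P hP).2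
      exact ⟨p, fun _ => ⟨Nat.mem_primeFactors.2 ⟨h1, h2, hk0⟩, h3⟩⟩
    · exact ⟨0, fun h => absurd h hP⟩
  choose pp hpp using hex
  set V : Finset ((P : Ideal (𝓞 E)) → P ∈ T → ℕ) :=
    T.pi (fun P => Finset.range (k.factorization (pp P) + 1)) with hV
  have hIk : ∀ I : Ideal (𝓞 E), Ideal.absNorm I = k → I ∣ Ideal.span {(k : 𝓞 E)} := by
    intro I hI
    rw [Ideal.dvd_span_singleton, ← hI]
    exact Ideal.absNorm_mem I
  have hI0 : ∀ I : Ideal (𝓞 E), Ideal.absNorm I = k → I ≠ 0 := by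
    rintro I hI rfl
    rw [Ideal.zero_eq_bot, Ideal.absNorm_bot] at hI
    omega
  have hinT : ∀ I : Ideal (𝓞 E), Ideal.absNorm I = k → ∀ P ∈ normalizedFactors I, P ∈ T := by
    intro I hI P hP
    rw [hT, Multiset.mem_toFinset]
    exact Multiset.mem_of_le
      ((dvd_iff_normalizedFactors_le_normalizedFactors (hI0 I hI) hspan).1 (hIk I hI)) hP
  have h1 : {I : Ideal (𝓞 E) | Ideal.absNorm I = k}.ncard ≤ (↑V : Set ((P : Ideal (𝓞 E)) → P ∈ T → ℕ)).ncard := by
    refine Set.ncard_le_ncard_of_injOn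
      (fun I => fun P _ => (normalizedFactors I).count P) ?_ ?_ (Finset.finite_toSet _)
    · intro I hI
      have hI' : Ideal.absNorm I = k := hI
      rw [Finset.mem_coe, hV, Finset.mem_pi]
      intro P hP
      rw [Finset.mem_range, Nat.lt_succ_iff]
      have hq := hpp P hP
      have hprime : (pp P).Prime := Nat.prime_of_mem_primeFactors hq.1
      rw [← hprime.pow_dvd_iff_le_factorization hk0]
      have h2 : P ^ (normalizedFactors I).count P ∣ I := by
        rw [dvd_iff_normalizedFactors_le_normalizedFactors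
          (pow_ne_zero _ (hTp P hP).1.ne_zero) (hI0 I hI'),
          normalizedFactors_pow, normalizedFactors_irreducible (hTp P hP).1.irreducible,
          normalize_eq, Multiset.nsmul_singleton]
        exact (Multiset.le_count_iff_replicate_le).1 le_rfl
      have h3 : (Ideal.absNorm P) ^ (normalizedFactors I).count P ∣ k := by
        rw [← hI', ← map_pow]
        exact map_dvd _ h2
      exact (pow_dvd_pow_of_dvd
        (idK_dvd_absNorm (Ideal.isPrime_of_prime (hTp P hP).1) hprime hq.2) _).trans h3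
    · intro I hI J hJ hIJ
      have hI' : Ideal.absNorm I = k := hI
      have hJ' : Ideal.absNorm J = k := hJ
      have h2 : normalizedFactors I = normalizedFactors J := by
        ext P
        by_cases hP : P ∈ T
        · exact congrFun (congrFun hIJ P) hP
        · rw [Multiset.count_eq_zero.2 fun h => hP (hinT I hI' P h),
            Multiset.count_eq_zero.2 fun h => hP (hinT J hJ' P h)]
      rw [← Ideal.prod_normalizedFactors_eq_self (hI0 I hI'),
        ← Ideal.prod_normalizedFactors_eq_self (hI0 J hJ'), h2]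
  have h2 : (↑V : Set ((P : Ideal (𝓞 E)) → P ∈ T → ℕ)).ncard = ∏ P ∈ T, (k.factorization (pp P) + 1) := by
    rw [Set.ncard_coe_finset, hV, Finset.card_pi]
    exact Finset.prod_congr rfl fun P _ => Finset.card_range _
  have h3 : ∏ P ∈ T, (k.factorization (pp P) + 1) ≤
      ∏ p ∈ k.primeFactors, (k.factorization p + 1) ^ finrank ℚ E := by
    rw [← Finset.prod_fiberwise_of_maps_to (s := T) (t := k.primeFactors) (g := pp)
      (fun P hP => (hpp P hP).1)]
    refine Finset.prod_le_prod' fun p hp => ?_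
    have h4 : ∏ P ∈ T.filter (fun P => pp P = p), (k.factorization (pp P) + 1) =
        (k.factorization p + 1) ^ (T.filter (fun P => pp P = p)).card := by
      rw [← Finset.prod_const]
      refine Finset.prod_congr rfl fun P hP => ?_
      rw [(Finset.mem_filter.1 hP).2]
    rw [h4]
    refine Nat.pow_le_pow_right (by omega) ?_
    refine idK_card_above (Nat.prime_of_mem_primeFactors hp) _ fun P hP => ?_
    obtain ⟨h5, h6⟩ := Finset.mem_filter.1 hP
    refine ⟨(hTp P h5).1, ?_⟩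
    have := (hpp P h5).2
    rwa [h6] at this
  rw [Nat.card_divisors hk0, ← Finset.prod_pow]
  exact h1.trans (h2.le.trans h3)

end IdK

theorem ideal_count (M : ℕ) {ε : ℝ} (hε : 0 < ε) : ∃ C : ℝ, 1 ≤ C ∧
    ∀ (E : Type) [Field E] [NumberField E], finrank ℚ E ≤ M → ∀ k : ℕ, 1 ≤ k →
      {I : Ideal (𝓞 E) | Ideal.absNorm I = k}.Finite ∧
      ({I : Ideal (𝓞 E) | Ideal.absNorm I = k}.ncard : ℝ) ≤ C * (k : ℝ) ^ ε := by
  have hM0 : (0 : ℝ) < (M : ℝ) + 1 := by positivity
  obtain ⟨C, hC1, hC⟩ := idK_divisors (η := ε / ((M : ℝ) + 1)) (by positivity)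
  refine ⟨C ^ (M + 1), one_le_pow₀ hC1, ?_⟩
  intro E _ _ hE k hk
  refine ⟨Ideal.finite_setOfPred_absNorm_eq k, ?_⟩
  have hd1 : 1 ≤ k.divisors.card := Finset.card_pos.2 ⟨1, Nat.one_mem_divisors.2 (by omega)⟩
  have h1 : {I : Ideal (𝓞 E) | Ideal.absNorm I = k}.ncard ≤ k.divisors.card ^ (M + 1) :=
    (idK_count k hk).trans (Nat.pow_le_pow_right hd1 (by omega))
  have h2 : ({I : Ideal (𝓞 E) | Ideal.absNorm I = k}.ncard : ℝ) ≤
      (k.divisors.card : ℝ) ^ (M + 1) := by exact_mod_cast h1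
  refine h2.trans ((pow_le_pow_left₀ (by positivity) (hC k (by omega)) _).trans ?_)
  rw [mul_pow]
  refine le_of_eq ?_
  congr 1
  rw [← Real.rpow_natCast, ← Real.rpow_mul (by positivity)]
  congr 1
  push_cast
  field_simp

end FreySparse
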