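import Pool.Agent.Lib.MP_6babc4_nt.AvgArch

/-!
# Archimedean part for superelliptic curves: integrability and a lower bound for determinants

For a separable polynomial `F` of degree `n` over the complex numbers, an exponent `0 < s < 2` and
`i + k + 2 < s n` the function `z ^ i * conj z ^ k * ‖F z‖ ^ (-s)` is integrable.
-/

open Polynomial MeasureTheory Set FreyAvg
open scoped ComplexConjugate

namespace FreySparse

/-- An integrable radial kernel. -/
noncomputable def kst (s t : ℝ) (y : ℂ) : ℝ := ‖y‖ ^ (-s) * (1 + ‖y‖) ^ (-t)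

lemma kst_nonneg (s t : ℝ) (y : ℂ) : 0 ≤ kst s t y := by unfold kst; positivity

lemma kst_integrable {s t : ℝ} (hs : s < 2) (_ht : 0 ≤ t) (hst : 2 < s + t) :
    Integrable (kst s t) := by
  have h := (integrable_fun_norm_addHaar (volume : Measure ℂ)
    (f := fun r : ℝ => r ^ (-s) * (1 + r) ^ (-t))).2 ?_
  · exact h
  rw [Complex.finrank_real_complex]
  have hsplit : Ioi (0 : ℝ) = Ioc 0 1 ∪ Ioi 1 := (Ioc_union_Ioi_eq_Ioi zero_le_one).symm
  rw [hsplit]
  have hmeas : Measurable (fun y : ℝ => y ^ (2 - 1) • (y ^ (-s) * (1 + y) ^ (-t))) := by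
    fun_prop
  refine IntegrableOn.union ?_ ?_
  · have h1 : IntegrableOn (fun y : ℝ => y ^ (1 - s)) (Ioc 0 1) :=
      (intervalIntegral.intervalIntegrable_rpow' (a := 0) (b := 1) (r := 1 - s)
        (by linarith)).1
    refine Integrable.mono' h1 hmeas.aestronglyMeasurable ?_
    refine (ae_restrict_iff' measurableSet_Ioc).2 (Filter.Eventually.of_forall ?_)
    intro y hy
    have hy0 : 0 < y := hy.1
    rw [Real.norm_of_nonneg (by simp only [smul_eq_mul]; positivity)]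
    simp only [smul_eq_mul]
    have e1 : y ^ (1 - s) = y * y ^ (-s) := by
      rw [sub_eq_add_neg, Real.rpow_add hy0, Real.rpow_one]
    rw [e1]
    have e2 : (1 + y) ^ (-t) ≤ 1 :=
      Real.rpow_le_one_of_one_le_of_nonpos (by linarith) (by linarith)
    have e3 : y ^ (2 - 1) = y := by norm_num
    rw [e3]
    have : 0 ≤ y * y ^ (-s) := by positivity
    nlinarith
  · have h1 : IntegrableOn (fun y : ℝ => y ^ (1 - s - t)) (Ioi 1) :=
      integrableOn_Ioi_rpow_of_lt (by linarith) zero_lt_one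
    refine Integrable.mono' h1 hmeas.aestronglyMeasurable ?_
    refine (ae_restrict_iff' measurableSet_Ioi).2 (Filter.Eventually.of_forall ?_)
    intro y hy
    have hy1 : 1 < y := hy
    have hy0 : 0 < y := by linarith
    rw [Real.norm_of_nonneg (by simp only [smul_eq_mul]; positivity)]
    simp only [smul_eq_mul]
    have e1 : y ^ (1 - s - t) = y * y ^ (-s) * y ^ (-t) := by
      rw [sub_eq_add_neg, Real.rpow_add hy0, sub_eq_add_neg, Real.rpow_add hy0, Real.rpow_one]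
    rw [e1]
    have e2 : (1 + y) ^ (-t) ≤ y ^ (-t) :=
      Real.rpow_le_rpow_of_nonpos hy0 (by linarith) (by linarith)
    have e3 : y ^ (2 - 1) = y := by norm_num
    rw [e3, ← mul_assoc]
    have : 0 ≤ y * y ^ (-s) := by positivity
    exact mul_le_mul_of_nonneg_left e2 this

/-- A power of a sum is at most a constant times the sum of the powers. -/
lemma sum_rpow_le {ι : Type*} (S : Finset ι) (hS : S.Nonempty) (x : ι → ℝ)
    (hx : ∀ a ∈ S, 0 ≤ x a) {s : ℝ} (hs : 0 ≤ s) :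
    (∑ a ∈ S, x a) ^ s ≤ (S.card : ℝ) ^ s * ∑ a ∈ S, x a ^ s := by
  obtain ⟨b, hb, hmax⟩ := Finset.exists_max_image S x hS
  have h1 : ∑ a ∈ S, x a ≤ S.card * x b := by
    calc ∑ a ∈ S, x a ≤ ∑ _a ∈ S, x b := Finset.sum_le_sum fun a ha => hmax a ha
      _ = S.card * x b := by rw [Finset.sum_const, nsmul_eq_mul]
  have h2 : (∑ a ∈ S, x a) ^ s ≤ (S.card * x b) ^ s :=
    Real.rpow_le_rpow (Finset.sum_nonneg hx) h1 hs
  rw [Real.mul_rpow (by positivity) (hx b hb)] at h2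
  refine h2.trans ?_
  refine mul_le_mul_of_nonneg_left ?_ (by positivity)
  exact Finset.single_le_sum (f := fun a => x a ^ s)
    (fun a ha => Real.rpow_nonneg (hx a ha) s) hb

/-- The bound for the integrand. -/
lemma pow_div_le_rpow {F : ℂ[X]} (hF : F.Separable) {m : ℕ} {s : ℝ} (hs0 : 0 < s) (hs : s < 2)
    (hm : (m : ℝ) + 2 < s * F.natDegree) :
    ∃ G : ℂ → ℝ, Integrable G ∧ ∀ z : ℂ, ‖z‖ ^ m / ‖F.eval z‖ ^ s ≤ G z := by
  classical
  set n := F.natDegree with hn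
  have hn1 : 1 ≤ n := by
    by_contra hcon
    have : n = 0 := by omega
    rw [this] at hm
    have : (0 : ℝ) ≤ m := by positivity
    norm_num at hm
    linarith
  obtain ⟨C₀, hC₀, h₀⟩ := lagrange_bound hF (l := 0) (by omega)
  obtain ⟨C₁, hC₁, h₁⟩ := lagrange_bound hF (l := n - 1) (by omega)
  set S := F.roots.toFinset with hS
  have hSne : S.Nonempty := by
    have hdeg : F.degree ≠ 0 := by
      rw [degree_eq_natDegree hF.ne_zero]
      exact_mod_cast (by omega : F.natDegree ≠ 0)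
    obtain ⟨α, hα⟩ := IsAlgClosed.exists_root F hdeg
    exact ⟨α, by rw [hS, Multiset.mem_toFinset, mem_roots hF.ne_zero]; exact hα⟩
  set D : ℝ := 2 ^ (n - 1 - 1) * (C₀ + C₁) with hD
  have hD0 : 0 ≤ D := by positivity
  -- the bound with exponent one
  have hkey : ∀ z : ℂ, (1 + ‖z‖) ^ (n - 1) / ‖F.eval z‖ ≤ D * ∑ α ∈ S, ‖z - α‖⁻¹ := by
    intro z
    have h2 : (1 + ‖z‖) ^ (n - 1) ≤ 2 ^ (n - 1 - 1) * (1 ^ (n - 1) + ‖z‖ ^ (n - 1)) :=
      add_pow_le zero_le_one (norm_nonneg z) (n - 1)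
    rw [one_pow] at h2
    have h3 := h₀ z
    rw [pow_zero] at h3
    calc (1 + ‖z‖) ^ (n - 1) / ‖F.eval z‖
        ≤ (2 ^ (n - 1 - 1) * (1 + ‖z‖ ^ (n - 1))) / ‖F.eval z‖ := by gcongr
      _ = 2 ^ (n - 1 - 1) * (1 / ‖F.eval z‖ + ‖z‖ ^ (n - 1) / ‖F.eval z‖) := by ring
      _ ≤ 2 ^ (n - 1 - 1) * (C₀ * ∑ α ∈ S, ‖z - α‖⁻¹ + C₁ * ∑ α ∈ S, ‖z - α‖⁻¹) := by
          gcongr
          exact h₁ z
      _ = D * ∑ α ∈ S, ‖z - α‖⁻¹ := by rw [hD]; ring
  set t : ℝ := s * (n - 1) - m with ht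
  have ht0 : 0 ≤ t := by
    rw [ht]
    have : s * (n : ℝ) = s * (n - 1) + s := by ring
    linarith
  have hst : 2 < s + t := by
    rw [ht]
    have : s * (n : ℝ) = s * (n - 1) + s := by ring
    linarith
  refine ⟨fun z => ∑ α ∈ S, D ^ s * (S.card : ℝ) ^ s * (1 + ‖α‖) ^ t * kst s t (z - α), ?_, ?_⟩
  · refine integrable_finsetSum _ fun α _ => ?_
    exact ((kst_integrable hs ht0 hst).comp_sub_right α).const_mul _
  · intro z
    have hz1 : 0 < 1 + ‖z‖ := by positivity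
    have hx : ∀ α ∈ S, 0 ≤ ‖z - α‖⁻¹ := fun α _ => by positivity
    -- raise to the power `s`
    have h4 : ((1 + ‖z‖) ^ (n - 1) / ‖F.eval z‖) ^ s ≤
        D ^ s * ((S.card : ℝ) ^ s * ∑ α ∈ S, (‖z - α‖⁻¹) ^ s) := by
      calc ((1 + ‖z‖) ^ (n - 1) / ‖F.eval z‖) ^ s ≤ (D * ∑ α ∈ S, ‖z - α‖⁻¹) ^ s :=
            Real.rpow_le_rpow (by positivity) (hkey z) hs0.le
        _ = D ^ s * (∑ α ∈ S, ‖z - α‖⁻¹) ^ s :=
            Real.mul_rpow hD0 (Finset.sum_nonneg hx)
        _ ≤ D ^ s * ((S.card : ℝ) ^ s * ∑ α ∈ S, (‖z - α‖⁻¹) ^ s) := by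
            refine mul_le_mul_of_nonneg_left ?_ (by positivity)
            exact sum_rpow_le S hSne _ hx hs0.le
    have h5 : ‖z‖ ^ m / ‖F.eval z‖ ^ s ≤
        (1 + ‖z‖) ^ (-t) * ((1 + ‖z‖) ^ (n - 1) / ‖F.eval z‖) ^ s := by
      have e1 : ((1 + ‖z‖) ^ (n - 1) / ‖F.eval z‖) ^ s =
          (1 + ‖z‖) ^ (s * ((n : ℝ) - 1)) / ‖F.eval z‖ ^ s := by
        rw [Real.div_rpow (by positivity) (norm_nonneg _), ← Real.rpow_natCast,
          ← Real.rpow_mul hz1.le]
        congr 2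
        push_cast [Nat.cast_sub hn1]
        ring
      rw [e1, ← mul_div_assoc, ← Real.rpow_add hz1]
      have e2 : -t + s * ((n : ℝ) - 1) = m := by rw [ht]; ring
      rw [e2, Real.rpow_natCast]
      gcongr
      linarith
    have h6 : ∀ α ∈ S, (1 + ‖z‖) ^ (-t) * (‖z - α‖⁻¹) ^ s ≤ (1 + ‖α‖) ^ t * kst s t (z - α) := by
      intro α _
      have e1 : 1 + ‖z - α‖ ≤ (1 + ‖z‖) * (1 + ‖α‖) := by
        have := norm_sub_le z α
        nlinarith [norm_nonneg z, norm_nonneg α]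
      have e2 : (1 + ‖z - α‖) ^ t ≤ (1 + ‖z‖) ^ t * (1 + ‖α‖) ^ t := by
        rw [← Real.mul_rpow (by positivity) (by positivity)]
        exact Real.rpow_le_rpow (by positivity) e1 ht0
      have e3 : (1 + ‖z‖) ^ (-t) ≤ (1 + ‖α‖) ^ t * (1 + ‖z - α‖) ^ (-t) := by
        rw [Real.rpow_neg (by positivity), Real.rpow_neg (by positivity),
          ← div_eq_mul_inv, le_div_iff₀ (by positivity), inv_mul_le_iff₀ (by positivity)]
        exact e2
      have e4 : (‖z - α‖⁻¹) ^ s = ‖z - α‖ ^ (-s) := by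
        rw [Real.inv_rpow (norm_nonneg _), Real.rpow_neg (norm_nonneg _)]
      rw [e4]
      unfold kst
      calc (1 + ‖z‖) ^ (-t) * ‖z - α‖ ^ (-s) ≤
            ((1 + ‖α‖) ^ t * (1 + ‖z - α‖) ^ (-t)) * ‖z - α‖ ^ (-s) := by gcongr
        _ = _ := by ring
    calc ‖z‖ ^ m / ‖F.eval z‖ ^ s
        ≤ (1 + ‖z‖) ^ (-t) * ((1 + ‖z‖) ^ (n - 1) / ‖F.eval z‖) ^ s := h5
      _ ≤ (1 + ‖z‖) ^ (-t) * (D ^ s * ((S.card : ℝ) ^ s * ∑ α ∈ S, (‖z - α‖⁻¹) ^ s)) := by
          gcongr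
      _ = ∑ α ∈ S, D ^ s * (S.card : ℝ) ^ s * ((1 + ‖z‖) ^ (-t) * (‖z - α‖⁻¹) ^ s) := by
          rw [Finset.mul_sum, Finset.mul_sum, Finset.mul_sum]
          refine Finset.sum_congr rfl fun α _ => ?_
          ring
      _ ≤ ∑ α ∈ S, D ^ s * (S.card : ℝ) ^ s * ((1 + ‖α‖) ^ t * kst s t (z - α)) := by
          refine Finset.sum_le_sum fun α hα => ?_
          exact mul_le_mul_of_nonneg_left (h6 α hα) (by positivity)
      _ = _ := Finset.sum_congr rfl fun α _ => by ring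

/-- The entries are integrals of integrable functions. -/
lemma entry_integrable_rpow {F : ℂ[X]} (hF : F.Separable) {s : ℝ} (hs0 : 0 < s) (hs : s < 2)
    {i k : ℕ} (hik : (i : ℝ) + k + 2 < s * F.natDegree) :
    Integrable (fun z : ℂ => z ^ i * (conj z) ^ k * (((‖F.eval z‖ ^ s)⁻¹ : ℝ) : ℂ)) := by
  obtain ⟨G, hG, hle⟩ := pow_div_le_rpow hF hs0 hs (m := i + k) (by push_cast; linarith)
  have hmeas : Measurable (fun z : ℂ => F.eval z) := F.continuous.measurable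
  refine Integrable.mono' hG ?_ (Filter.Eventually.of_forall fun z => ?_)
  · apply Measurable.aestronglyMeasurable
    fun_prop
  · refine le_trans (le_of_eq ?_) (hle z)
    rw [norm_mul, norm_mul, norm_pow, norm_pow, RCLike.norm_conj, Complex.norm_real, norm_inv,
      Real.norm_of_nonneg (by positivity), ← pow_add, div_eq_mul_inv]

/-- A lower bound for the determinant of `r` times the matrix of the weight `‖F z‖ ^ (-s)`. -/
theorem gw_det_lower {g : ℕ} {F : ℂ[X]} (hF : F.Separable) {s : ℝ} (hs0 : 0 < s) (hs : s < 2)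
    (hdeg : 2 * (g : ℝ) < s * F.natDegree) {r : ℝ} (hr : 0 < r)
    {M : ℝ} (hM0 : 0 < M) (hM : ∀ z : ℂ, ‖z‖ ≤ 1 → ‖F.eval z‖ ≤ M) :
    (r * lam0 g / M ^ s) ^ g ≤
      ‖(((r : ℝ) : ℂ) • gw g (fun z => (‖F.eval z‖ ^ s)⁻¹)).det‖ := by
  have hint : ∀ i j : Fin g, Integrable (fun z : ℂ => z ^ (i : ℕ) * (conj z) ^ (j : ℕ) *
      (((‖F.eval z‖ ^ s)⁻¹ : ℝ) : ℂ)) := by
    intro i j
    refine entry_integrable_rpow hF hs0 hs ?_
    have hi : ((i : ℕ) : ℝ) + 1 ≤ g := by exact_mod_cast i.2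
    have hj : ((j : ℕ) : ℝ) + 1 ≤ g := by exact_mod_cast j.2
    linarith
  have hherm : (((r : ℝ) : ℂ) • gw g (fun z => (‖F.eval z‖ ^ s)⁻¹)).IsHermitian := by
    have h := gw_isHermitian g (fun z => (‖F.eval z‖ ^ s)⁻¹)
    unfold Matrix.IsHermitian at h ⊢
    rw [Matrix.conjTranspose_smul, h]
    congr 1
    simp
  refine det_lower hherm (by have := lam0_pos g; positivity) ?_
  intro c
  have h1 : dotProduct (star c) (Matrix.mulVec
      (((r : ℝ) : ℂ) • gw g (fun z => (‖F.eval z‖ ^ s)⁻¹)) c) =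
      ((r * ∫ z, ‖pc c z‖ ^ 2 * (‖F.eval z‖ ^ s)⁻¹ : ℝ) : ℂ) := by
    rw [Matrix.smul_mulVec, dotProduct_smul, quad_eq hint c]
    push_cast
    simp
  rw [h1, Complex.ofReal_re]
  have h2 : ∫ z, (M ^ s)⁻¹ * (‖pc c z‖ ^ 2 * wd z) ≤
      ∫ z, ‖pc c z‖ ^ 2 * (‖F.eval z‖ ^ s)⁻¹ := by
    refine integral_mono_ae ?_ (quad_integrable hint c) ?_
    · exact (quad_integrable (fun i j => wd_integrable i j) c).const_mul _
    · have hfin : ((F.roots.toFinset : Finset ℂ) : Set ℂ).Finite := Finset.finite_toSet _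
      have hae : ∀ᵐ z : ℂ, z ∉ ((F.roots.toFinset : Finset ℂ) : Set ℂ) :=
        measure_eq_zero_iff_ae_notMem.mp (hfin.measure_zero _)
      filter_upwards [hae] with z hz
      have hFz : F.eval z ≠ 0 := by
        intro h
        apply hz
        rw [Finset.mem_coe, Multiset.mem_toFinset, mem_roots hF.ne_zero]
        exact h
      have hFz0 : 0 < ‖F.eval z‖ := norm_pos_iff.mpr hFz
      by_cases hz1 : z ∈ Metric.closedBall (0 : ℂ) 1
      · have hw : wd z = 1 := by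
          unfold wd
          rw [indicator_of_mem hz1]
          rfl
        rw [hw, mul_one, mul_comm]
        refine mul_le_mul_of_nonneg_left ?_ (by positivity)
        apply inv_anti₀ (by positivity)
        exact Real.rpow_le_rpow hFz0.le (hM z (mem_closedBall_zero_iff.mp hz1)) hs0.le
      · have hw : wd z = 0 := by
          unfold wd
          rw [indicator_of_notMem hz1]
        rw [hw]
        simp only [mul_zero]
        positivity
  rw [integral_const_mul] at h2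
  have h3 := disc_form c
  calc r * lam0 g / M ^ s * ∑ i, ‖c i‖ ^ 2 = r * ((M ^ s)⁻¹ * (lam0 g * ∑ i, ‖c i‖ ^ 2)) := by
        field_simp
    _ ≤ r * ((M ^ s)⁻¹ * ∫ z, ‖pc c z‖ ^ 2 * wd z) := by gcongr
    _ ≤ r * ∫ z, ‖pc c z‖ ^ 2 * (‖F.eval z‖ ^ s)⁻¹ := by gcongr

end FreySparse
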