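import Pool.Agent.Lib.MP_6babc4_nt.Sp.Defs
import Pool.Agent.Lib.MP_6babc4_nt.Sp.ArcA

/-!
# The upper bound for the height
-/

open Polynomial NumberField Module FreyAvg
open scoped ComplexConjugate

namespace FreySparse

lemma gram_eq_gw (l n j : ℕ) (F : ℂ[X]) :
    gram l n j F = (((1 / (l : ℝ) : ℝ)) : ℂ) •
      gw (forms l n j) (fun z => (‖F.eval z‖ ^ (2 * (j : ℝ) / l))⁻¹) := by
  ext i k
  simp only [gram, gw, Matrix.of_apply, Matrix.smul_apply, smul_eq_mul]
  have h : ∀ z : ℂ, z ^ (i : ℕ) * (conj z) ^ (k : ℕ) /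
      ((‖F.eval z‖ ^ (2 * (j : ℝ) / l) : ℝ) : ℂ) =
      z ^ (i : ℕ) * (conj z) ^ (k : ℕ) * (((‖F.eval z‖ ^ (2 * (j : ℝ) / l))⁻¹ : ℝ) : ℂ) := by
    intro z
    rw [Complex.ofReal_inv, div_eq_mul_inv]
  simp only [h]
  push_cast
  rfl

lemma poly_eval_le {F : ℂ[X]} {n : ℕ} (hdeg : F.natDegree = n) {H : ℝ}
    (hF : ∀ i, ‖F.coeff i‖ ≤ H) (z : ℂ) (hz : ‖z‖ ≤ 1) : ‖F.eval z‖ ≤ (n + 1) * H := by
  rw [eval_eq_sum_range]
  refine (norm_sum_le _ _).trans ?_
  calc ∑ i ∈ Finset.range (F.natDegree + 1), ‖F.coeff i * z ^ i‖ ≤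
        ∑ _i ∈ Finset.range (F.natDegree + 1), H := by
        refine Finset.sum_le_sum fun i _ => ?_
        rw [norm_mul, norm_pow]
        calc ‖F.coeff i‖ * ‖z‖ ^ i ≤ H * 1 := by
              refine mul_le_mul (hF i) (pow_le_one₀ (norm_nonneg _) hz) (by positivity) ?_
              exact (norm_nonneg _).trans (hF i)
          _ = H := mul_one _
    _ = (n + 1) * H := by
        rw [Finset.sum_const, Finset.card_range, nsmul_eq_mul, hdeg]
        push_cast
        ring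

/-- The sum of the exponents. -/
lemma sum_forms_le {n l : ℕ} (hl : l.Prime) :
    ∑ j ∈ Finset.Ico 1 l, (forms l n j : ℝ) * ((j : ℝ) / l) ≤ n * l / 3 := by
  have hl2 : 2 ≤ l := hl.two_le
  have hl0 : (0 : ℝ) < l := by exact_mod_cast (by omega : 0 < l)
  have h1 : ∀ j ∈ Finset.Ico 1 l, (forms l n j : ℝ) * ((j : ℝ) / l) ≤
      (n / (l : ℝ) ^ 2) * (j : ℝ) ^ 2 := by
    intro j _
    have h2 : (forms l n j : ℝ) ≤ (j * n : ℝ) / l := by
      rw [le_div_iff₀ hl0]
      have h3 : forms l n j * l ≤ j * n - 1 := Nat.div_mul_le_self _ _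
      have h4 : forms l n j * l ≤ j * n := h3.trans (Nat.sub_le _ _)
      exact_mod_cast h4
    calc (forms l n j : ℝ) * ((j : ℝ) / l) ≤ (j * n : ℝ) / l * ((j : ℝ) / l) := by gcongr
      _ = (n / (l : ℝ) ^ 2) * (j : ℝ) ^ 2 := by field_simp
  have h5 : ∀ m : ℕ, ∑ j ∈ Finset.Ico 1 m, (j : ℝ) ^ 2 ≤ (m : ℝ) ^ 3 / 3 := by
    intro m
    induction m with
    | zero => simp
    | succ k ih =>
      rcases Nat.eq_zero_or_pos k with hk | hk
      · subst hk
        simp
      · rw [Finset.sum_Ico_succ_top (by omega)]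
        have hk0 : (0 : ℝ) ≤ k := by positivity
        push_cast
        nlinarith
  calc ∑ j ∈ Finset.Ico 1 l, (forms l n j : ℝ) * ((j : ℝ) / l)
      ≤ ∑ j ∈ Finset.Ico 1 l, (n / (l : ℝ) ^ 2) * (j : ℝ) ^ 2 := Finset.sum_le_sum h1
    _ = (n / (l : ℝ) ^ 2) * ∑ j ∈ Finset.Ico 1 l, (j : ℝ) ^ 2 := by rw [Finset.mul_sum]
    _ ≤ (n / (l : ℝ) ^ 2) * ((l : ℝ) ^ 3 / 3) := by
        gcongr
        exact h5 l
    _ = n * l / 3 := by field_simp

theorem height_le (n l : ℕ) (hn : 3 ≤ n) (hl : l.Prime) :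
    ∃ C : ℝ, 0 < C ∧ ∀ (K : Type) [Field K] [NumberField K] (H : ℝ), 1 ≤ H →
      ∀ f ∈ Fam K n H, height l f ≤ (n * l / 3 : ℝ) * Real.log H + C := by
  have hl2 : 2 ≤ l := hl.two_le
  have hl0 : (0 : ℝ) < l := by exact_mod_cast (by omega : 0 < l)
  set B : ℕ → ℝ := fun j => (forms l n j : ℝ) *
    (2 * (j : ℝ) / l * Real.log (n + 1) - Real.log (1 / l * lam0 (forms l n j))) with hB
  refine ⟨1 + |1 / 2 * ∑ j ∈ Finset.Ico 1 l, B j|, by positivity, ?_⟩
  intro K _ _ H hH f hf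
  obtain ⟨hdeg, hcoef, hsep⟩ := hf
  have hH0 : 0 < H := by linarith
  have hlogH : 0 ≤ Real.log H := Real.log_nonneg hH
  have hd : (0 : ℝ) < finrank ℚ K := by exact_mod_cast (finrank_pos (R := ℚ) (M := K))
  have hM0 : 0 < (n + 1) * H := by positivity
  have hterm : ∀ σ : K →+* ℂ, ∀ j ∈ Finset.Ico 1 l,
      -(2 * ((forms l n j : ℝ) * ((j : ℝ) / l)) * Real.log H + B j) ≤
      Real.log ‖(gram l f.natDegree j (f.map (σ.comp (algebraMap (𝓞 K) K)))).det‖ := by
    intro σ j hj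
    rw [Finset.mem_Ico] at hj
    have hj0 : (0 : ℝ) < j := by exact_mod_cast hj.1
    have hjl : (j : ℝ) < l := by exact_mod_cast hj.2
    set F := f.map (σ.comp (algebraMap (𝓞 K) K)) with hF
    have hinj : Function.Injective (σ.comp (algebraMap (𝓞 K) K)) := by
      rw [RingHom.coe_comp]
      exact σ.injective.comp (FaithfulSMul.algebraMap_injective (𝓞 K) K)
    have hFdeg : F.natDegree = n := by
      rw [← hdeg]
      exact natDegree_map_eq_of_injective hinj f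
    have hFsep : F.Separable := by
      rw [hF, ← map_map]
      exact hsep.map
    have hFcoef : ∀ i, ‖F.coeff i‖ ≤ H := by
      intro i
      rw [hF, coeff_map]
      exact hcoef i σ
    set s : ℝ := 2 * (j : ℝ) / l with hs
    have hs0 : 0 < s := by positivity
    have hs2 : s < 2 := by
      rw [hs, div_lt_iff₀ hl0]
      linarith
    have hg : 2 * ((forms l n j : ℕ) : ℝ) < s * F.natDegree := by
      rw [hFdeg, hs]
      have h3 : forms l n j * l ≤ j * n - 1 := Nat.div_mul_le_self _ _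
      have h4 : 0 < j * n := Nat.mul_pos (by omega) (by omega)
      have h5 : forms l n j * l < j * n := by omega
      have h6 : (forms l n j : ℝ) * l < j * n := by exact_mod_cast h5
      rw [div_mul_eq_mul_div, lt_div_iff₀ hl0]
      linarith
    have h1 := gw_det_lower (g := forms l n j) hFsep hs0 hs2 hg (r := 1 / (l : ℝ))
      (by positivity) hM0 (poly_eval_le hFdeg hFcoef)
    rw [← gram_eq_gw] at h1
    rw [hdeg]
    have hlam := lam0_pos (forms l n j)
    have h2 : Real.log ((1 / (l : ℝ) * lam0 (forms l n j) / ((n + 1) * H) ^ s) ^ (forms l n j)) ≤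
        Real.log ‖(gram l n j F).det‖ := Real.log_le_log (by positivity) h1
    rw [Real.log_pow, Real.log_div (by positivity) (by positivity),
      Real.log_rpow (by positivity), Real.log_mul (by positivity) hH0.ne'] at h2
    refine le_trans (le_of_eq ?_) h2
    rw [hB, hs]
    ring
  have hsum : (finrank ℚ K : ℝ) * (-∑ j ∈ Finset.Ico 1 l,
      (2 * ((forms l n j : ℝ) * ((j : ℝ) / l)) * Real.log H + B j)) ≤
      ∑ σ : K →+* ℂ, ∑ j ∈ Finset.Ico 1 l,
      Real.log ‖(gram l f.natDegree j (f.map (σ.comp (algebraMap (𝓞 K) K)))).det‖ := by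
    calc (finrank ℚ K : ℝ) * (-∑ j ∈ Finset.Ico 1 l,
          (2 * ((forms l n j : ℝ) * ((j : ℝ) / l)) * Real.log H + B j)) =
        ∑ _σ : K →+* ℂ, ∑ j ∈ Finset.Ico 1 l,
          -(2 * ((forms l n j : ℝ) * ((j : ℝ) / l)) * Real.log H + B j) := by
          rw [Finset.sum_const, Finset.card_univ, Embeddings.card, nsmul_eq_mul,
            Finset.sum_neg_distrib]
      _ ≤ _ := Finset.sum_le_sum fun σ _ => Finset.sum_le_sum fun j hj => hterm σ j hj
  have hB' : ∑ j ∈ Finset.Ico 1 l,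
      (2 * ((forms l n j : ℝ) * ((j : ℝ) / l)) * Real.log H + B j) =
      2 * (∑ j ∈ Finset.Ico 1 l, (forms l n j : ℝ) * ((j : ℝ) / l)) * Real.log H +
        ∑ j ∈ Finset.Ico 1 l, B j := by
    rw [Finset.sum_add_distrib, Finset.mul_sum, Finset.sum_mul]
  rw [hB'] at hsum
  have hG := sum_forms_le (n := n) hl
  set G : ℝ := ∑ j ∈ Finset.Ico 1 l, (forms l n j : ℝ) * ((j : ℝ) / l) with hGdef
  set SB : ℝ := ∑ j ∈ Finset.Ico 1 l, B j with hSB
  rw [height]
  have h5 : -(1 / (2 * (finrank ℚ K : ℝ))) * ∑ σ : K →+* ℂ, ∑ j ∈ Finset.Ico 1 l,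
      Real.log ‖(gram l f.natDegree j (f.map (σ.comp (algebraMap (𝓞 K) K)))).det‖ ≤
      -(1 / (2 * (finrank ℚ K : ℝ))) *
        ((finrank ℚ K : ℝ) * (-(2 * G * Real.log H + SB))) := by
    apply mul_le_mul_of_nonpos_left hsum
    rw [neg_nonpos]
    positivity
  refine h5.trans ?_
  have h6 : -(1 / (2 * (finrank ℚ K : ℝ))) *
        ((finrank ℚ K : ℝ) * (-(2 * G * Real.log H + SB))) = G * Real.log H + 1 / 2 * SB := by
    field_simp
  rw [h6]
  have h7 : G * Real.log H ≤ (n * l / 3 : ℝ) * Real.log H := by gcongr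
  have h8 : 1 / 2 * SB ≤ |1 / 2 * SB| := le_abs_self _
  linarith

end FreySparse
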