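import Pool.Agent.Lib.MP_6babc4_nt.Sp.Cnt
import Pool.Agent.Lib.MP_6babc4_nt.Sp.Arc

/-!
# Module Main: the theorem (35 minutes)

PROOF. Let `C₁` be the constant of `height_le` and `Y = H^(n ℓ / (3 κ)) ≥ 1`. If `C ≥ C₁` and
`f ∈ Fam K n H` violates `Frey ℓ κ C f`, then
`κ log (|D_K| cond) + C < height ≤ (n ℓ / 3) log H + C₁`, so `log (|D_K| cond) < (n ℓ / (3κ)) log H`
and `|D_K| cond ≤ Y` (`|D_K| ≥ 1`, `cond ≥ 1`). By `count_slice` with
`ε' = ε / (2 (1 + n ℓ / (3 κ)))` the number of such `f` in the slice `(a, b)` with `excess ≤ Z` is at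
most `C₀ Z Y^(n⁴ d² + ε') H^ε'`, and
`(n ℓ / (3κ)) (n⁴ d² + ε') + ε' ≤ ℓ n⁵ d² / (3κ) + ε`. This proves the bound with `Z`. For the bound
with `H^((2n-2) d / q)` in the place of `Z`: `excess^q ≤ C₂ H^((2n-2) d)` (`excess_bound`), so
`excess ≤ Z' := C₂ H^((2n-2) d / q)` (`q ≥ 1`, `C₂ ≥ 1`) for all the `f` in `Fam K n H`, and use the
bound already proved with this `Z'`. `C` is the maximum of the constants (the left side decreases
and the right side increases with `C`).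
-/

open Polynomial NumberField IsDedekindDomain Module

namespace FreySparse

private lemma main_vio {n ℓ : ℕ} {κ c C₁ : ℝ} (hκ : 0 < κ) (hc : C₁ ≤ c) {K : Type} [Field K]
    [NumberField K] {H : ℝ} (hH : 1 ≤ H) {f : (𝓞 K)[X]}
    (hh : height ℓ f ≤ ((n : ℝ) * ℓ / 3) * Real.log H + C₁) (hF : ¬ Frey ℓ κ c f) :
    |(NumberField.discr K : ℝ)| * cond ℓ f ≤ H ^ ((n : ℝ) * ℓ / (3 * κ)) := by
  unfold Frey at hF
  push Not at hF
  have h1 : κ * Real.log (|(NumberField.discr K : ℝ)| * cond ℓ f) <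
      ((n : ℝ) * ℓ / 3) * Real.log H := by linarith
  have hD : 1 ≤ |(NumberField.discr K : ℝ)| := by
    have h := Int.one_le_abs (NumberField.discr_ne_zero K)
    rw [← Int.cast_abs]
    exact_mod_cast h
  have hcd : (1 : ℝ) ≤ cond ℓ f := by exact_mod_cast cond_pos ℓ f
  have hpos : 0 < |(NumberField.discr K : ℝ)| * cond ℓ f := by positivity
  have hH0 : 0 < H := by linarith
  have h2 : Real.log (|(NumberField.discr K : ℝ)| * cond ℓ f) <
      (n : ℝ) * ℓ / (3 * κ) * Real.log H := by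
    have h3 : (n : ℝ) * ℓ / (3 * κ) * Real.log H = ((n : ℝ) * ℓ / 3 * Real.log H) / κ := by
      field_simp
    rw [h3, lt_div_iff₀ hκ]
    linarith
  rw [← Real.log_rpow hH0] at h2
  exact ((Real.log_lt_log_iff hpos (Real.rpow_pos_of_pos hH0 _)).1 h2).le

private lemma main_qexp {ℓ : ℕ} (hℓ : ℓ.Prime) : 1 ≤ qexp ℓ := by
  unfold qexp
  have := hℓ.two_le
  split_ifs <;> omega

theorem main (d n ℓ : ℕ) (hn : 3 ≤ n) (hℓ : ℓ.Prime) {κ ε : ℝ} (hκ : 0 < κ) (hε : 0 < ε) :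
    ∃ c : ℝ, ∀ (K : Type) [Field K] [NumberField K], finrank ℚ K = d →
      ∀ H : ℝ, 1 ≤ H → ∀ Z : ℝ, 1 ≤ Z → ∀ a b : 𝓞 K,
        {f ∈ Fam K n H | f.coeff n = a ∧ f.coeff (n - 1) = b ∧ (excess ℓ f : ℝ) ≤ Z ∧
          ¬ Frey ℓ κ c f}.Finite ∧
        ({f ∈ Fam K n H | f.coeff n = a ∧ f.coeff (n - 1) = b ∧ (excess ℓ f : ℝ) ≤ Z ∧
          ¬ Frey ℓ κ c f}.ncard : ℝ) ≤
            c * min Z (H ^ ((d : ℝ) * (2 * n - 2) / qexp ℓ)) *
              H ^ ((ℓ : ℝ) * (n : ℝ) ^ 5 * (d : ℝ) ^ 2 / (3 * κ) + ε) := by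
  classical
  obtain ⟨C₁, hC₁, hheight⟩ := height_le n ℓ hn hℓ
  have hn0 : (0 : ℝ) < n := by
    have : 0 < n := by omega
    exact_mod_cast this
  have hl0 : (0 : ℝ) < ℓ := by exact_mod_cast hℓ.pos
  set g : ℝ := (n : ℝ) * ℓ / (3 * κ) with hg
  have hg0 : 0 < g := by positivity
  have hε' : 0 < ε / (2 * (1 + g)) := by positivity
  obtain ⟨C₀, hC₀, hcount⟩ := count_slice d n ℓ hn hℓ hε'
  obtain ⟨C₂, hC₂, hexc⟩ := excess_bound d n ℓ hn hℓ
  have hc1 : C₁ ≤ C₁ + C₀ * C₂ := by nlinarith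
  refine ⟨C₁ + C₀ * C₂, ?_⟩
  intro K _ _ hd H hH Z hZ a b
  have hH0 : 0 < H := by linarith
  set c := C₁ + C₀ * C₂ with hc
  set E : ℝ := H ^ ((ℓ : ℝ) * (n : ℝ) ^ 5 * (d : ℝ) ^ 2 / (3 * κ) + ε) with hE
  have hE0 : 0 < E := Real.rpow_pos_of_pos hH0 _
  have hY : 1 ≤ H ^ g := Real.one_le_rpow hH hg0.le
  -- the bound for one value of `Z`
  have key : ∀ Z : ℝ, 1 ≤ Z →
      {f ∈ Fam K n H | f.coeff n = a ∧ f.coeff (n - 1) = b ∧ (excess ℓ f : ℝ) ≤ Z ∧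
          ¬ Frey ℓ κ c f}.Finite ∧
        ({f ∈ Fam K n H | f.coeff n = a ∧ f.coeff (n - 1) = b ∧ (excess ℓ f : ℝ) ≤ Z ∧
          ¬ Frey ℓ κ c f}.ncard : ℝ) ≤ C₀ * Z * E := by
    intro Z hZ
    obtain ⟨h1, h2⟩ := hcount K hd H hH (H ^ g) hY Z hZ a b
    have hsub : {f ∈ Fam K n H | f.coeff n = a ∧ f.coeff (n - 1) = b ∧ (excess ℓ f : ℝ) ≤ Z ∧
          ¬ Frey ℓ κ c f} ⊆ {f ∈ Fam K n H | f.coeff n = a ∧ f.coeff (n - 1) = b ∧
            (excess ℓ f : ℝ) ≤ Z ∧ |(NumberField.discr K : ℝ)| * cond ℓ f ≤ H ^ g} := by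
      rintro f ⟨hf, h3, h4, h5, h6⟩
      exact ⟨hf, h3, h4, h5, main_vio hκ hc1 hH (hheight K H hH f hf) h6⟩
    refine ⟨h1.subset hsub, ?_⟩
    have h3 : (({f ∈ Fam K n H | f.coeff n = a ∧ f.coeff (n - 1) = b ∧ (excess ℓ f : ℝ) ≤ Z ∧
          ¬ Frey ℓ κ c f}.ncard : ℕ) : ℝ) ≤ _ := Nat.cast_le.2 (Set.ncard_le_ncard hsub h1)
    refine h3.trans (h2.trans ?_)
    rw [mul_assoc (C₀ * Z)]
    refine mul_le_mul_of_nonneg_left ?_ (by positivity)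
    rw [← Real.rpow_mul hH0.le, ← Real.rpow_add hH0, hE]
    refine Real.rpow_le_rpow_of_exponent_le hH ?_
    have h4 : g * ((n : ℝ) ^ 4 * (d : ℝ) ^ 2) = (ℓ : ℝ) * (n : ℝ) ^ 5 * (d : ℝ) ^ 2 / (3 * κ) := by
      rw [hg]
      field_simp
    have h5 : g * (ε / (2 * (1 + g))) + ε / (2 * (1 + g)) = ε / 2 := by
      field_simp
      ring
    rw [mul_add, h4]
    linarith
  refine ⟨(key Z hZ).1, ?_⟩
  rcases le_total Z (H ^ ((d : ℝ) * (2 * n - 2) / qexp ℓ)) with hle | hle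
  · rw [min_eq_left hle]
    refine (key Z hZ).2.trans ?_
    refine mul_le_mul_of_nonneg_right ?_ hE0.le
    refine mul_le_mul_of_nonneg_right ?_ (by linarith)
    nlinarith
  · rw [min_eq_right hle]
    set W : ℝ := H ^ ((d : ℝ) * (2 * n - 2) / qexp ℓ) with hW
    have hn2 : (0 : ℝ) ≤ 2 * n - 2 := by
      have : (3 : ℝ) ≤ n := by exact_mod_cast hn
      linarith
    have hW1 : 1 ≤ W := Real.one_le_rpow hH (by positivity)
    have hZ' : 1 ≤ C₂ * W := by nlinarith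
    obtain ⟨h1, h2⟩ := key (C₂ * W) hZ'
    have hsub : {f ∈ Fam K n H | f.coeff n = a ∧ f.coeff (n - 1) = b ∧ (excess ℓ f : ℝ) ≤ Z ∧
          ¬ Frey ℓ κ c f} ⊆ {f ∈ Fam K n H | f.coeff n = a ∧ f.coeff (n - 1) = b ∧
            (excess ℓ f : ℝ) ≤ C₂ * W ∧ ¬ Frey ℓ κ c f} := by
      rintro f ⟨hf, h3, h4, h5, h6⟩
      refine ⟨hf, h3, h4, ?_, h6⟩
      have h7 := hexc K hd H hH f hf
      have hq : (0 : ℝ) < qexp ℓ := by exact_mod_cast main_qexp hℓ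
      have hex : (0 : ℝ) ≤ excess ℓ f := Nat.cast_nonneg _
      have h8 : (excess ℓ f : ℝ) = ((excess ℓ f : ℝ) ^ qexp ℓ) ^ (1 / (qexp ℓ : ℝ)) := by
        rw [← Real.rpow_natCast, ← Real.rpow_mul hex, mul_one_div_cancel hq.ne', Real.rpow_one]
      have h9 : (C₂ * H ^ ((2 * n - 2) * d)) ^ (1 / (qexp ℓ : ℝ)) ≤ C₂ * W := by
        rw [Real.mul_rpow (by linarith) (by positivity)]
        have h10 : (H ^ ((2 * n - 2) * d)) ^ (1 / (qexp ℓ : ℝ)) = W := by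
          rw [← Real.rpow_natCast, ← Real.rpow_mul hH0.le, hW]
          congr 1
          rw [Nat.cast_mul, Nat.cast_sub (by omega)]
          push_cast
          ring
        rw [h10]
        refine mul_le_mul_of_nonneg_right ?_ (by linarith)
        calc C₂ ^ (1 / (qexp ℓ : ℝ)) ≤ C₂ ^ (1 : ℝ) := by
              refine Real.rpow_le_rpow_of_exponent_le hC₂ ?_
              rw [div_le_one hq]
              exact_mod_cast main_qexp hℓ
          _ = C₂ := Real.rpow_one _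
      rw [h8]
      exact (Real.rpow_le_rpow (by positivity) h7 (by positivity)).trans h9
    have h3 : (({f ∈ Fam K n H | f.coeff n = a ∧ f.coeff (n - 1) = b ∧ (excess ℓ f : ℝ) ≤ Z ∧
          ¬ Frey ℓ κ c f}.ncard : ℕ) : ℝ) ≤ _ := Nat.cast_le.2 (Set.ncard_le_ncard hsub h1)
    refine h3.trans (h2.trans ?_)
    refine mul_le_mul_of_nonneg_right ?_ hE0.le
    rw [← mul_assoc]
    refine mul_le_mul_of_nonneg_right ?_ (by linarith)
    linarith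

end FreySparse
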