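import Pool.Agent.Lib.MP_6babc4_nt.Sp.Defs
import Pool.Agent.Lib.MP_6babc4_nt.AvgBox

/-!
# Module BoxU: elements of a box, uniformly in the field (25 minutes)

PROOF. Let `E` be a number field of degree at most `M`, `H ≥ 1`. To `a ∈ Box E H` attach the
function `σ ↦ (⌊2 Re (σ a)⌋, ⌊2 Im (σ a)⌋)` on the embeddings `σ : E → ℂ`. If `a, a'` have the same
image then `|Re σ(a - a')| < 1/2`, `|Im σ (a-a')| < 1/2`, so `|σ(a - a')| < 1` for all `σ`, so the
norm of `a - a'` is an integer of absolute value `< 1`, and `a = a'`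
(`Algebra.norm_eq_prod_embeddings`, `FreyAvg.absNorm_le_of_box` in `AvgCount.lean`). The values are
integers in `[-2H-1, 2H]`, at most `4H + 2 ≤ 6H` of them, so there are at most `(6H)^(2M)`
functions.
-/

open NumberField Module FreyAvg

namespace FreySparse

private lemma boxU_norm_le {E : Type} [Field E] [NumberField E] {α : 𝓞 E} {Y : ℝ}
    (hα : α ∈ Box E Y) :
    ((Ideal.absNorm (Ideal.span {α}) : ℕ) : ℝ) ≤ Y ^ finrank ℚ E := by
  rw [Ideal.absNorm_span_singleton]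
  have h1 : ((Algebra.norm ℤ α : ℤ) : ℂ) = ∏ σ : E →+* ℂ, σ (algebraMap (𝓞 E) E α) := by
    have h2 := Algebra.norm_eq_prod_embeddings ℚ ℂ (algebraMap (𝓞 E) E α)
    have h3 : ∏ σ : E →ₐ[ℚ] ℂ, σ (algebraMap (𝓞 E) E α) =
        ∏ σ : E →+* ℂ, σ (algebraMap (𝓞 E) E α) := by
      refine (Fintype.prod_equiv (RingHom.equivRatAlgHom E ℂ) _ _ ?_).symm
      intro σ
      rfl
    rw [← h3, ← h2]
    have h4 : (Algebra.norm ℚ (algebraMap (𝓞 E) E α) : ℚ) = (Algebra.norm ℤ α : ℤ) :=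
      (Algebra.coe_norm_int α).symm
    rw [h4]
    simp
  have h5 : (((Algebra.norm ℤ α).natAbs : ℕ) : ℝ) = ‖((Algebra.norm ℤ α : ℤ) : ℂ)‖ := by
    rw [Nat.cast_natAbs, Complex.norm_intCast]
    simp
  rw [h5, h1, norm_prod]
  refine (Finset.prod_le_prod (fun σ _ => norm_nonneg _) fun σ _ => hα σ).trans ?_
  rw [Finset.prod_const, Finset.card_univ, card_embeddings]

private lemma boxU_floor {x y : ℝ} (h : ⌊2 * x⌋ = ⌊2 * y⌋) : |x - y| < 1 / 2 := by
  have h1 := Int.abs_sub_lt_one_of_floor_eq_floor h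
  rw [abs_lt] at h1 ⊢
  constructor <;> linarith [h1.1, h1.2]

theorem box_card (M : ℕ) : ∃ C : ℝ, 1 ≤ C ∧
    ∀ (E : Type) [Field E] [NumberField E], finrank ℚ E ≤ M → ∀ H : ℝ, 1 ≤ H →
      (Box E H).Finite ∧ ((Box E H).ncard : ℝ) ≤ C * H ^ (2 * M) := by
  classical
  refine ⟨6 ^ (2 * M), one_le_pow₀ (by norm_num), ?_⟩
  intro E _ _ hE H hH
  refine ⟨box_finite H, ?_⟩
  set R : Finset ℤ := Finset.Icc ⌊-(2 * H)⌋ ⌊2 * H⌋ with hR
  set V : Finset ((E →+* ℂ) → ℤ × ℤ) := Fintype.piFinset fun _ => R ×ˢ R with hV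
  have h1 : (Box E H).ncard ≤ (↑V : Set ((E →+* ℂ) → ℤ × ℤ)).ncard := by
    refine Set.ncard_le_ncard_of_injOn
      (fun a σ => (⌊2 * (σ (algebraMap (𝓞 E) E a)).re⌋, ⌊2 * (σ (algebraMap (𝓞 E) E a)).im⌋))
      ?_ ?_ (Finset.finite_toSet _)
    · intro a ha
      rw [Finset.mem_coe, hV, Fintype.mem_piFinset]
      intro σ
      have hn : ‖σ (algebraMap (𝓞 E) E a)‖ ≤ H := ha σ
      have hre := (Complex.abs_re_le_norm (σ (algebraMap (𝓞 E) E a))).trans hn
      have him := (Complex.abs_im_le_norm (σ (algebraMap (𝓞 E) E a))).trans hn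
      rw [abs_le] at hre him
      rw [Finset.mem_product]
      refine ⟨?_, ?_⟩
      · rw [hR, Finset.mem_Icc]
        exact ⟨Int.floor_le_floor (by linarith [hre.1]), Int.floor_le_floor (by linarith [hre.2])⟩
      · rw [hR, Finset.mem_Icc]
        exact ⟨Int.floor_le_floor (by linarith [him.1]), Int.floor_le_floor (by linarith [him.2])⟩
    · intro a ha b hb hab
      have hbox : a - b ∈ Box E (3 / 4) := by
        intro σ
        have h2 := congrFun hab σ
        simp only [Prod.mk.injEq] at h2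
        have h3 := boxU_floor h2.1
        have h4 := boxU_floor h2.2
        set z := σ (algebraMap (𝓞 E) E (a - b)) with hz
        have hzr : z.re = (σ (algebraMap (𝓞 E) E a)).re - (σ (algebraMap (𝓞 E) E b)).re := by
          rw [hz, map_sub, map_sub, Complex.sub_re]
        have hzi : z.im = (σ (algebraMap (𝓞 E) E a)).im - (σ (algebraMap (𝓞 E) E b)).im := by
          rw [hz, map_sub, map_sub, Complex.sub_im]
        rw [← hzr] at h3
        rw [← hzi] at h4
        have h5 : ‖z‖ ^ 2 = z.re * z.re + z.im * z.im := by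
          rw [← Complex.normSq_eq_norm_sq, Complex.normSq_apply]
        rw [abs_lt] at h3 h4
        have h6 : ‖z‖ ^ 2 ≤ (3 / 4) ^ 2 := by
          rw [h5]
          nlinarith [h3.1, h3.2, h4.1, h4.2]
        exact (sq_le_sq₀ (norm_nonneg _) (by norm_num)).1 h6
      have h7 := boxU_norm_le hbox
      have hpos : 0 < finrank ℚ E := finrank_pos
      have h8 : ((3 : ℝ) / 4) ^ finrank ℚ E < 1 := pow_lt_one₀ (by norm_num) (by norm_num) hpos.ne'
      have h9 : Ideal.absNorm (Ideal.span {a - b}) = 0 := by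
        have h10 : ((Ideal.absNorm (Ideal.span {a - b}) : ℕ) : ℝ) < 1 := lt_of_le_of_lt h7 h8
        have h11 : Ideal.absNorm (Ideal.span {a - b}) < 1 := by exact_mod_cast h10
        omega
      rw [Ideal.absNorm_eq_zero_iff, Ideal.span_singleton_eq_bot] at h9
      exact sub_eq_zero.1 h9
  have hRc : (R.card : ℝ) ≤ 6 * H := by
    rw [hR, Int.card_Icc]
    have h2 : (0 : ℤ) ≤ ⌊2 * H⌋ + 1 - ⌊-(2 * H)⌋ := by
      have h3 : ⌊-(2 * H)⌋ ≤ ⌊2 * H⌋ := Int.floor_le_floor (by linarith)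
      omega
    have h4 : (((⌊2 * H⌋ + 1 - ⌊-(2 * H)⌋).toNat : ℕ) : ℝ) =
        ((⌊2 * H⌋ + 1 - ⌊-(2 * H)⌋ : ℤ) : ℝ) := by
      have h5 := Int.toNat_of_nonneg h2
      exact_mod_cast h5
    rw [h4]
    push_cast
    have h6 := Int.floor_le (2 * H)
    have h7 := Int.lt_floor_add_one (-(2 * H))
    linarith
  have h2 : ((↑V : Set ((E →+* ℂ) → ℤ × ℤ)).ncard : ℝ) = (R.card : ℝ) ^ (2 * finrank ℚ E) := by
    rw [Set.ncard_coe_finset, hV, Fintype.card_piFinset]
    simp only [Finset.prod_const, Finset.card_univ, Finset.card_product]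
    rw [card_embeddings]
    push_cast
    rw [pow_mul, sq]
  have h3 : ((Box E H).ncard : ℝ) ≤ (R.card : ℝ) ^ (2 * finrank ℚ E) := by
    rw [← h2]; exact_mod_cast h1
  calc ((Box E H).ncard : ℝ) ≤ (R.card : ℝ) ^ (2 * finrank ℚ E) := h3
    _ ≤ (6 * H) ^ (2 * finrank ℚ E) := by gcongr
    _ ≤ (6 * H) ^ (2 * M) := pow_le_pow_right₀ (by linarith) (by omega)
    _ = 6 ^ (2 * M) * H ^ (2 * M) := mul_pow _ _ _

end FreySparse
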