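import Pool.Agent.Lib.MP_6babc4_nt.Sp.Dsc

/-!
# Module Loc: the discriminant is highly divisible at the primes of `Comp` (50 minutes)

PROOF. Let `v` be a prime with `Comp ℓ f v`: `ℓ ∉ v`, `a ∉ v`, `f` modulo `v` is not separable, `v` is
not bad; so `v` is unramified in `L` and `Tree ℓ f v` holds. Let `P` be above `v` (`exists_above`).
All the orders `ord P (x - y)` of differences of distinct roots are `≥ 0` (`ord_nonneg_of_lc`).
(1) `S := ∑_{(x, y), x ≠ y} ord P (x - y) ≥ q` (`n = f.natDegree ≥ 3`; `q = 12` for `ℓ = 2`, `2 ℓ`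
otherwise).
  Case A: all these orders are `≥ 1`. If `ℓ ∤ n` then `ℓ` divides each order (second condition of
  `Tree`), so `S ≥ n (n-1) ℓ ≥ 6 ℓ`. If `ℓ ∣ n` then `S ≥ n (n-1)`, and for `ℓ = 2` `n ≥ 4` is even, so
  `S ≥ 12`; for `ℓ ≥ 3` `n ≥ ℓ` and `S ≥ ℓ (ℓ - 1) ≥ 2 ℓ`.
  Case B: some order is `0`. By the first condition of `Tree` all the orders are divisible by `ℓ`. By
  `exists_pos_ord` there are `x ≠ y` with `m = ord P (x - y) ≥ 1`, so `m ≥ ℓ` and `S ≥ 2 m ≥ 2 ℓ`. If
  `ℓ = 2` let `D = {z | z = x ∨ m ≤ ord P (z - x)}`, which contains `x` and `y`; by the ultrametric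
  inequality any two distinct elements of `D` have `ord P (z - z') ≥ m ≥ 2`; `D` does not have `n`
  elements (otherwise all the orders are `≥ m`), so by the third condition of `Tree` it has an odd
  number of elements, at least `3`: `S ≥ 6 * 2`.
(2) By `discr_prod` and `ord P a = 0`: `ord P (discr f) = S ≥ q`, so `P^q` divides `discr f` in `𝓞 L`
(`pow_dvd_iff`).
(3) Let `k` be the exponent of `v` in `(discr f)` (`discr_ne_zero`), `(discr f) = v^k I`, `v ∤ I`. Then
`P ∤ I 𝓞 L` (`mem_iff_of_above`) and `P^2 ∤ v 𝓞 L`, so the exponent of `P` in `(discr f) 𝓞 L` is `k`, so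
`q ≤ k` and `v^q` divides `(discr f)`.
-/

open Polynomial NumberField IsDedekindDomain Module

namespace FreySparse

/-- Combinatorial part: the sum of a nonnegative function over ordered pairs of distinct indices is
at least `q` times the bound on a set of pairs. -/
private theorem loc_sum_ge {n : ℕ} (o : Fin n → Fin n → ℤ) (h0 : ∀ i j, i ≠ j → 0 ≤ o i j)
    (T : Finset (Fin n × Fin n)) (hT : ∀ p ∈ T, p.1 ≠ p.2) (c : ℤ)
    (hc : ∀ p ∈ T, c ≤ o p.1 p.2) :
    (T.card : ℤ) * c ≤ ∑ i, ∑ j ∈ Finset.univ.erase i, o i j := by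
  classical
  have h1 : ∑ i, ∑ j ∈ Finset.univ.erase i, o i j =
      ∑ p ∈ (Finset.univ : Finset (Fin n × Fin n)).filter (fun p => p.1 ≠ p.2), o p.1 p.2 := by
    rw [Finset.sum_filter, Fintype.sum_prod_type]
    refine Finset.sum_congr rfl fun i _ => ?_
    rw [← Finset.sum_filter]
    refine Finset.sum_congr ?_ fun _ _ => rfl
    ext j
    simp [eq_comm]
  rw [h1]
  have h2 : T ⊆ (Finset.univ : Finset (Fin n × Fin n)).filter (fun p => p.1 ≠ p.2) := by
    intro p hp
    simp only [Finset.mem_filter, Finset.mem_univ, true_and]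
    exact hT p hp
  calc (T.card : ℤ) * c = ∑ _p ∈ T, c := by simp
    _ ≤ ∑ p ∈ T, o p.1 p.2 := Finset.sum_le_sum hc
    _ ≤ _ := by
        refine Finset.sum_le_sum_of_subset_of_nonneg h2 fun p hp _ => ?_
        simp only [Finset.mem_filter, Finset.mem_univ, true_and] at hp
        exact h0 _ _ hp

private theorem loc_sum_all {n : ℕ} (o : Fin n → Fin n → ℤ) (c : ℤ)
    (hc : ∀ i j, i ≠ j → c ≤ o i j) :
    (n : ℤ) * ((n : ℤ) - 1) * c ≤ ∑ i, ∑ j ∈ Finset.univ.erase i, o i j := by
  classical
  have h1 : ∀ i : Fin n, ((n : ℤ) - 1) * c ≤ ∑ j ∈ Finset.univ.erase i, o i j := by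
    intro i
    have hn : 1 ≤ n := by have := i.2; omega
    calc ((n : ℤ) - 1) * c = ∑ _j ∈ Finset.univ.erase i, c := by
          simp only [Finset.sum_const, Finset.card_erase_of_mem (Finset.mem_univ i),
            Finset.card_univ, Fintype.card_fin, nsmul_eq_mul]
          push_cast [Nat.cast_sub hn]
          ring
      _ ≤ _ := Finset.sum_le_sum fun j hj => hc i j (Finset.ne_of_mem_erase hj).symm
  calc (n : ℤ) * ((n : ℤ) - 1) * c = ∑ _i : Fin n, ((n : ℤ) - 1) * c := by
        simp only [Finset.sum_const, Finset.card_univ, Fintype.card_fin, nsmul_eq_mul]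
        ring
    _ ≤ _ := Finset.sum_le_sum fun i _ => h1 i

/-- Part (1) of the proof, pure combinatorics of ultrametric distances. -/
private theorem loc_comb {ℓ n : ℕ} (hℓ : ℓ.Prime) (hn : 3 ≤ n) (o : Fin n → Fin n → ℤ)
    (h0 : ∀ i j, i ≠ j → 0 ≤ o i j) (hs : ∀ i j, o i j = o j i)
    (hu : ∀ i j k, i ≠ j → j ≠ k → i ≠ k → min (o i j) (o j k) ≤ o i k)
    (hp : ∃ i j, i ≠ j ∧ 1 ≤ o i j)
    (t1 : ∀ i j i' j', i ≠ j → i' ≠ j' → (ℓ : ℤ) ∣ o i j - o i' j')
    (t2 : ∀ i j, i ≠ j → (ℓ : ℤ) ∣ n * o i j)
    (t3 : ∀ i, ∀ k : ℤ, ¬ ℓ ∣ (Finset.univ.filter fun j => j = i ∨ k ≤ o j i).card ∨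
      (Finset.univ.filter fun j => j = i ∨ k ≤ o j i).card = n) :
    (qexp ℓ : ℤ) ≤ ∑ i, ∑ j ∈ Finset.univ.erase i, o i j := by
  classical
  have hℓ2 : 2 ≤ ℓ := hℓ.two_le
  by_cases hA : ∀ i j, i ≠ j → 1 ≤ o i j
  · by_cases hd : ℓ ∣ n
    · have h1 := loc_sum_all o 1 hA
      refine le_trans ?_ h1
      by_cases h2 : ℓ = 2
      · subst h2
        have h4 : 4 ≤ n := by obtain ⟨c, hc⟩ := hd; omega
        have : (4 : ℤ) ≤ n := by exact_mod_cast h4
        simp only [qexp, if_true]
        push_cast
        nlinarith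
      · have h3 : 3 ≤ ℓ := by omega
        have h4 : ℓ ≤ n := Nat.le_of_dvd (by omega) hd
        have h5 : (ℓ : ℤ) ≤ n := by exact_mod_cast h4
        have h6 : (3 : ℤ) ≤ ℓ := by exact_mod_cast h3
        simp only [qexp, if_neg h2]
        push_cast
        nlinarith
    · have h1 : ∀ i j, i ≠ j → (ℓ : ℤ) ≤ o i j := by
        intro i j hij
        have h2 := t2 i j hij
        have h3 : (ℓ : ℤ) ∣ o i j := by
          have hpr : Prime (ℓ : ℤ) := Nat.prime_iff_prime_int.mp hℓ
          rcases hpr.dvd_or_dvd h2 with h | h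
          · exact absurd (by exact_mod_cast h) hd
          · exact h
        exact Int.le_of_dvd (by have := hA i j hij; omega) h3
      refine le_trans ?_ (loc_sum_all o ℓ h1)
      have h5 : (3 : ℤ) ≤ n := by exact_mod_cast hn
      have h6 : (2 : ℤ) ≤ ℓ := by exact_mod_cast hℓ2
      have h7 : (6 : ℤ) ≤ (n : ℤ) * ((n : ℤ) - 1) := by nlinarith
      have h8 : (qexp ℓ : ℤ) ≤ 6 * ℓ := by
        unfold qexp
        split_ifs with h
        · subst h; norm_num
        · push_cast; nlinarith
      refine le_trans h8 ?_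
      nlinarith
  · push Not at hA
    obtain ⟨i0, j0, hij0, hlt⟩ := hA
    have hz : o i0 j0 = 0 := le_antisymm (by omega) (h0 _ _ hij0)
    have hdv : ∀ i j, i ≠ j → (ℓ : ℤ) ∣ o i j := by
      intro i j hij
      have := t1 i j i0 j0 hij hij0
      rwa [hz, sub_zero] at this
    obtain ⟨i1, j1, hij1, hm⟩ := hp
    have hmℓ : (ℓ : ℤ) ≤ o i1 j1 := Int.le_of_dvd (by omega) (hdv _ _ hij1)
    by_cases h2 : ℓ = 2
    · subst h2
      set m := o i1 j1 with hmdef
      set D := Finset.univ.filter fun j => j = i1 ∨ m ≤ o j i1 with hD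
      have hmemi : i1 ∈ D := by simp [hD]
      have hmemj : j1 ∈ D := by
        simp only [hD, Finset.mem_filter, Finset.mem_univ, true_and]
        right
        rw [hs]
      have hDn : D.card ≠ n := by
        intro h
        have hDu : D = Finset.univ := by
          apply Finset.eq_univ_of_card
          rw [h, Fintype.card_fin]
        have hall : ∀ j, j ≠ i1 → m ≤ o j i1 := by
          intro j hj
          have : j ∈ D := by rw [hDu]; exact Finset.mem_univ _
          simp only [hD, Finset.mem_filter, Finset.mem_univ, true_and] at this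
          exact this.resolve_left hj
        have : m ≤ o i0 j0 := by
          by_cases ha : i0 = i1
          · subst ha
            rw [hs]
            exact hall _ (Ne.symm hij0)
          · by_cases hb : j0 = i1
            · subst hb
              exact hall _ ha
            · refine le_trans (le_min (hall _ ha) ?_) (hu i0 i1 j0 ha (Ne.symm hb) hij0)
              rw [hs]
              exact hall _ hb
        push_cast at hmℓ
        omega
      have hodd : ¬ 2 ∣ D.card := (t3 i1 m).resolve_right hDn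
      have hcard2 : 2 ≤ D.card := by
        have : ({i1, j1} : Finset (Fin n)) ⊆ D := by
          intro z hz'
          simp only [Finset.mem_insert, Finset.mem_singleton] at hz'
          rcases hz' with h | h
          · rw [h]; exact hmemi
          · rw [h]; exact hmemj
        have h3 := Finset.card_le_card this
        rwa [Finset.card_pair hij1] at h3
      have hcard3 : 3 ≤ D.card := by omega
      obtain ⟨k, hkD, hki, hkj⟩ : ∃ k ∈ D, k ≠ i1 ∧ k ≠ j1 := by
        by_contra hcon
        push Not at hcon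
        have : D ⊆ {i1, j1} := by
          intro z hz'
          simp only [Finset.mem_insert, Finset.mem_singleton]
          by_cases h : z = i1
          · exact Or.inl h
          · exact Or.inr (hcon z hz' h)
        have h3 := Finset.card_le_card this
        rw [Finset.card_pair hij1] at h3
        omega
      have hk1 : m ≤ o k i1 := by
        simp only [hD, Finset.mem_filter, Finset.mem_univ, true_and] at hkD
        exact hkD.resolve_left hki
      have hk2 : m ≤ o k j1 :=
        le_trans (le_min hk1 (le_of_eq hmdef)) (hu k i1 j1 hki hij1 hkj)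
      have hm2 : (2 : ℤ) ≤ m := by exact_mod_cast hmℓ
      let T : Finset (Fin n × Fin n) :=
        {(i1, j1), (j1, i1), (k, i1), (i1, k), (k, j1), (j1, k)}
      have hT6 : T.card = 6 := by
        have e1 : i1 ≠ j1 := hij1
        have e2 : k ≠ i1 := hki
        have e3 : k ≠ j1 := hkj
        simp only [T]
        rw [Finset.card_insert_of_notMem, Finset.card_insert_of_notMem,
          Finset.card_insert_of_notMem, Finset.card_insert_of_notMem, Finset.card_insert_of_notMem,
          Finset.card_singleton]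
        all_goals
          simp only [Finset.mem_insert, Finset.mem_singleton, Prod.mk.injEq, not_or, not_and]
        · exact fun h => absurd h e3
        · exact ⟨fun h => absurd h.symm e2, fun h => absurd h e1⟩
        · exact ⟨fun h => absurd h e2, fun _ h => absurd h e1, fun h => absurd h e3⟩
        · exact ⟨fun h => absurd h.symm e3, fun h => absurd h.symm e1,
            fun h => absurd h.symm e3, fun _ h => absurd h.symm e2⟩
        · exact ⟨fun h => absurd h e1, fun h => absurd h.symm e2, fun _ h => absurd h.symm e3,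
            fun h => absurd h.symm e2, fun h => absurd h e1⟩
      have h12 := loc_sum_ge o h0 T (by
        intro p hp'
        simp only [T, Finset.mem_insert, Finset.mem_singleton] at hp'
        rcases hp' with h | h | h | h | h | h <;> subst h
        · exact hij1
        · exact Ne.symm hij1
        · exact hki
        · exact Ne.symm hki
        · exact hkj
        · exact Ne.symm hkj) 2 (by
        intro p hp'
        simp only [T, Finset.mem_insert, Finset.mem_singleton] at hp'
        rcases hp' with h | h | h | h | h | h <;> subst h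
        · exact hm2
        · show (2 : ℤ) ≤ o j1 i1
          rw [hs]; exact hm2
        · exact le_trans hm2 hk1
        · show (2 : ℤ) ≤ o i1 k
          rw [hs]; exact le_trans hm2 hk1
        · exact le_trans hm2 hk2
        · show (2 : ℤ) ≤ o j1 k
          rw [hs]; exact le_trans hm2 hk2)
      rw [hT6] at h12
      refine le_trans ?_ h12
      simp [qexp]
    · let T : Finset (Fin n × Fin n) := {(i1, j1), (j1, i1)}
      have hT2 : T.card = 2 := by
        simp only [T]
        rw [Finset.card_insert_of_notMem, Finset.card_singleton]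
        simp only [Finset.mem_singleton, Prod.mk.injEq, not_and]
        exact fun h => absurd h hij1
      have h12 := loc_sum_ge o h0 T (by
        intro p hp'
        simp only [T, Finset.mem_insert, Finset.mem_singleton] at hp'
        rcases hp' with h | h <;> subst h
        · exact hij1
        · exact Ne.symm hij1) ℓ (by
        intro p hp'
        simp only [T, Finset.mem_insert, Finset.mem_singleton] at hp'
        rcases hp' with h | h <;> subst h
        · exact hmℓ
        · show (ℓ : ℤ) ≤ o j1 i1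
          rw [hs]; exact hmℓ)
      rw [hT2] at h12
      refine le_trans ?_ h12
      simp [qexp, h2]

/-- Part (3): descent of the divisibility from `L` to `K` at an unramified prime. -/
private theorem loc_descent {K L : Type*} [Field K] [NumberField K] [Field L] [NumberField L]
    [Algebra K L] {v : HeightOneSpectrum (𝓞 K)} {P : HeightOneSpectrum (𝓞 L)} (hP : Above v P)
    (hram : ¬ P.asIdeal ^ 2 ∣ v.asIdeal.map (algebraMap (𝓞 K) (𝓞 L))) {d : 𝓞 K} (hd : d ≠ 0)
    {q : ℕ} (hq : P.asIdeal ^ q ∣ Ideal.span {algebraMap (𝓞 K) (𝓞 L) d}) :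
    v.asIdeal ^ q ∣ Ideal.span {d} := by
  have hd0 : Ideal.span {d} ≠ (⊥ : Ideal (𝓞 K)) := by
    rw [Ne, Ideal.span_singleton_eq_bot]; exact hd
  obtain ⟨k, I, hI, hk⟩ := WfDvdMonoid.max_power_factor (x := v.asIdeal) hd0
    v.irreducible
  have hqk : q ≤ k := by
    by_contra hlt
    push Not at hlt
    have hmap : Ideal.span {algebraMap (𝓞 K) (𝓞 L) d} =
        (v.asIdeal.map (algebraMap (𝓞 K) (𝓞 L))) ^ k * I.map (algebraMap (𝓞 K) (𝓞 L)) := by
      rw [← Ideal.map_pow, ← Ideal.map_mul, ← hk, Ideal.map_span, Set.image_singleton]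
    obtain ⟨J, hJ⟩ := hP
    have hPJ : ¬ P.asIdeal ∣ J := by
      intro h
      apply hram
      rw [hJ, pow_two]
      exact mul_dvd_mul_left _ h
    have hPI : ¬ P.asIdeal ∣ I.map (algebraMap (𝓞 K) (𝓞 L)) := by
      intro h
      apply hI
      rw [Ideal.dvd_iff_le] at h ⊢
      intro β hβ
      exact (mem_iff_of_above ⟨J, hJ⟩ β).mp (h (Ideal.mem_map_of_mem _ hβ))
    have hprime : Prime P.asIdeal := P.prime
    have h1 : P.asIdeal ^ (k + 1) ∣ P.asIdeal ^ k * (J ^ k * I.map (algebraMap (𝓞 K) (𝓞 L))) := by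
      refine dvd_trans (pow_dvd_pow _ (show k + 1 ≤ q from hlt)) ?_
      rw [hmap, hJ, mul_pow, mul_assoc] at hq
      exact hq
    rw [pow_succ] at h1
    have h2 : P.asIdeal ∣ J ^ k * I.map (algebraMap (𝓞 K) (𝓞 L)) :=
      (mul_dvd_mul_iff_left (pow_ne_zero k hprime.ne_zero)).mp h1
    rcases hprime.dvd_or_dvd h2 with h | h
    · exact hPJ (hprime.dvd_of_dvd_pow h)
    · exact hPI h
  rw [hk]
  exact dvd_mul_of_dvd_left (pow_dvd_pow _ hqk) _

theorem pow_dvd_discr {K : Type} [Field K] [NumberField K] {ℓ : ℕ} (hℓ : ℓ.Prime)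
    {f : (𝓞 K)[X]} (hn : 3 ≤ f.natDegree) (hf : (f.map (algebraMap (𝓞 K) K)).Separable)
    {v : HeightOneSpectrum (𝓞 K)} (hv : Comp ℓ f v) :
    v.asIdeal ^ qexp ℓ ∣ Ideal.span {Polynomial.discr f} := by
  classical
  obtain ⟨hℓv, hav, hnsep, hnbad⟩ := hv
  have hunram : ¬ Ramified f v := fun h => hnbad ⟨hℓv, Or.inl h⟩
  have htree : Tree ℓ f v := by
    by_contra h
    exact hnbad ⟨hℓv, Or.inr ⟨hav, h⟩⟩
  obtain ⟨P, hP⟩ := exists_above (Spl f) v
  have hram : ¬ P.asIdeal ^ 2 ∣ v.asIdeal.map (algebraMap (𝓞 K) (𝓞 (Spl f))) :=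
    fun h => hunram ⟨P, h⟩
  obtain ⟨x, hx, hr⟩ := exists_enum hf
  have hmem : ∀ i, x i ∈ rts f := fun i => hr ▸ Set.mem_range_self i
  have hne : ∀ i j, i ≠ j → x i ≠ x j := fun i j h h' => h (hx h')
  have hsub : ∀ i j, i ≠ j → x i - x j ≠ 0 := fun i j h => sub_ne_zero.mpr (hne i j h)
  obtain ⟨t1, t2, t3⟩ := htree P hP
  have hs : ∀ i j, ord P (x i - x j) = ord P (x j - x i) := by
    intro i j
    rw [← neg_sub, ord_neg]
  -- the combinatorial part
  have hS : (qexp ℓ : ℤ) ≤ ∑ i, ∑ j ∈ Finset.univ.erase i, ord P (x i - x j) := by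
    apply loc_comb hℓ hn (fun i j => ord P (x i - x j))
    · intro i j _
      exact ord_nonneg_of_lc hf hP hav (hmem i) (hmem j)
    · exact hs
    · intro i j k hij hjk hik
      have h := le_ord_add P (hsub i j hij) (hsub j k hjk)
        (by rw [sub_add_sub_cancel]; exact hsub i k hik)
      rwa [sub_add_sub_cancel] at h
    · obtain ⟨y, hy, z, hz, hyz, h1⟩ := exists_pos_ord hf hP hav hnsep
      rw [← hr] at hy hz
      obtain ⟨i, rfl⟩ := hy
      obtain ⟨j, rfl⟩ := hz
      exact ⟨i, j, fun h => hyz (by rw [h]), h1⟩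
    · intro i j i' j' h h'
      exact t1 _ (hmem i) _ (hmem j) _ (hmem i') _ (hmem j') (hne _ _ h) (hne _ _ h')
    · intro i j h
      exact t2 _ (hmem i) _ (hmem j) (hne _ _ h)
    · intro i k
      have hcard : {z ∈ rts f | z = x i ∨ k ≤ ord P (z - x i)}.ncard =
          (Finset.univ.filter fun j => j = i ∨ k ≤ ord P (x j - x i)).card := by
        have hset : {z ∈ rts f | z = x i ∨ k ≤ ord P (z - x i)} =
            x '' ((Finset.univ.filter fun j => j = i ∨ k ≤ ord P (x j - x i) :
              Finset (Fin f.natDegree)) : Set (Fin f.natDegree)) := by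
          ext z
          simp only [Set.mem_setOf_eq, Set.mem_image, Finset.coe_filter, Finset.mem_univ, true_and]
          constructor
          · rintro ⟨hz, h⟩
            rw [← hr] at hz
            obtain ⟨j, rfl⟩ := hz
            refine ⟨j, ?_, rfl⟩
            rcases h with h | h
            · exact Or.inl (hx h)
            · exact Or.inr h
          · rintro ⟨j, h, rfl⟩
            refine ⟨hmem j, ?_⟩
            rcases h with h | h
            · exact Or.inl (by rw [h])
            · exact Or.inr h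
        rw [hset, Set.ncard_image_of_injective _ hx, Set.ncard_coe_finset]
      have h := t3 (x i) (hmem i) k
      rw [hcard] at h
      exact h
  -- the order of the discriminant
  have hd0 : Polynomial.discr f ≠ 0 := discr_ne_zero (by omega) hf
  have ha0 : f.leadingCoeff ≠ 0 := by
    intro h
    exact hav (h ▸ Submodule.zero_mem _)
  have hinj : Function.Injective (algebraMap (𝓞 K) (𝓞 (Spl f))) :=
    FaithfulSMul.algebraMap_injective _ _
  have htow : ∀ β : 𝓞 K, algebraMap (𝓞 (Spl f)) (Spl f) (algebraMap (𝓞 K) (𝓞 (Spl f)) β) =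
      algebraMap K (Spl f) (algebraMap (𝓞 K) K β) := by
    intro β
    rw [← IsScalarTower.algebraMap_apply, ← IsScalarTower.algebraMap_apply]
  have hoa : ord P (algebraMap K (Spl f) (algebraMap (𝓞 K) K f.leadingCoeff)) = 0 := by
    rw [← htow]
    apply le_antisymm
    · by_contra h
      push Not at h
      have h1 := (ord_pos_iff P (α := algebraMap (𝓞 K) (𝓞 (Spl f)) f.leadingCoeff)
        (by rw [Ne, map_eq_zero_iff _ hinj]; exact ha0)).mp (by omega)
      exact hav ((mem_iff_of_above hP _).mp h1)
    · exact ord_nonneg P _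
  obtain ⟨u, hu, hdisc⟩ := discr_prod (by omega) hf x hx hr
  have hane : algebraMap K (Spl f) (algebraMap (𝓞 K) K f.leadingCoeff) ≠ 0 := by
    rw [← htow]
    intro h
    apply ha0
    apply hinj
    rw [map_zero]
    exact (map_eq_zero_iff _ (FaithfulSMul.algebraMap_injective (𝓞 (Spl f)) (Spl f))).mp h
  have hprod0 : ∏ i, ∏ j ∈ Finset.univ.erase i, (x i - x j) ≠ 0 := by
    refine Finset.prod_ne_zero_iff.mpr fun i _ => Finset.prod_ne_zero_iff.mpr fun j hj => ?_
    exact hsub i j (Finset.ne_of_mem_erase hj).symm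
  have hordp : ord P (∏ i, ∏ j ∈ Finset.univ.erase i, (x i - x j)) =
      ∑ i, ∑ j ∈ Finset.univ.erase i, ord P (x i - x j) := by
    rw [ord_prod]
    · refine Finset.sum_congr rfl fun i _ => ?_
      rw [ord_prod]
      intro j hj
      exact hsub i j (Finset.ne_of_mem_erase hj).symm
    · intro i _
      exact Finset.prod_ne_zero_iff.mpr fun j hj => hsub i j (Finset.ne_of_mem_erase hj).symm
  have hou : ord P ((u : ℤ) : Spl f) = 0 := by
    rcases hu with h | h
    · rw [h, Int.cast_one, ord_one]
    · rw [h, Int.cast_neg, Int.cast_one, ord_neg, ord_one]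
  have hu0 : ((u : ℤ) : Spl f) ≠ 0 := by
    rcases hu with h | h <;> rw [h] <;> simp
  have hordd : ord P (algebraMap K (Spl f) (algebraMap (𝓞 K) K (Polynomial.discr f))) =
      ∑ i, ∑ j ∈ Finset.univ.erase i, ord P (x i - x j) := by
    rw [hdisc, ord_mul P (mul_ne_zero hu0 (pow_ne_zero _ hane)) hprod0,
      ord_mul P hu0 (pow_ne_zero _ hane), ord_pow P hane, hou, hoa, hordp]
    ring
  have hq : P.asIdeal ^ qexp ℓ ∣
      Ideal.span {algebraMap (𝓞 K) (𝓞 (Spl f)) (Polynomial.discr f)} := by
    rw [pow_dvd_iff P (by rw [Ne, map_eq_zero_iff _ hinj]; exact hd0), htow, hordd]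
    exact hS
  exact loc_descent hP hram hd0 hq

end FreySparse
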