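import Pool.Agent.Lib.MP_6babc4_nt.AvgCount
import Pool.Agent.Lib.MP_6babc4_nt.Sp.Loc
import Pool.Agent.Lib.MP_6babc4_nt.Sp.Fin

/-!
# Module Exc: the bound for the excess (25 minutes)

PROOF. The ideals `v^q`, `v` in `Comp`, are pairwise coprime and divide `(discr f)` (`pow_dvd_discr`), so
their product divides it (`Finset.prod_dvd_of_coprime` or `Finset.prod_dvd_of_isRelPrime`), and taking
norms `excess^q` divides, so is at most, `N(discr f)` (`excess_eq`, `discr_ne_zero`), which is at most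
`(C₀ H^(2n-2))^d` (`discr_bound` and `FreyAvg.absNorm_le_of_box`). So `C = C₀^d`.
-/

open Polynomial NumberField IsDedekindDomain Module

namespace FreySparse

theorem excess_bound (d n ℓ : ℕ) (hn : 3 ≤ n) (hℓ : ℓ.Prime) : ∃ C : ℝ, 1 ≤ C ∧
    ∀ (K : Type) [Field K] [NumberField K], finrank ℚ K = d → ∀ H : ℝ, 1 ≤ H →
      ∀ f ∈ Fam K n H, (excess ℓ f : ℝ) ^ qexp ℓ ≤ C * H ^ ((2 * n - 2) * d) := by
  obtain ⟨C₀, hC₀, hb⟩ := discr_bound n (by omega)
  refine ⟨C₀ ^ d, one_le_pow₀ hC₀, ?_⟩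
  intro K _ _ hd H hH f hf
  obtain ⟨hfn, hfc, hfs⟩ := hf
  have hdvd : (∏ v ∈ (comp_finite ℓ hfs).toFinset, v.asIdeal ^ qexp ℓ) ∣
      Ideal.span {Polynomial.discr f} := by
    refine Finset.prod_dvd_of_coprime ?_ ?_
    · intro v _ w _ hvw
      have hv : v.asIdeal.IsMaximal := v.isMaximal
      have hw : w.asIdeal.IsMaximal := w.isMaximal
      have hne : v.asIdeal ≠ w.asIdeal := fun h => hvw (HeightOneSpectrum.ext h)
      exact (Ideal.isCoprime_of_isMaximal hne).pow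
    · intro v hv
      exact pow_dvd_discr hℓ (by omega) hfs ((comp_finite ℓ hfs).mem_toFinset.1 hv)
  have h1 : (excess ℓ f) ^ qexp ℓ ∣ Ideal.absNorm (Ideal.span {Polynomial.discr f}) := by
    rw [excess_eq ℓ hfs, ← Finset.prod_pow]
    have h2 := map_dvd Ideal.absNorm hdvd
    rw [map_prod] at h2
    simpa only [map_pow] using h2
  have h3 : 0 < Ideal.absNorm (Ideal.span {Polynomial.discr f}) := by
    rw [Nat.pos_iff_ne_zero, Ne, Ideal.absNorm_eq_zero_iff, Ideal.span_singleton_eq_bot]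
    exact discr_ne_zero (by omega) hfs
  have h4 := Nat.le_of_dvd h3 h1
  have h5 := FreyAvg.absNorm_le_of_box (hb K H hH f hfn hfc)
  have h6 : ((excess ℓ f : ℝ)) ^ qexp ℓ ≤
      ((Ideal.absNorm (Ideal.span {Polynomial.discr f}) : ℕ) : ℝ) := by
    exact_mod_cast h4
  refine h6.trans (h5.trans (le_of_eq ?_))
  rw [hd, mul_pow, ← pow_mul]

end FreySparse
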