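import Mathlib

/-!
# Module Inj: a polynomial is determined by its two first coefficients and the differences of its
roots (15 minutes)

PROOF. The coefficient of `X^(n-1)` in `a ∏ (X - z_i)` is `-a ∑ z_i`. Let `i₀ : Fin n`. From the
hypothesis (`a ≠ 0`) `z_i - z_{i₀} = z'_i - z'_{i₀}`, so `z'_i = z_i + t` with `t = z'_{i₀} - z_{i₀}`
for all `i`; the equality of the coefficients gives `n t = 0`, `t = 0`.
-/

open Polynomial

namespace FreySparse

private theorem inj_coeff {n : ℕ} (hn : 1 ≤ n) {a : ℂ} {z : Fin n → ℂ} {F : ℂ[X]}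
    (hF : F = C a * ∏ i, (X - C (z i))) : F.coeff (n - 1) = -(a * ∑ i, z i) := by
  have h := Polynomial.multiset_prod_X_sub_C_coeff_card_pred
    ((Finset.univ : Finset (Fin n)).val.map z) (by simp; omega)
  have h2 : (((Finset.univ : Finset (Fin n)).val.map z).map fun x => X - C x).prod =
      ∏ i, (X - C (z i)) := by
    rw [Multiset.map_map]; rfl
  have h3 : ((Finset.univ : Finset (Fin n)).val.map z).sum = ∑ i, z i := rfl
  have h4 : Multiset.card ((Finset.univ : Finset (Fin n)).val.map z) = n := by simp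
  rw [h2, h3, h4] at h
  rw [hF, coeff_C_mul, h]
  ring

theorem eq_of_diff {n : ℕ} (hn : 1 ≤ n) {a : ℂ} (ha : a ≠ 0) {z z' : Fin n → ℂ} {F F' : ℂ[X]}
    (hF : F = C a * ∏ i, (X - C (z i))) (hF' : F' = C a * ∏ i, (X - C (z' i)))
    (hc : F.coeff (n - 1) = F'.coeff (n - 1))
    (hd : ∀ i j, a * (z i - z j) = a * (z' i - z' j)) : F = F' := by
  have h1 := inj_coeff hn hF
  have h2 := inj_coeff hn hF'
  rw [h1, h2] at hc
  have h3 : ∑ i, z i = ∑ i, z' i := by
    have := neg_injective hc
    exact mul_left_cancel₀ ha this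
  have i₀ : Fin n := ⟨0, hn⟩
  have h4 : ∀ i, z' i = z i + (z' i₀ - z i₀) := by
    intro i
    have := mul_left_cancel₀ ha (hd i i₀)
    linear_combination -this
  have h5 : (n : ℂ) * (z' i₀ - z i₀) = 0 := by
    have h6 : ∑ i, z' i = ∑ i, (z i + (z' i₀ - z i₀)) := Finset.sum_congr rfl fun i _ => h4 i
    rw [Finset.sum_add_distrib, ← h3] at h6
    simp only [Finset.sum_const, Finset.card_univ, Fintype.card_fin, nsmul_eq_mul] at h6
    linear_combination -h6
  have h6 : z' i₀ - z i₀ = 0 := by
    rcases mul_eq_zero.mp h5 with h | h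
    · exact absurd h (by exact_mod_cast (by omega : n ≠ 0))
    · exact h
  have h7 : z' = z := by
    funext i
    rw [h4 i, h6, add_zero]
  rw [hF, hF', h7]

end FreySparse
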