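import Pool.Agent.Lib.MP_6babc4_nt.Sp.Par
import Pool.Agent.Lib.MP_6babc4_nt.Sp.Inj
import Pool.Agent.Lib.MP_6babc4_nt.Sp.Exc
import Pool.Agent.Lib.MP_6babc4_nt.AvgCount

/-!
# Module Cnt: the count (60 minutes)

PROOF. Fix `K` (degree `d ≥ 1`), `τ₀ : K → ℂ`, `H, Y, Z ≥ 1`, `a`, `b`; let `S` be the set to count
(finite, because the box is finite: `FreyAvg.box_finite`). If `S` is nonempty then `a ≠ 0` (degree
`n ≥ 3`) and `a ∈ Box K H`, so `1 ≤ N(a) ≤ H^d` (`FreyAvg.absNorm_le_of_box`). To `f ∈ S` attach, with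
`z, Θ` from `param`, the data `s = cond ℓ f`, `t = excess ℓ f`, `Θ`, `δ = (τ₀ a (z_i - z_j))_{i, j}`,
or only `δ_j = τ₀ a (z_{i₀} - z_j)`, `j : Fin n`, with a fixed index `i₀`.
* `1 ≤ s ≤ Y` (`|discr K| ≥ 1`): at most `Y` values.
* `1 ≤ t ≤ Z`: at most `Z` values; and `t ≤ t^q ≤ C H^((2n-2) d)` (`excess_bound`, `q ≥ 1`).
* `Θ_i ∈ AlgInt (n d) (C₀ Y^(n/2))`: by `algInt_card` at most `C Y^((n/2) nd (nd+1))` values for each
  `i`, so at most `C Y^((n²/2) nd (nd + 1))` values of `Θ`;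
  `(n²/2) nd (nd+1) = (n⁴d² + n³ d)/2 ≤ (2/3) n⁴ d²` (`n ≥ 3`, `d ≥ 1`), and `1 + (2/3) n⁴d² ≤ n⁴ d²`.
* for given `s, t, Θ`: `δ_j ∈ DSet Θ (4H) w`, `w = ℓ N(a) s t ≤ ℓ H^d Y C H^((2n-2)d)`, so by
  `dset_count` (with `n`, `N = n d`, `ε₀ = ε / (n (2 n d + 1))`) at most
  `(C (4 H w)^ε₀)^n ≤ C H^ε Y^ε` values of the tuple `δ` (`4 H w ≤ C H^(1 + d + (2n-2)d) Y`, exponent
  of `H`: `≤ 2 n d + 1`... choose `ε₀` small enough).
* `f` is determined by `δ` (and `a, b`): `eq_of_diff` for `F = f.map (τ₀ ...)` (the coefficient of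
  index `n - 1` is `τ₀ b`; `τ₀` is injective on `𝓞 K`, so `Polynomial.map_injective`; the differences
  `a (z_i - z_j)` are determined by the `δ_j`).
So `|S| ≤ Y Z (C Y^(..)) (C H^ε Y^ε)`. For the counting: the image of `S` under the injective map
`f ↦ (s, t, Θ, δ)` is contained in a finite union/`Finset.sigma`; or use
`Set.ncard_le_...`/`Finset.card_le_mul_card_image` fibrewise over the finite set of the `(s, t, Θ)`.
-/

open Polynomial NumberField IsDedekindDomain Module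

namespace FreySparse

/-- Finiteness of the family. -/
private lemma Cnt_fam_finite {K : Type} [Field K] [NumberField K] (n : ℕ) (H : ℝ) :
    (Fam K n H).Finite := by
  have hfin : (Set.pi Set.univ fun _ : Fin (n + 1) => FreyAvg.Box K H).Finite :=
    Set.Finite.pi fun _ => FreyAvg.box_finite H
  refine Set.Finite.of_injOn (f := fun f : (𝓞 K)[X] => fun i : Fin (n + 1) => f.coeff i)
    ?_ ?_ hfin
  · intro f hf i _
    exact hf.2.1 i
  · intro f hf g hg h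
    ext i
    by_cases hi : i < n + 1
    · exact congrArg (algebraMap (𝓞 K) K) (congrFun h ⟨i, hi⟩)
    · rw [coeff_eq_zero_of_natDegree_lt (by rw [hf.1]; omega),
        coeff_eq_zero_of_natDegree_lt (by rw [hg.1]; omega)]

/-- The fibrewise count. -/
private lemma Cnt_fib {α : Type*} {n : ℕ} {S : Set α} (hS : S.Finite)
    (hne : S.Nonempty) (s t : α → ℕ)
    (Θ δ : α → Fin n → ℂ) (Y Z : ℝ) (hY : 0 ≤ Y) (hZ : 0 ≤ Z) (A : Set ℂ) (hA : A.Finite)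
    (D : ℕ → ℕ → (Fin n → ℂ) → Set ℂ) (b : ℝ)
    (hs : ∀ f ∈ S, 1 ≤ s f ∧ (s f : ℝ) ≤ Y) (ht : ∀ f ∈ S, 1 ≤ t f ∧ (t f : ℝ) ≤ Z)
    (hΘ : ∀ f ∈ S, ∀ i, Θ f i ∈ A)
    (hD : ∀ f ∈ S, (D (s f) (t f) (Θ f)).Finite ∧ ((D (s f) (t f) (Θ f)).ncard : ℝ) ≤ b)
    (hδ : ∀ f ∈ S, ∀ i, δ f i ∈ D (s f) (t f) (Θ f))
    (hinj : ∀ f ∈ S, ∀ g ∈ S, δ f = δ g → f = g) :
    (S.ncard : ℝ) ≤ Y * Z * (A.ncard : ℝ) ^ n * b ^ n := by
  classical
  obtain ⟨f₀, hf₀⟩ := hne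
  have hb : 0 ≤ b := le_trans (Nat.cast_nonneg _) (hD f₀ hf₀).2
  set T := hS.toFinset with hT
  let P : Finset (ℕ × ℕ × (Fin n → ℂ)) :=
    Finset.Icc 1 ⌊Y⌋₊ ×ˢ (Finset.Icc 1 ⌊Z⌋₊ ×ˢ Fintype.piFinset fun _ : Fin n => hA.toFinset)
  have hmaps : ∀ f ∈ T, (s f, t f, Θ f) ∈ P := by
    intro f hf
    have hf' : f ∈ S := by simpa [hT] using hf
    simp only [P, Finset.mem_product, Finset.mem_Icc, Fintype.mem_piFinset,
      Set.Finite.mem_toFinset]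
    exact ⟨⟨(hs f hf').1, Nat.le_floor (hs f hf').2⟩, ⟨(ht f hf').1, Nat.le_floor (ht f hf').2⟩,
      hΘ f hf'⟩
  have hfibre : ∀ p ∈ P, (T.filter fun f => (s f, t f, Θ f) = p).card ≤ ⌊b ^ n⌋₊ := by
    rintro ⟨s₀, t₀, Θ₀⟩ -
    apply Nat.le_floor
    rcases (T.filter fun f => (s f, t f, Θ f) = (s₀, t₀, Θ₀)).eq_empty_or_nonempty with he | ⟨f₁, hf₁⟩
    · rw [he, Finset.card_empty, Nat.cast_zero]; positivity
    have hf₁' : f₁ ∈ S ∧ s f₁ = s₀ ∧ t f₁ = t₀ ∧ Θ f₁ = Θ₀ := by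
      simpa [hT, Prod.ext_iff] using hf₁
    obtain ⟨h1, rfl, rfl, rfl⟩ := hf₁'
    obtain ⟨hfi, hca⟩ := hD f₁ h1
    have hmem : ∀ f, f ∈ (T.filter fun f => (s f, t f, Θ f) = (s f₁, t f₁, Θ f₁) : Finset α) →
        f ∈ S ∧ s f = s f₁ ∧ t f = t f₁ ∧ Θ f = Θ f₁ := by
      intro f hf
      obtain ⟨h2, h3⟩ := Finset.mem_filter.mp hf
      simp only [Prod.mk.injEq] at h3
      exact ⟨by simpa [hT] using h2, h3.1, h3.2.1, h3.2.2⟩
    have hle : (T.filter fun f => (s f, t f, Θ f) = (s f₁, t f₁, Θ f₁)).card ≤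
        (Fintype.piFinset fun _ : Fin n => hfi.toFinset).card := by
      refine Finset.card_le_card_of_injOn δ ?_ ?_
      · intro f hf
        have hf' := hmem f hf
        obtain ⟨h2, e1, e2, e3⟩ := hf'
        simp only [Finset.mem_coe, Fintype.mem_piFinset, Set.Finite.mem_toFinset]
        intro i
        have := hδ f h2 i
        rwa [e1, e2, e3] at this
      · intro f hf g hg h
        have hf' : f ∈ S := by
          exact (hmem f hf).1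
        have hg' : g ∈ S := by
          exact (hmem g hg).1
        exact hinj f hf' g hg' h
    have hcard : (Fintype.piFinset fun _ : Fin n => hfi.toFinset).card =
        (D (s f₁) (t f₁) (Θ f₁)).ncard ^ n := by
      rw [Fintype.card_piFinset, Finset.prod_const, Finset.card_univ, Fintype.card_fin,
        Set.ncard_eq_toFinset_card _ hfi]
    calc (((T.filter fun f => (s f, t f, Θ f) = (s f₁, t f₁, Θ f₁)).card : ℕ) : ℝ)
        ≤ (((D (s f₁) (t f₁) (Θ f₁)).ncard ^ n : ℕ) : ℝ) := by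
          rw [← hcard]; exact_mod_cast hle
      _ = ((D (s f₁) (t f₁) (Θ f₁)).ncard : ℝ) ^ n := by push_cast; rfl
      _ ≤ b ^ n := pow_le_pow_left₀ (Nat.cast_nonneg _) hca n
  have hmain := Finset.card_le_mul_card_image_of_maps_to hmaps _ hfibre
  have hP : (P.card : ℝ) ≤ Y * Z * (A.ncard : ℝ) ^ n := by
    simp only [P, Finset.card_product, Nat.card_Icc, Nat.add_sub_cancel, Fintype.card_piFinset,
      Finset.prod_const, Finset.card_univ, Fintype.card_fin]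
    rw [← Set.ncard_eq_toFinset_card _ hA]
    push_cast
    rw [← mul_assoc]
    gcongr
    · exact Nat.floor_le hY
    · exact Nat.floor_le hZ
  calc (S.ncard : ℝ) = (T.card : ℝ) := by rw [Set.ncard_eq_toFinset_card _ hS]
    _ ≤ ((⌊b ^ n⌋₊ * P.card : ℕ) : ℝ) := by exact_mod_cast hmain
    _ = (⌊b ^ n⌋₊ : ℝ) * P.card := by push_cast; rfl
    _ ≤ b ^ n * (Y * Z * (A.ncard : ℝ) ^ n) := by
        gcongr
        exact Nat.floor_le (by positivity)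
    _ = Y * Z * (A.ncard : ℝ) ^ n * b ^ n := by ring

theorem count_slice (d n ℓ : ℕ) (hn : 3 ≤ n) (hℓ : ℓ.Prime) {ε : ℝ} (hε : 0 < ε) :
    ∃ C₀ : ℝ, 1 ≤ C₀ ∧ ∀ (K : Type) [Field K] [NumberField K], finrank ℚ K = d →
      ∀ H : ℝ, 1 ≤ H → ∀ Y : ℝ, 1 ≤ Y → ∀ Z : ℝ, 1 ≤ Z → ∀ a b : 𝓞 K,
        {f ∈ Fam K n H | f.coeff n = a ∧ f.coeff (n - 1) = b ∧ (excess ℓ f : ℝ) ≤ Z ∧
          |(NumberField.discr K : ℝ)| * cond ℓ f ≤ Y}.Finite ∧
        ({f ∈ Fam K n H | f.coeff n = a ∧ f.coeff (n - 1) = b ∧ (excess ℓ f : ℝ) ≤ Z ∧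
          |(NumberField.discr K : ℝ)| * cond ℓ f ≤ Y}.ncard : ℝ) ≤
            C₀ * Z * Y ^ ((n : ℝ) ^ 4 * (d : ℝ) ^ 2 + ε) * H ^ ε := by
  rcases Nat.eq_zero_or_pos d with hd0 | hd
  · refine ⟨1, le_rfl, ?_⟩
    intro K _ _ hK
    have := finrank_pos (R := ℚ) (M := K)
    omega
  have hn1 : 1 ≤ n := by omega
  obtain ⟨CP, hCP, hpar⟩ := param d n ℓ hn1 hℓ
  obtain ⟨CE, hCE, hexc⟩ := excess_bound d n ℓ hn hℓ
  obtain ⟨CA, hCA, halg⟩ := algInt_card (n * d)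
  set ε₀ : ℝ := ε / (2 * n ^ 2 * d) with hε₀
  have hnR : (3 : ℝ) ≤ n := by exact_mod_cast hn
  have hdR : (1 : ℝ) ≤ d := by exact_mod_cast hd
  have hε₀pos : 0 < ε₀ := by rw [hε₀]; positivity
  obtain ⟨CD, hCD, hds⟩ := dset_count n (n * d) hε₀pos
  have hℓR : (1 : ℝ) ≤ ℓ := by exact_mod_cast hℓ.one_lt.le
  set K₁ : ℝ := CA * CP ^ (n * d * (n * d + 1)) with hK₁
  set K₂ : ℝ := CD * (4 * ℓ * CE) ^ ε₀ with hK₂
  have hK₁1 : 1 ≤ K₁ := by
    rw [hK₁]; exact one_le_mul_of_one_le_of_one_le hCA (one_le_pow₀ hCP)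
  have h4 : (1 : ℝ) ≤ 4 * ℓ * CE := by nlinarith
  have hK₂1 : 1 ≤ K₂ := by
    rw [hK₂]; exact one_le_mul_of_one_le_of_one_le hCD (Real.one_le_rpow h4 hε₀pos.le)
  refine ⟨K₁ ^ n * K₂ ^ n, one_le_mul_of_one_le_of_one_le (one_le_pow₀ hK₁1) (one_le_pow₀ hK₂1), ?_⟩
  intro K _ _ hK H hH Y hY Z hZ a b
  set S : Set (𝓞 K)[X] := {f ∈ Fam K n H | f.coeff n = a ∧ f.coeff (n - 1) = b ∧
    (excess ℓ f : ℝ) ≤ Z ∧ |(NumberField.discr K : ℝ)| * cond ℓ f ≤ Y} with hSdef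
  have hSfin : S.Finite := (Cnt_fam_finite n H).subset fun f hf => hf.1
  refine ⟨hSfin, ?_⟩
  rcases S.eq_empty_or_nonempty with hSe | ⟨f₀, hf₀⟩
  · rw [hSe, Set.ncard_empty, Nat.cast_zero]; positivity
  obtain ⟨τ₀⟩ : Nonempty (K →+* ℂ) := inferInstance
  have ha0 : a ≠ 0 := by
    intro h0
    have h1 := hf₀.2.1
    have h2 := hf₀.1.1
    rw [h0, ← h2] at h1
    have h3 : f₀ = 0 := leadingCoeff_eq_zero.mp h1
    rw [h3, natDegree_zero] at h2
    omega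
  have haB : a ∈ FreyAvg.Box K H := by
    rw [← hf₀.2.1]; exact hf₀.1.2.1 n
  have hdisc : (1 : ℝ) ≤ |(NumberField.discr K : ℝ)| := by
    have h := Int.one_le_abs (NumberField.discr_ne_zero K)
    exact_mod_cast h
  -- bounds for the conductor and the excess
  have hs : ∀ f ∈ S, 1 ≤ cond ℓ f ∧ (cond ℓ f : ℝ) ≤ Y := by
    intro f hf
    refine ⟨cond_pos ℓ f, ?_⟩
    have h := hf.2.2.2.2
    have h0 : (0 : ℝ) ≤ cond ℓ f := Nat.cast_nonneg _
    nlinarith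
  have ht : ∀ f ∈ S, 1 ≤ excess ℓ f ∧ (excess ℓ f : ℝ) ≤ Z :=
    fun f hf => ⟨excess_pos ℓ f, hf.2.2.2.1⟩
  have ht2 : ∀ f ∈ S, (excess ℓ f : ℝ) ≤ CE * H ^ ((2 * n - 2) * d) := by
    intro f hf
    have h1 : (1 : ℝ) ≤ excess ℓ f := by exact_mod_cast excess_pos ℓ f
    have hq : qexp ℓ ≠ 0 := by
      unfold qexp
      split_ifs
      · norm_num
      · have := hℓ.pos; omega
    exact (le_self_pow₀ h1 hq).trans (hexc K hK H hH f hf.1)
  have hNa : (Ideal.absNorm (Ideal.span {a}) : ℝ) ≤ H ^ d := by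
    have := FreyAvg.absNorm_le_of_box haB
    rwa [hK] at this
  have hNa1 : 1 ≤ Ideal.absNorm (Ideal.span {a}) := by
    rw [Nat.one_le_iff_ne_zero, ne_eq, Ideal.absNorm_eq_zero_iff, Ideal.span_singleton_eq_bot]
    exact ha0
  -- the parametrisation
  have hp : ∀ f ∈ S, ∃ z Θ : Fin n → ℂ,
      f.map (τ₀.comp (algebraMap (𝓞 K) K)) =
        C (τ₀ (algebraMap (𝓞 K) K (f.coeff n))) * ∏ i, (X - C (z i)) ∧
      (∀ i, Θ i ∈ AlgInt (n * d) (CP * Y ^ ((n : ℝ) / 2))) ∧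
      ∀ i j, τ₀ (algebraMap (𝓞 K) K (f.coeff n)) * (z i - z j) ∈
        DSet Θ (4 * H)
          (ℓ * Ideal.absNorm (Ideal.span {f.coeff n}) * cond ℓ f * excess ℓ f) :=
    fun f hf => hpar K hK τ₀ H hH f hf.1 Y hY hf.2.2.2.2
  choose! z Θ hfac hΘ hδ using hp
  let i₀ : Fin n := ⟨0, by omega⟩
  have hBge : (1 : ℝ) ≤ CP * Y ^ ((n : ℝ) / 2) :=
    one_le_mul_of_one_le_of_one_le hCP (Real.one_le_rpow hY (by positivity))
  obtain ⟨hAfin, hAcard⟩ := halg _ hBge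
  have hwb : ∀ f ∈ S, (4 * H) * ((ℓ * Ideal.absNorm (Ideal.span {a}) * cond ℓ f * excess ℓ f : ℕ) : ℝ)
      ≤ (4 * ℓ * CE) * H ^ (2 * n * d) * Y := by
    intro f hf
    push_cast
    have h1 := (hs f hf).2
    have h2 := ht2 f hf
    have e1 : H * H ^ d * H ^ ((2 * n - 2) * d) ≤ H ^ (2 * n * d) := by
      rw [← pow_succ', ← pow_add]
      refine pow_le_pow_right₀ hH ?_
      obtain ⟨m, rfl⟩ : ∃ m, n = m + 1 := ⟨n - 1, by omega⟩
      have : 2 * (m + 1) - 2 = 2 * m := by omega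
      rw [this]
      nlinarith
    calc (4 * H) * ((ℓ : ℝ) * (Ideal.absNorm (Ideal.span {a}) : ℝ) * cond ℓ f * excess ℓ f)
        ≤ (4 * H) * ((ℓ : ℝ) * H ^ d * Y * (CE * H ^ ((2 * n - 2) * d))) := by
          gcongr
      _ = (4 * ℓ * CE) * (H * H ^ d * H ^ ((2 * n - 2) * d)) * Y := by ring
      _ ≤ (4 * ℓ * CE) * H ^ (2 * n * d) * Y := by gcongr
  have hcount := Cnt_fib hSfin ⟨f₀, hf₀⟩ (fun f => cond ℓ f) (fun f => excess ℓ f) Θ
    (fun f j => τ₀ (algebraMap (𝓞 K) K (f.coeff n)) * (z f i₀ - z f j)) Y Z (by linarith)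
    (by linarith) (AlgInt (n * d) (CP * Y ^ ((n : ℝ) / 2))) hAfin
    (fun s t Θ => DSet Θ (4 * H) (ℓ * Ideal.absNorm (Ideal.span {a}) * s * t))
    (CD * ((4 * ℓ * CE) * H ^ (2 * n * d) * Y) ^ ε₀) hs ht hΘ ?_ ?_ ?_
  · refine hcount.trans ?_
    have hH0 : (0 : ℝ) < H := by linarith
    have hY0 : (0 : ℝ) < Y := by linarith
    have hZ0 : (0 : ℝ) < Z := by linarith
    have e1 : ((AlgInt (n * d) (CP * Y ^ ((n : ℝ) / 2))).ncard : ℝ) ≤
        K₁ * Y ^ (((n : ℝ) / 2) * (n * d * (n * d + 1) : ℕ)) := by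
      refine hAcard.trans (le_of_eq ?_)
      rw [mul_pow, Real.rpow_mul hY0.le, Real.rpow_natCast, hK₁]
      ring
    have e2 : CD * ((4 * ℓ * CE) * H ^ (2 * n * d) * Y) ^ ε₀ =
        K₂ * (H ^ ((2 * n * d : ℕ) * ε₀) * Y ^ ε₀) := by
      rw [Real.mul_rpow (by positivity) hY0.le, Real.mul_rpow (by positivity) (by positivity),
        ← Real.rpow_natCast H (2 * n * d), ← Real.rpow_mul hH0.le, hK₂]
      ring
    rw [e2]
    calc Y * Z * ((AlgInt (n * d) (CP * Y ^ ((n : ℝ) / 2))).ncard : ℝ) ^ n *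
          (K₂ * (H ^ ((2 * n * d : ℕ) * ε₀) * Y ^ ε₀)) ^ n
        ≤ Y * Z * (K₁ * Y ^ (((n : ℝ) / 2) * (n * d * (n * d + 1) : ℕ))) ^ n *
          (K₂ * (H ^ ((2 * n * d : ℕ) * ε₀) * Y ^ ε₀)) ^ n := by gcongr
      _ = K₁ ^ n * K₂ ^ n * Z * (Y ^ (1 : ℝ) * Y ^ ((((n : ℝ) / 2) * (n * d * (n * d + 1) : ℕ)) * n)
            * Y ^ (ε₀ * n)) * H ^ (((2 * n * d : ℕ) * ε₀) * n) := by
          have q1 : (Y ^ (((n : ℝ) / 2) * (n * d * (n * d + 1) : ℕ))) ^ n =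
              Y ^ ((((n : ℝ) / 2) * (n * d * (n * d + 1) : ℕ)) * n) := by
            exact (Real.rpow_mul_natCast hY0.le _ n).symm
          have q2 : (H ^ ((2 * n * d : ℕ) * ε₀)) ^ n = H ^ (((2 * n * d : ℕ) * ε₀) * n) := by
            rw [Real.rpow_mul_natCast hH0.le]
          have q3 : (Y ^ ε₀) ^ n = Y ^ (ε₀ * n) := by
            rw [Real.rpow_mul_natCast hY0.le]
          rw [mul_pow K₁, mul_pow K₂, mul_pow (H ^ _), q1, q2, q3, Real.rpow_one]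
          ring
      _ = K₁ ^ n * K₂ ^ n * Z * Y ^ (1 + (((n : ℝ) / 2) * (n * d * (n * d + 1) : ℕ)) * n + ε₀ * n)
            * H ^ (((2 * n * d : ℕ) * ε₀) * n) := by
          rw [Real.rpow_add hY0, Real.rpow_add hY0]
      _ ≤ K₁ ^ n * K₂ ^ n * Z * Y ^ ((n : ℝ) ^ 4 * (d : ℝ) ^ 2 + ε) * H ^ ε := by
          have x1 : 1 + (((n : ℝ) / 2) * (n * d * (n * d + 1) : ℕ)) * n + ε₀ * n ≤
              (n : ℝ) ^ 4 * (d : ℝ) ^ 2 + ε := by
            push_cast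
            have y1 : ε₀ * n ≤ ε := by
              rw [hε₀, div_mul_eq_mul_div, div_le_iff₀ (by positivity)]
              have : (n : ℝ) ≤ 2 * n ^ 2 * d := by nlinarith
              nlinarith
            have y2 : 2 + (n : ℝ) ^ 3 * d ≤ (n : ℝ) ^ 4 * (d : ℝ) ^ 2 := by
              have z1 : (27 : ℝ) ≤ (n : ℝ) ^ 3 := by nlinarith [sq_nonneg ((n : ℝ) - 3)]
              have z2 : (27 : ℝ) ≤ (n : ℝ) ^ 3 * d := by nlinarith
              have z3 : (3 : ℝ) ≤ n * d := by nlinarith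
              have z4 : (n : ℝ) ^ 4 * (d : ℝ) ^ 2 = ((n : ℝ) ^ 3 * d) * (n * d) := by ring
              rw [z4]
              nlinarith
            nlinarith
          have x2 : (((2 * n * d : ℕ) : ℝ) * ε₀) * n ≤ ε := by
            push_cast
            rw [hε₀]
            field_simp
            exact le_rfl
          gcongr
  · intro f hf
    have hB := hds (Θ f) (fun i => ⟨(hΘ f hf i).1, (hΘ f hf i).2.1⟩) (4 * H) (by linarith)
      (ℓ * Ideal.absNorm (Ideal.span {a}) * cond ℓ f * excess ℓ f)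
      (Nat.one_le_iff_ne_zero.mpr (by
        have h1 := hℓ.pos
        have h2 := cond_pos ℓ f
        have h3 := excess_pos ℓ f
        positivity))
    refine ⟨hB.1, hB.2.trans ?_⟩
    exact mul_le_mul_of_nonneg_left (Real.rpow_le_rpow (by positivity) (hwb f hf) hε₀pos.le)
      (by linarith)
  · intro f hf i
    have h := hδ f hf i₀ i
    rw [hf.2.1] at h ⊢
    exact h
  · intro f hf g hg h
    have hfc : f.coeff n = a := hf.2.1
    have hgc : g.coeff n = a := hg.2.1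
    have hτa : τ₀ (algebraMap (𝓞 K) K a) ≠ 0 := by
      rw [ne_eq, map_eq_zero]
      intro h0
      exact ha0 (FaithfulSMul.algebraMap_injective (𝓞 K) K (by rw [h0, map_zero]))
    have hF := hfac f hf
    have hG := hfac g hg
    rw [hfc] at hF
    rw [hgc] at hG
    have key := eq_of_diff hn1 hτa hF hG ?_ ?_
    · have hinj : Function.Injective (τ₀.comp (algebraMap (𝓞 K) K)) :=
        τ₀.injective.comp (FaithfulSMul.algebraMap_injective (𝓞 K) K)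
      exact Polynomial.map_injective _ hinj key
    · rw [coeff_map, coeff_map, hf.2.2.1, hg.2.2.1]
    · intro i j
      have h1 := congrFun h i
      have h2 := congrFun h j
      simp only [hfc, hgc] at h1 h2
      have e1 : τ₀ (algebraMap (𝓞 K) K a) * (z f i - z f j) =
        τ₀ (algebraMap (𝓞 K) K a) * (z f i₀ - z f j) - τ₀ (algebraMap (𝓞 K) K a) * (z f i₀ - z f i) := by
          ring
      have e2 : τ₀ (algebraMap (𝓞 K) K a) * (z g i - z g j) =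
        τ₀ (algebraMap (𝓞 K) K a) * (z g i₀ - z g j) - τ₀ (algebraMap (𝓞 K) K a) * (z g i₀ - z g i) := by
          ring
      rw [e1, e2, h1, h2]

end FreySparse
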