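import Pool.Agent.Lib.MP_6babc4_nt.Sp.Dff
import Pool.Agent.Lib.MP_6babc4_nt.Sp.Bas

/-!
# Module DCo: the same in `ℂ` (40 minutes)

PROOF. Let `E = IntermediateField.adjoin ℚ (Set.range Θ)`, an intermediate field of `ℂ / ℚ`, finite
of degree at most `M = N^n` (the adjunction of `n` elements of degree at most `N`; e.g. by
`IntermediateField.finiteDimensional_adjoin` and induction with
`IntermediateField.adjoin_union` / `IntermediateField.finrank_sup_le`; any bound depending only on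
`n` and `N` will do). `E` is a number field. The elements `δ ≠ 0` of `DSet Θ X w` correspond to
elements `δ'` of `𝓞 E` (`δ ∈ E` integral over `ℤ`); for every `τ : E → ℂ` the number `τ δ'` is a root
of `minpoly ℚ δ` (`minpoly ℚ (δ : ℂ) = minpoly ℚ δ'`), so `|τ δ'| ≤ X`, `δ' ∈ Box E X`; and
`β = w^k / δ ∈ E` is integral, so `δ' ∣ w^k` in `𝓞 E`. So `diff_count` gives at most `C (X w)^ε`
elements `δ ≠ 0`, and one more for `δ = 0` (`(X w)^ε ≥ 1`).
-/

open Polynomial NumberField Module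

namespace FreySparse

/-- The algebraic integers `δ` of the field `ℚ(Θ)` generated by the `Θ i`, all of whose conjugates
have absolute value at most `X`, which are `0` or divide a power of `w`. -/
def DSet {n : ℕ} (Θ : Fin n → ℂ) (X : ℝ) (w : ℕ) : Set ℂ :=
  {δ | δ ∈ IntermediateField.adjoin ℚ (Set.range Θ) ∧ IsIntegral ℤ δ ∧
    (∀ z : ℂ, aeval z (minpoly ℚ δ) = 0 → ‖z‖ ≤ X) ∧
    (δ = 0 ∨ ∃ k : ℕ, ∃ β : ℂ, IsIntegral ℤ β ∧ δ * β = (w : ℂ) ^ k)}

private lemma dco_deg (N : ℕ) (S : Finset ℂ) :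
    (∀ x ∈ S, IsIntegral ℚ x ∧ (minpoly ℚ x).natDegree ≤ N) →
      finrank ℚ (IntermediateField.adjoin ℚ (S : Set ℂ)) ≤ (N + 1) ^ S.card := by
  classical
  induction S using Finset.induction_on with
  | empty =>
    intro _
    rw [Finset.coe_empty, IntermediateField.adjoin_empty, Finset.card_empty, pow_zero,
      IntermediateField.finrank_bot]
  | insert a s ha ih =>
    intro h
    have h1 := ih (fun x hx => h x (Finset.mem_insert_of_mem hx))
    obtain ⟨h2, h3⟩ := h a (Finset.mem_insert_self a s)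
    rw [Finset.coe_insert, Set.insert_eq, IntermediateField.adjoin_union,
      Finset.card_insert_of_notMem ha, pow_succ, mul_comm]
    refine (IntermediateField.finrank_sup_le _ _).trans ?_
    refine Nat.mul_le_mul ?_ h1
    rw [IntermediateField.adjoin.finrank h2]
    omega

theorem dset_count (n N : ℕ) {ε : ℝ} (hε : 0 < ε) : ∃ C : ℝ, 1 ≤ C ∧
    ∀ Θ : Fin n → ℂ, (∀ i, IsIntegral ℤ (Θ i) ∧ (minpoly ℚ (Θ i)).natDegree ≤ N) →
      ∀ X : ℝ, 1 ≤ X → ∀ w : ℕ, 1 ≤ w →
        (DSet Θ X w).Finite ∧ ((DSet Θ X w).ncard : ℝ) ≤ C * (X * w) ^ ε := by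
  classical
  obtain ⟨C, hC, hmain⟩ := diff_count ((N + 1) ^ n) hε
  refine ⟨C + 1, by linarith, fun Θ hΘ X hX w hw => ?_⟩
  have hΘ' : ∀ x ∈ Finset.univ.image Θ, IsIntegral ℚ x ∧ (minpoly ℚ x).natDegree ≤ N := by
    intro x hx
    obtain ⟨i, -, rfl⟩ := Finset.mem_image.1 hx
    exact ⟨(hΘ i).1.tower_top, (hΘ i).2⟩
  have hS : ((Finset.univ.image Θ : Finset ℂ) : Set ℂ) = Set.range Θ := by
    rw [Finset.coe_image, Finset.coe_univ, Set.image_univ]
  haveI hfd : FiniteDimensional ℚ (IntermediateField.adjoin ℚ (Set.range Θ)) := by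
    refine IntermediateField.finiteDimensional_adjoin ?_
    rintro x ⟨i, rfl⟩
    exact (hΘ i).1.tower_top
  haveI hnf : NumberField (IntermediateField.adjoin ℚ (Set.range Θ)) :=
    { to_charZero := inferInstance, to_finiteDimensional := hfd }
  have hdeg : finrank ℚ (IntermediateField.adjoin ℚ (Set.range Θ)) ≤ (N + 1) ^ n := by
    have h1 := dco_deg N _ hΘ'
    rw [hS] at h1
    refine h1.trans (Nat.pow_le_pow_right (Nat.succ_pos N) ?_)
    exact (Finset.card_image_le).trans (by simp)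
  obtain ⟨hfin, hcard⟩ := hmain (IntermediateField.adjoin ℚ (Set.range Θ)) hdeg X hX w hw
  set E := IntermediateField.adjoin ℚ (Set.range Θ) with hE
  set D : Set (𝓞 E) := {δ : 𝓞 E | δ ≠ 0 ∧ δ ∈ FreyAvg.Box E X ∧ ∃ k : ℕ, δ ∣ (w : 𝓞 E) ^ k}
    with hD
  set φ : 𝓞 E → ℂ := fun a => algebraMap E ℂ (algebraMap (𝓞 E) E a) with hφ
  have hinj : Function.Injective (algebraMap E ℂ) := (algebraMap E ℂ).injective
  have hsub : DSet Θ X w ⊆ insert 0 (φ '' D) := by
    rintro δ ⟨hδE, hδi, hδX, hδ⟩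
    rcases hδ with rfl | ⟨k, β, hβi, hβ⟩
    · exact Set.mem_insert _ _
    by_cases hδ0 : δ = 0
    · rw [hδ0]; exact Set.mem_insert _ _
    refine Set.mem_insert_of_mem _ ?_
    set δE : E := ⟨δ, hδE⟩ with hδEdef
    have hδEv : algebraMap E ℂ δE = δ := rfl
    have hint : IsIntegral ℤ δE := by
      rw [← isIntegral_algebraMap_iff hinj, hδEv]
      exact hδi
    set a : 𝓞 E := ⟨δE, hint⟩ with ha
    have hav : algebraMap (𝓞 E) E a = δE := rfl
    set bE : E := (w : E) ^ k * δE⁻¹ with hbE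
    have hbEv : algebraMap E ℂ bE = β := by
      rw [hbE, map_mul, map_pow, map_natCast, map_inv₀, hδEv, ← hβ]
      field_simp
    have hintb : IsIntegral ℤ bE := by
      rw [← isIntegral_algebraMap_iff hinj, hbEv]
      exact hβi
    set b : 𝓞 E := ⟨bE, hintb⟩ with hb
    have hbv : algebraMap (𝓞 E) E b = bE := rfl
    refine ⟨a, ⟨?_, ?_, k, b, ?_⟩, ?_⟩
    · intro h0
      apply hδ0
      rw [← hδEv, ← hav, h0, map_zero, map_zero]
    · intro σ
      rw [hav]
      apply hδX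
      have h1 : minpoly ℚ δ = minpoly ℚ δE := minpoly_emb δE (algebraMap E ℂ)
      rw [h1]
      have h2 : σ δE = σ.toRatAlgHom δE := rfl
      rw [h2, aeval_algHom_apply, minpoly.aeval, map_zero]
    · have h1 : algebraMap (𝓞 E) E ((w : 𝓞 E) ^ k) = algebraMap (𝓞 E) E (a * b) := by
        have h2 : δE ≠ 0 := by
          intro h0
          apply hδ0
          rw [← hδEv, h0, map_zero]
        rw [map_mul, map_pow, map_natCast, hav, hbv, hbE]
        field_simp
      exact FaithfulSMul.algebraMap_injective (𝓞 E) E h1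
    · rw [hφ]
      simp only [hav, hδEv]
  have hfin2 : (insert (0 : ℂ) (φ '' D)).Finite := (hfin.image φ).insert 0
  refine ⟨hfin2.subset hsub, ?_⟩
  have h1 : (DSet Θ X w).ncard ≤ D.ncard + 1 :=
    (Set.ncard_le_ncard hsub hfin2).trans ((Set.ncard_insert_le _ _).trans
      (Nat.add_le_add_right (Set.ncard_image_le hfin) 1))
  have hw1 : (1 : ℝ) ≤ (w : ℝ) := by exact_mod_cast hw
  have h2 : (1 : ℝ) ≤ (X * w) ^ ε := Real.one_le_rpow (by nlinarith) hε.le
  calc ((DSet Θ X w).ncard : ℝ) ≤ (D.ncard : ℝ) + 1 := by exact_mod_cast h1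
    _ ≤ C * (X * w) ^ ε + 1 := by linarith
    _ ≤ (C + 1) * (X * w) ^ ε := by nlinarith

end FreySparse
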