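import Pool.Agent.Lib.MP_6babc4_nt.Sp.BoxU

/-!
# Module Unt: the generators of an ideal in a box, uniformly in the field (50 minutes)

PROOF. `E` of degree `m ≤ M`, `X ≥ 1`, `I` an ideal. Let `S` be the set of the `δ ≠ 0` in `Box E X`
with `(δ) = I`. For `δ ∈ S` and `σ : E → ℂ`: `|σ δ| ≤ X` and the product over all `σ` of `|σ δ|` is
the norm, `≥ 1`, so `|σ δ| ≥ X^(-(M-1)) ≥ X^(-M)` and `log |σ δ| ∈ [-M log X, log X]`. Attach to
`δ ∈ S` the function `σ ↦ ⌊log |σ δ| / log 2⌋` (integers in `[-M log X / log 2 - 1, log X / log 2]`,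
at most `(M+1) log X / log 2 + 2 ≤ 2 (M + 1) (1 + log X)` values (`1 / log 2 < 2`)): so at most
`(2 (M+1) (1 + log X))^M` functions. If `δ, δ'` have the same function, `u = δ / δ'` is a unit of
`𝓞 E` (same ideal: `Ideal.span_singleton_eq_span_singleton`, `Associated`), and
`|log |σ u|| ≤ log 2`, so `u ∈ Box E 2`. So the fibre of the function through `δ'` injects into
`Box E 2`, which has at most `C_0(M)` elements by `box_card` (with `H = 2`). Altogether at most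
`C_0(M) (2(M+1))^M (1 + log X)^M`.
-/

open NumberField Module FreyAvg

namespace FreySparse

/-- Every absolute value of a nonzero integer in a box is bounded below. -/
private lemma unt_lower {E : Type} [Field E] [NumberField E] {M : ℕ} (hE : finrank ℚ E ≤ M) {X : ℝ}
    (hX : 1 ≤ X) {δ : 𝓞 E} (h0 : δ ≠ 0) (hδ : δ ∈ Box E X) (σ : E →+* ℂ) :
    (X ^ M)⁻¹ ≤ ‖σ (algebraMap (𝓞 E) E δ)‖ := by
  classical
  have h1 : ((Algebra.norm ℤ δ : ℤ) : ℂ) = ∏ τ : E →+* ℂ, τ (algebraMap (𝓞 E) E δ) := by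
    have h2 := Algebra.norm_eq_prod_embeddings ℚ ℂ (algebraMap (𝓞 E) E δ)
    have h3 : ∏ τ : E →ₐ[ℚ] ℂ, τ (algebraMap (𝓞 E) E δ) =
        ∏ τ : E →+* ℂ, τ (algebraMap (𝓞 E) E δ) := by
      refine (Fintype.prod_equiv (RingHom.equivRatAlgHom E ℂ) _ _ ?_).symm
      intro τ
      rfl
    rw [← h3, ← h2]
    have h4 : (Algebra.norm ℚ (algebraMap (𝓞 E) E δ) : ℚ) = (Algebra.norm ℤ δ : ℤ) :=
      (Algebra.coe_norm_int δ).symm
    rw [h4]
    simp
  have h2 : (1 : ℝ) ≤ ‖((Algebra.norm ℤ δ : ℤ) : ℂ)‖ := by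
    rw [Complex.norm_intCast]
    have h3 : Algebra.norm ℤ δ ≠ 0 := by
      rw [Ne, Algebra.norm_eq_zero_iff]
      exact h0
    have h4 : (1 : ℤ) ≤ |Algebra.norm ℤ δ| := Int.one_le_abs h3
    exact_mod_cast h4
  rw [h1, norm_prod, ← Finset.mul_prod_erase Finset.univ _ (Finset.mem_univ σ)] at h2
  have h3 : ∏ τ ∈ Finset.univ.erase σ, ‖τ (algebraMap (𝓞 E) E δ)‖ ≤ X ^ M := by
    calc ∏ τ ∈ Finset.univ.erase σ, ‖τ (algebraMap (𝓞 E) E δ)‖
        ≤ ∏ _τ ∈ Finset.univ.erase σ, X := Finset.prod_le_prod (fun _ _ => norm_nonneg _)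
          fun τ _ => hδ τ
      _ = X ^ (Finset.univ.erase σ).card := by rw [Finset.prod_const]
      _ ≤ X ^ M := by
          apply pow_le_pow_right₀ hX
          refine le_trans (Finset.card_le_card (Finset.erase_subset _ _)) ?_
          rw [Finset.card_univ, card_embeddings]
          exact hE
  rw [inv_le_iff_one_le_mul₀ (by positivity)]
  refine h2.trans ?_
  gcongr

theorem gen_count (M : ℕ) : ∃ C : ℝ, 1 ≤ C ∧
    ∀ (E : Type) [Field E] [NumberField E], finrank ℚ E ≤ M → ∀ X : ℝ, 1 ≤ X →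
      ∀ I : Ideal (𝓞 E),
        ({δ : 𝓞 E | δ ≠ 0 ∧ δ ∈ Box E X ∧ Ideal.span {δ} = I}.ncard : ℝ) ≤
          C * (1 + Real.log X) ^ M := by
  classical
  obtain ⟨C₀, hC₀, hbox⟩ := box_card M
  refine ⟨(C₀ * 2 ^ (2 * M)) * (4 * M + 3) ^ M, ?_, ?_⟩
  · have h1 : (1 : ℝ) ≤ C₀ * 2 ^ (2 * M) :=
      one_le_mul_of_one_le_of_one_le hC₀ (one_le_pow₀ (by norm_num))
    have h2 : (1 : ℝ) ≤ (4 * M + 3) ^ M :=
      one_le_pow₀ (by have : (0 : ℝ) ≤ M := Nat.cast_nonneg M; linarith)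
    exact one_le_mul_of_one_le_of_one_le h1 h2
  intro E _ _ hE X hX I
  have hlog : 0 ≤ Real.log X := Real.log_nonneg hX
  have hlog2 : (1 : ℝ) / 2 < Real.log 2 := by
    have := Real.log_two_gt_d9
    linarith
  have hlog20 : 0 < Real.log 2 := by linarith
  set S : Set (𝓞 E) := {δ : 𝓞 E | δ ≠ 0 ∧ δ ∈ Box E X ∧ Ideal.span {δ} = I} with hS
  have hSfin : S.Finite := (hbox E hE X hX).1.subset fun δ h => h.2.1
  set T : Finset (𝓞 E) := hSfin.toFinset with hT
  have hTS : S.ncard = T.card := by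
    rw [hT, Set.ncard_eq_toFinset_card S hSfin]
  rw [hTS]
  set N : ℕ := ⌈2 * M * Real.log X⌉₊ with hN
  have hN1 : 2 * M * Real.log X ≤ N := Nat.le_ceil _
  have hN2 : (N : ℝ) ≤ 2 * M * Real.log X + 1 := (Nat.ceil_lt_add_one (by positivity)).le
  let f : 𝓞 E → ((E →+* ℂ) → ℤ) :=
    fun δ σ => ⌊Real.log ‖σ (algebraMap (𝓞 E) E δ)‖ / Real.log 2⌋
  let V : Finset ((E →+* ℂ) → ℤ) := Fintype.piFinset fun _ => Finset.Icc (-(N : ℤ)) N
  have hmaps : ∀ δ ∈ T, f δ ∈ V := by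
    intro δ hδ
    have hδS : δ ∈ S := by rwa [hT, Set.Finite.mem_toFinset] at hδ
    obtain ⟨h0, hbX, -⟩ := hδS
    rw [Fintype.mem_piFinset]
    intro σ
    have hpos : 0 < ‖σ (algebraMap (𝓞 E) E δ)‖ := by
      rw [norm_pos_iff, Ne, map_eq_zero, FaithfulSMul.algebraMap_eq_zero_iff]
      exact h0
    have hup : Real.log ‖σ (algebraMap (𝓞 E) E δ)‖ ≤ Real.log X :=
      Real.log_le_log hpos (hbX σ)
    have hM1 : (1 : ℝ) ≤ M := by
      have h1 : 0 < finrank ℚ E := finrank_pos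
      have h2 : 1 ≤ M := by omega
      exact_mod_cast h2
    have hlow : -(M * Real.log X) ≤ Real.log ‖σ (algebraMap (𝓞 E) E δ)‖ := by
      have h1 := Real.log_le_log (by positivity) (unt_lower hE hX h0 hbX σ)
      rwa [Real.log_inv, Real.log_pow] at h1
    have habs : |Real.log ‖σ (algebraMap (𝓞 E) E δ)‖| ≤ M * Real.log X := by
      rw [abs_le]
      refine ⟨hlow, hup.trans ?_⟩
      nlinarith
    have habs2 : |Real.log ‖σ (algebraMap (𝓞 E) E δ)‖ / Real.log 2| ≤ N := by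
      rw [abs_div, abs_of_pos hlog20, div_le_iff₀ hlog20]
      refine habs.trans ?_
      have h3 : (N : ℝ) * (1 / 2) ≤ N * Real.log 2 := by gcongr
      nlinarith
    rw [abs_le] at habs2
    rw [Finset.mem_Icc]
    constructor
    · rw [Int.le_floor]
      push_cast
      exact habs2.1
    · have h4 := Int.floor_le (Real.log ‖σ (algebraMap (𝓞 E) E δ)‖ / Real.log 2)
      have h5 : ((⌊Real.log ‖σ (algebraMap (𝓞 E) E δ)‖ / Real.log 2⌋ : ℤ) : ℝ) ≤ ((N : ℤ) : ℝ) := by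
        push_cast
        exact h4.trans habs2.2
      exact_mod_cast h5
  have hfib : ∀ g ∈ V, ((T.filter (fun δ => f δ = g)).card : ℝ) ≤ C₀ * 2 ^ (2 * M) := by
    intro g _
    rcases (T.filter (fun δ => f δ = g)).eq_empty_or_nonempty with he | ⟨δ', hδ'⟩
    · rw [he, Finset.card_empty, Nat.cast_zero]
      positivity
    rw [Finset.mem_filter] at hδ'
    obtain ⟨hδ'T, hg⟩ := hδ'
    have hδ'S : δ' ∈ S := by rwa [hT, Set.Finite.mem_toFinset] at hδ'T
    have hb2 := hbox E hE 2 (by norm_num)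
    have hsub : ((T.filter (fun δ => f δ = g) : Finset (𝓞 E)) : Set (𝓞 E)) ⊆
        (fun u : 𝓞 E => δ' * u) '' Box E 2 := by
      intro δ hδ
      rw [Finset.mem_coe, Finset.mem_filter] at hδ
      obtain ⟨hδT, hδg⟩ := hδ
      have hδS : δ ∈ S := by rwa [hT, Set.Finite.mem_toFinset] at hδT
      have hdvd : δ' ∣ δ := by
        rw [← Ideal.span_singleton_le_span_singleton, hδS.2.2, hδ'S.2.2]
      obtain ⟨u, hu⟩ := hdvd
      refine ⟨u, ?_, hu.symm⟩
      intro σ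
      have hne : ∀ x : 𝓞 E, x ≠ 0 → 0 < ‖σ (algebraMap (𝓞 E) E x)‖ := by
        intro x hx
        rw [norm_pos_iff, Ne, map_eq_zero, FaithfulSMul.algebraMap_eq_zero_iff]
        exact hx
      have hu0 : u ≠ 0 := by
        rintro rfl
        exact hδS.1 (by rw [hu, mul_zero])
      have h1 : Real.log ‖σ (algebraMap (𝓞 E) E δ)‖ =
          Real.log ‖σ (algebraMap (𝓞 E) E δ')‖ + Real.log ‖σ (algebraMap (𝓞 E) E u)‖ := by
        rw [hu, map_mul, map_mul, norm_mul, Real.log_mul (hne δ' hδ'S.1).ne' (hne u hu0).ne']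
      have h2 : f δ σ = f δ' σ := by rw [hδg, hg]
      have h3 := Int.abs_sub_lt_one_of_floor_eq_floor h2
      rw [← sub_div, h1, add_sub_cancel_left, abs_div, abs_of_pos hlog20,
        div_lt_one hlog20] at h3
      have h4 : Real.log ‖σ (algebraMap (𝓞 E) E u)‖ ≤ Real.log 2 :=
        (le_abs_self _).trans h3.le
      exact (Real.log_le_log_iff (hne u hu0) (by norm_num)).mp h4
    have h5 : (T.filter (fun δ => f δ = g)).card ≤ (Box E 2).ncard := by
      rw [← Set.ncard_coe_finset]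
      exact (Set.ncard_le_ncard hsub (hb2.1.image _)).trans (Set.ncard_image_le hb2.1)
    calc ((T.filter (fun δ => f δ = g)).card : ℝ) ≤ (Box E 2).ncard := by exact_mod_cast h5
      _ ≤ C₀ * 2 ^ (2 * M) := hb2.2
  have hcard : (T.card : ℝ) ≤ V.card * (C₀ * 2 ^ (2 * M)) := by
    rw [Finset.card_eq_sum_card_fiberwise (f := f) (t := V) (fun δ hδ => hmaps δ hδ)]
    push_cast
    calc ∑ g ∈ V, ((T.filter (fun δ => f δ = g)).card : ℝ) ≤ ∑ _g ∈ V, C₀ * 2 ^ (2 * M) :=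
          Finset.sum_le_sum hfib
      _ = V.card * (C₀ * 2 ^ (2 * M)) := by rw [Finset.sum_const, nsmul_eq_mul]
  have hVc : (V.card : ℝ) ≤ ((4 * M + 3) * (1 + Real.log X)) ^ M := by
    have h1 : V.card = (2 * N + 1) ^ finrank ℚ E := by
      rw [Fintype.card_piFinset, Finset.prod_const, Finset.card_univ, card_embeddings,
        Int.card_Icc]
      congr 1
      omega
    rw [h1]
    push_cast
    have h2 : (2 * (N : ℝ) + 1) ≤ (4 * M + 3) * (1 + Real.log X) := by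
      have h3 : (0 : ℝ) ≤ M := Nat.cast_nonneg M
      nlinarith
    calc (2 * (N : ℝ) + 1) ^ finrank ℚ E ≤ (2 * (N : ℝ) + 1) ^ M :=
          pow_le_pow_right₀ (by have : (0 : ℝ) ≤ N := Nat.cast_nonneg N; linarith) hE
      _ ≤ _ := by gcongr
  calc (T.card : ℝ) ≤ V.card * (C₀ * 2 ^ (2 * M)) := hcard
    _ ≤ ((4 * M + 3) * (1 + Real.log X)) ^ M * (C₀ * 2 ^ (2 * M)) := by gcongr
    _ = (C₀ * 2 ^ (2 * M)) * (4 * M + 3) ^ M * (1 + Real.log X) ^ M := by
        rw [mul_pow]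
        ring

end FreySparse
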