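import Pool.Agent.Lib.MP_6babc4_nt.Sp.Nrm
import Pool.Agent.Lib.MP_6babc4_nt.Sp.IdK
import Pool.Agent.Lib.MP_6babc4_nt.Sp.Unt

/-!
# Module Dff: integers of a number field with given support in a box (40 minutes)

PROOF. Let `δ ≠ 0` be in `Box E X`, `m = [E : ℚ] ≤ M`, and `δ ∣ w^k`. Then `N = |norm δ|` (equal to
`Ideal.absNorm (span {δ})`) is an integer with `1 ≤ N ≤ X^m ≤ X^M` (`FreyAvg.absNorm_le_of_box` in
`AvgCount.lean`; `X ≥ 1`) which divides `w^(k m)` (norm of `w`), so all its prime factors divide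
`w`: by `smooth_count` (with `X^M`, `ε₁`) at most `C₁ (X^M w)^ε₁` values of `N`. For each `N` there
are at most `C₂ N^ε₂ ≤ C₂ X^(M ε₂)` ideals (`ideal_count`), and for each ideal at most
`C₃ (1 + log X)^M ≤ C₄ X^(ε/4)` elements `δ` (`gen_count`; `(1 + log X)^M ≤ C X^η` for `X ≥ 1`:
`Real.log_le_rpow_div`). Choose `ε₁ = ε / (4 (M + 1))`, `ε₂ = ε / (4 (M+1))`. The total is at most
`C (X w)^ε` because `X, w ≥ 1`. (The set is finite as a subset of the box.)
-/

open NumberField Module FreyAvg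

namespace FreySparse

private lemma dff_norm_le {E : Type} [Field E] [NumberField E] {α : 𝓞 E} {Y : ℝ}
    (hα : α ∈ Box E Y) :
    ((Ideal.absNorm (Ideal.span {α}) : ℕ) : ℝ) ≤ Y ^ finrank ℚ E := by
  rw [Ideal.absNorm_span_singleton]
  have h1 : ((Algebra.norm ℤ α : ℤ) : ℂ) = ∏ σ : E →+* ℂ, σ (algebraMap (𝓞 E) E α) := by
    have h2 := Algebra.norm_eq_prod_embeddings ℚ ℂ (algebraMap (𝓞 E) E α)
    have h3 : ∏ σ : E →ₐ[ℚ] ℂ, σ (algebraMap (𝓞 E) E α) =
        ∏ σ : E →+* ℂ, σ (algebraMap (𝓞 E) E α) := by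
      refine (Fintype.prod_equiv (RingHom.equivRatAlgHom E ℂ) _ _ ?_).symm
      intro σ
      rfl
    rw [← h3, ← h2]
    have h4 : (Algebra.norm ℚ (algebraMap (𝓞 E) E α) : ℚ) = (Algebra.norm ℤ α : ℤ) :=
      (Algebra.coe_norm_int α).symm
    rw [h4]
    simp
  have h5 : (((Algebra.norm ℤ α).natAbs : ℕ) : ℝ) = ‖((Algebra.norm ℤ α : ℤ) : ℂ)‖ := by
    rw [Nat.cast_natAbs, Complex.norm_intCast]
    simp
  rw [h5, h1, norm_prod]
  refine (Finset.prod_le_prod (fun σ _ => norm_nonneg _) fun σ _ => hα σ).trans ?_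
  rw [Finset.prod_const, Finset.card_univ, card_embeddings]

/-- logarithms against powers -/
private lemma dff_log (M : ℕ) {η : ℝ} (hη : 0 < η) : ∃ C : ℝ, 1 ≤ C ∧ ∀ X : ℝ, 1 ≤ X →
    (1 + Real.log X) ^ M ≤ C * X ^ η := by
  set c : ℝ := 1 + (M + 1) / η with hc
  have hM : (0 : ℝ) < (M : ℝ) + 1 := by positivity
  have hc1 : 1 ≤ c := by
    have : (0 : ℝ) ≤ (M + 1) / η := by positivity
    linarith
  refine ⟨c ^ M, one_le_pow₀ hc1, fun X hX => ?_⟩
  have hX0 : (0 : ℝ) ≤ X := by linarith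
  set θ : ℝ := η / (M + 1) with hθ
  have hθ0 : 0 < θ := by positivity
  have h1 := Real.log_le_rpow_div hX0 hθ0
  have h2 : (1 : ℝ) ≤ X ^ θ := Real.one_le_rpow hX hθ0.le
  have h3 : 1 + Real.log X ≤ c * X ^ θ := by
    have h4 : X ^ θ / θ = ((M + 1) / η) * X ^ θ := by
      rw [hθ]; field_simp
    rw [h4] at h1
    rw [hc, add_mul]
    linarith
  have h5 : 0 ≤ 1 + Real.log X := by
    have := Real.log_nonneg hX
    linarith
  calc (1 + Real.log X) ^ M ≤ (c * X ^ θ) ^ M := by gcongr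
    _ = c ^ M * (X ^ θ) ^ M := mul_pow _ _ _
    _ ≤ c ^ M * X ^ η := by
        refine mul_le_mul_of_nonneg_left ?_ (by positivity)
        rw [← Real.rpow_natCast, ← Real.rpow_mul hX0]
        refine Real.rpow_le_rpow_of_exponent_le hX ?_
        rw [hθ, div_mul_eq_mul_div, div_le_iff₀ hM]
        nlinarith

theorem diff_count (M : ℕ) {ε : ℝ} (hε : 0 < ε) : ∃ C : ℝ, 1 ≤ C ∧
    ∀ (E : Type) [Field E] [NumberField E], finrank ℚ E ≤ M → ∀ X : ℝ, 1 ≤ X →
      ∀ w : ℕ, 1 ≤ w →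
        {δ : 𝓞 E | δ ≠ 0 ∧ δ ∈ Box E X ∧ ∃ k : ℕ, δ ∣ (w : 𝓞 E) ^ k}.Finite ∧
        ({δ : 𝓞 E | δ ≠ 0 ∧ δ ∈ Box E X ∧ ∃ k : ℕ, δ ∣ (w : 𝓞 E) ^ k}.ncard : ℝ) ≤
          C * (X * w) ^ ε := by
  classical
  set η : ℝ := ε / (4 * ((M : ℝ) + 1)) with hηdef
  have hM1 : (0 : ℝ) < (M : ℝ) + 1 := by positivity
  have hη : 0 < η := by positivity
  obtain ⟨C1, hC1, h1⟩ := smooth_count hη
  obtain ⟨C2, hC2, h2⟩ := ideal_count M hη
  obtain ⟨C3, hC3, h3⟩ := gen_count M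
  obtain ⟨C4, hC4, h4⟩ := dff_log M (η := ε / 4) (by positivity)
  refine ⟨C1 * C2 * (C3 * C4), ?_, ?_⟩
  · have := one_le_mul_of_one_le_of_one_le hC1 hC2
    have := one_le_mul_of_one_le_of_one_le hC3 hC4
    nlinarith
  intro E _ _ hE X hX w hw
  set D : Set (𝓞 E) := {δ : 𝓞 E | δ ≠ 0 ∧ δ ∈ Box E X ∧ ∃ k : ℕ, δ ∣ (w : 𝓞 E) ^ k} with hD
  have hDfin : D.Finite := (box_finite (K := E) X).subset fun δ hδ => hδ.2.1
  refine ⟨hDfin, ?_⟩
  have hXM : (1 : ℝ) ≤ X ^ M := one_le_pow₀ hX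
  obtain ⟨hNfin, hNcard⟩ := h1 (X ^ M) hXM w hw
  set N : Set ℕ := {k : ℕ | 1 ≤ k ∧ (k : ℝ) ≤ X ^ M ∧ ∀ p : ℕ, p.Prime → p ∣ k → p ∣ w} with hN
  -- the norm of an element of D
  have hnorm : ∀ δ ∈ D, Ideal.absNorm (Ideal.span {δ}) ∈ N := by
    intro δ hδ
    obtain ⟨hδ0, hδB, k, hk⟩ := hδ
    have h5 : Ideal.absNorm (Ideal.span {δ}) ≠ 0 := by
      rw [Ne, Ideal.absNorm_eq_zero_iff, Ideal.span_singleton_eq_bot]
      exact hδ0
    refine ⟨by omega, (dff_norm_le hδB).trans (pow_le_pow_right₀ hX hE), fun p hp hpd => ?_⟩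
    have h6 : Ideal.absNorm (Ideal.span {δ}) ∣ Ideal.absNorm (Ideal.span {((w ^ k : ℕ) : 𝓞 E)}) := by
      refine map_dvd _ ?_
      rw [Ideal.dvd_span_singleton, Ideal.mem_span_singleton]
      push_cast
      exact hk
    rw [Ideal.absNorm_span_natCast] at h6
    exact hp.dvd_of_dvd_pow (hp.dvd_of_dvd_pow (hpd.trans h6))
  -- the ideals
  set NF : Finset ℕ := hNfin.toFinset with hNF
  set DF : Finset (𝓞 E) := hDfin.toFinset with hDF
  set JF : Finset (Ideal (𝓞 E)) := DF.image (fun δ => Ideal.span {δ}) with hJF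
  have hX0 : (0 : ℝ) < X := by linarith
  have hw1 : (1 : ℝ) ≤ (w : ℝ) := by exact_mod_cast hw
  -- number of the ideals
  have hJcard : (JF.card : ℝ) ≤ (NF.card : ℝ) * (C2 * (X ^ M) ^ η) := by
    have hmaps : ∀ J ∈ JF, Ideal.absNorm J ∈ NF := by
      intro J hJ
      obtain ⟨δ, hδ, rfl⟩ := Finset.mem_image.1 hJ
      rw [hNF, Set.Finite.mem_toFinset]
      exact hnorm δ ((Set.Finite.mem_toFinset _).1 hδ)
    rw [Finset.card_eq_sum_card_fiberwise hmaps]
    push_cast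
    rw [← nsmul_eq_mul, ← Finset.sum_const]
    refine Finset.sum_le_sum fun k hk => ?_
    have hk' : k ∈ N := (Set.Finite.mem_toFinset _).1 hk
    obtain ⟨h7, h8⟩ := h2 E hE k hk'.1
    have h9 : (JF.filter (fun J => Ideal.absNorm J = k)).card ≤
        {I : Ideal (𝓞 E) | Ideal.absNorm I = k}.ncard := by
      rw [← Set.ncard_coe_finset]
      refine Set.ncard_le_ncard ?_ h7
      intro J hJ
      exact (Finset.mem_filter.1 (Finset.mem_coe.1 hJ)).2
    calc ((JF.filter (fun J => Ideal.absNorm J = k)).card : ℝ)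
        ≤ ({I : Ideal (𝓞 E) | Ideal.absNorm I = k}.ncard : ℝ) := by exact_mod_cast h9
      _ ≤ C2 * (k : ℝ) ^ η := h8
      _ ≤ C2 * (X ^ M) ^ η := by
          refine mul_le_mul_of_nonneg_left ?_ (by linarith)
          exact Real.rpow_le_rpow (by positivity) hk'.2.1 hη.le
  -- number of the elements
  have hDcard : (DF.card : ℝ) ≤ (JF.card : ℝ) * (C3 * (1 + Real.log X) ^ M) := by
    have hmaps : ∀ δ ∈ DF, Ideal.span {δ} ∈ JF := fun δ hδ => Finset.mem_image_of_mem _ hδ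
    rw [Finset.card_eq_sum_card_fiberwise hmaps]
    push_cast
    rw [← nsmul_eq_mul, ← Finset.sum_const]
    refine Finset.sum_le_sum fun J _ => ?_
    have h7 := h3 E hE X hX J
    refine le_trans ?_ h7
    have h9 : (DF.filter (fun δ => Ideal.span {δ} = J)).card ≤
        {δ : 𝓞 E | δ ≠ 0 ∧ δ ∈ Box E X ∧ Ideal.span {δ} = J}.ncard := by
      rw [← Set.ncard_coe_finset]
      refine Set.ncard_le_ncard ?_ ((box_finite (K := E) X).subset fun δ hδ => hδ.2.1)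
      intro δ hδ
      obtain ⟨h10, h11⟩ := Finset.mem_filter.1 (Finset.mem_coe.1 hδ)
      have h12 : δ ∈ D := (Set.Finite.mem_toFinset _).1 h10
      exact ⟨h12.1, h12.2.1, h11⟩
    exact_mod_cast h9
  have hNc : (NF.card : ℝ) ≤ C1 * (X ^ M * w) ^ η := by
    rw [hNF, ← Set.ncard_eq_toFinset_card _ hNfin]
    exact hNcard
  have hDn : (D.ncard : ℝ) = (DF.card : ℝ) := by
    rw [hDF, ← Set.ncard_eq_toFinset_card _ hDfin]
  have hA : (X ^ M * w : ℝ) ^ η ≤ (X * w) ^ (ε / 4) := by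
    have h5 : (X ^ M * w : ℝ) ≤ (X * w) ^ ((M : ℝ) + 1) := by
      have h6 : ((M : ℝ) + 1) = ((M + 1 : ℕ) : ℝ) := by push_cast; ring
      rw [h6, Real.rpow_natCast, mul_pow]
      refine mul_le_mul (pow_le_pow_right₀ hX (by omega)) ?_ (by positivity) (by positivity)
      exact le_self_pow₀ hw1 (by omega)
    calc (X ^ M * w : ℝ) ^ η ≤ ((X * w) ^ ((M : ℝ) + 1)) ^ η :=
          Real.rpow_le_rpow (by positivity) h5 hη.le
      _ = (X * w) ^ (ε / 4) := by
          rw [← Real.rpow_mul (by positivity)]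
          congr 1
          rw [hηdef]; field_simp
  have hXw : X ≤ X * w := le_mul_of_one_le_right hX0.le hw1
  have hXw1 : 1 ≤ X * w := by nlinarith
  have hB : (X ^ M : ℝ) ^ η ≤ (X * w) ^ (ε / 4) := by
    refine le_trans (Real.rpow_le_rpow (by positivity) ?_ hη.le) hA
    exact le_mul_of_one_le_right (by positivity) hw1
  have hL : (1 + Real.log X) ^ M ≤ C4 * (X * w) ^ (ε / 4) := by
    refine (h4 X hX).trans (mul_le_mul_of_nonneg_left ?_ (by linarith))
    exact Real.rpow_le_rpow hX0.le hXw (by positivity)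
  have hlog0 : 0 ≤ (1 + Real.log X) ^ M := by
    have := Real.log_nonneg hX
    positivity
  set Z : ℝ := (X * w) ^ (ε / 4) with hZ
  have hZ1 : 1 ≤ Z := Real.one_le_rpow hXw1 (by positivity)
  have hZ4 : Z * Z * Z ≤ (X * w) ^ ε := by
    have h5 : (X * w) ^ ε = Z * Z * Z * Z := by
      rw [hZ, ← Real.rpow_add (by positivity), ← Real.rpow_add (by positivity),
        ← Real.rpow_add (by positivity)]
      congr 1; ring
    rw [h5]
    have h6 : 0 ≤ Z * Z * Z := by positivity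
    nlinarith
  rw [hDn]
  calc (DF.card : ℝ) ≤ (JF.card : ℝ) * (C3 * (1 + Real.log X) ^ M) := hDcard
    _ ≤ ((NF.card : ℝ) * (C2 * (X ^ M) ^ η)) * (C3 * (1 + Real.log X) ^ M) := by
        refine mul_le_mul_of_nonneg_right hJcard ?_
        exact mul_nonneg (by linarith) hlog0
    _ ≤ ((C1 * Z) * (C2 * Z)) * (C3 * (C4 * Z)) := by
        refine mul_le_mul ?_ ?_ (mul_nonneg (by linarith) hlog0) (by positivity)
        · refine mul_le_mul (hNc.trans ?_) ?_ (by positivity) (by positivity)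
          · exact mul_le_mul_of_nonneg_left hA (by linarith)
          · exact mul_le_mul_of_nonneg_left hB (by linarith)
        · exact mul_le_mul_of_nonneg_left hL (by linarith)
    _ = C1 * C2 * (C3 * C4) * (Z * Z * Z) := by ring
    _ ≤ C1 * C2 * (C3 * C4) * (X * w) ^ ε :=
        mul_le_mul_of_nonneg_left hZ4 (by positivity)

end FreySparse
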