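import Pool.Agent.Lib.MP_6babc4_nt.Sp.Dif

/-!
# Module DisL: discriminants of the intermediate fields (30 minutes)

PROOF. Let `m = [L : K]`, `d = [K : ℚ]`, so `[L : ℚ] = m d`. By
`NumberField.natAbs_discr_eq_absNorm_differentIdeal_mul_natAbs_discr_pow`,
`|D_L| = N(differentIdeal (𝓞 K) (𝓞 L)) |D_K|^m`, and by `different_dvd` the norm of the different
divides, so is at most, `N((m)) N(J 𝓞 L) = m^(m d) N(J)^m` (`J ≠ 0`; `Ideal.absNorm_span_natCast`-like
or `absNorm` of `span {(m : 𝓞 L)}` is `m ^ [L : ℚ]`; `N(J 𝓞 L) = N(J)^m`: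
`Ideal.relNorm_algebraMap`, `Ideal.absNorm_relNorm`, or `Ideal.absNorm_map...`; any `≤` proof will
do). So `|D_L| ≤ (|D_K| m^d N(J))^m`. For an intermediate field `M`, `t = [L : M]`, the same Mathlib
theorem for `L / M` gives `|D_M|^t ≤ |D_L|` (the norm of the different is at least `1`), and
`m = t [M : K]`, so `|D_M|^t ≤ ((|D_K| m^d N(J))^[M : K])^t`; take `t`-th roots
(`pow_le_pow_iff_left₀`).
-/

open Polynomial NumberField IsDedekindDomain Module

namespace FreySparse

theorem discr_sub (K L : Type) [Field K] [NumberField K] [Field L] [NumberField L]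
    [Algebra K L] [IsGalois K L] (J : Ideal (𝓞 K)) (hJ0 : J ≠ ⊥)
    (hJ : ∀ (v : HeightOneSpectrum (𝓞 K)) (P : HeightOneSpectrum (𝓞 L)),
      P.asIdeal ^ 2 ∣ v.asIdeal.map (algebraMap (𝓞 K) (𝓞 L)) → v.asIdeal ∣ J)
    (M : IntermediateField K L) :
    haveI : NumberField M := NumberField.of_module_finite K M
    (NumberField.discr M).natAbs ≤
      ((NumberField.discr K).natAbs * finrank K L ^ finrank ℚ K * Ideal.absNorm J) ^
        finrank K M := by
  haveI : NumberField M := NumberField.of_module_finite K M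
  have hL := natAbs_discr_eq_absNorm_differentIdeal_mul_natAbs_discr_pow K (𝓞 K) L (𝓞 L)
  have hM := natAbs_discr_eq_absNorm_differentIdeal_mul_natAbs_discr_pow M (𝓞 M) L (𝓞 L)
  have hdvd := different_dvd K L J hJ
  have hfr : finrank (𝓞 K) (𝓞 L) = finrank K L := by
    rw [← IsFractionRing.finrank_eq (𝓞 K) K (𝓞 L) L]
  have hnorm : Ideal.absNorm (differentIdeal (𝓞 K) (𝓞 L)) ≤
      (finrank K L ^ finrank ℚ K * Ideal.absNorm J) ^ finrank K L := by
    have h1 : Ideal.absNorm (differentIdeal (𝓞 K) (𝓞 L)) ∣ Ideal.absNorm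
        (Ideal.span {(finrank K L : 𝓞 L)} * J.map (algebraMap (𝓞 K) (𝓞 L))) :=
      Ideal.absNorm_dvd_absNorm_of_le (Ideal.le_of_dvd hdvd)
    rw [map_mul, Ideal.absNorm_span_natCast, Ideal.absNorm_algebraMap] at h1
    have h2 : finrank ℤ (𝓞 L) = finrank ℚ K * finrank K L := by
      rw [RingOfIntegers.rank, finrank_mul_finrank]
    rw [h2, hfr, pow_mul, ← mul_pow] at h1
    refine Nat.le_of_dvd ?_ h1
    refine pow_pos (Nat.mul_pos (pow_pos finrank_pos _) ?_) _
    exact Nat.pos_of_ne_zero (fun h0 => hJ0 (Ideal.absNorm_eq_zero_iff.1 h0))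
  have h3 : (discr L).natAbs ≤
      ((discr K).natAbs * finrank K L ^ finrank ℚ K * Ideal.absNorm J) ^ finrank K L := by
    rw [hL, mul_assoc, mul_pow]
    calc Ideal.absNorm (differentIdeal (𝓞 K) (𝓞 L)) * (discr K).natAbs ^ finrank K L
        ≤ (finrank K L ^ finrank ℚ K * Ideal.absNorm J) ^ finrank K L *
            (discr K).natAbs ^ finrank K L := Nat.mul_le_mul_right _ hnorm
      _ = _ := mul_comm _ _
  have h4 : (discr M).natAbs ^ finrank M L ≤ (discr L).natAbs := by
    rw [hM]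
    refine Nat.le_mul_of_pos_left _ (Nat.pos_of_ne_zero fun h0 => ?_)
    exact (differentIdeal_ne_bot (A := 𝓞 M) (B := 𝓞 L)) (Ideal.absNorm_eq_zero_iff.1 h0)
  have h5 : finrank K L = finrank K M * finrank M L := (finrank_mul_finrank K M L).symm
  have h6 : (discr M).natAbs ^ finrank M L ≤
      (((discr K).natAbs * finrank K L ^ finrank ℚ K * Ideal.absNorm J) ^ finrank K M) ^
        finrank M L := by
    rw [← pow_mul, ← h5]
    exact h4.trans h3
  exact (Nat.pow_le_pow_iff_left (finrank_pos (R := M) (M := L)).ne').1 h6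

end FreySparse
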