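import Pool.Agent.Lib.MP_6babc4_nt.Sp.Red

/-!
# Module Dsc: the discriminant of `f` (50 minutes)

`Polynomial.discr f` is the determinant (up to sign) of `Polynomial.sylvesterDeriv f`
(`Mathlib/RingTheory/Polynomial/Resultant/Basic.lean`).

PROOFS.
* `discr_prod`: `resultant_deriv` over the field `L = Spl f`, for the image `F` of `f`:
  `resultant F F' n (n-1) = ± a discr F`, and `resultant F F' = a^(n-1) ∏_i F'(x_i)`
  (`Polynomial.resultant_eq_prod_eval`-like lemma for a split polynomial), `F'(x_i) =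
  a ∏_{j ≠ i} (x_i - x_j)`. So `discr F = ± a^(2n-2) ∏_i ∏_{j ≠ i} (x_i - x_j)`. The discriminant of
  the image is the image of the discriminant (the natural degree is preserved: the entries of
  `sylvesterDeriv` are the coefficients; `RingHom.map_det`; or use
  `resultant_map_map`/`resultant_deriv` over `𝓞 K` itself and cancel `a`).
* `discr_bound`: expand the determinant of size `2 n - 1` (`Matrix.det_apply`): each of the
  `(2n-1)!` terms is a product of one entry of the last row (`0`, `1` or `n`) and `2n-2` other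
  entries, each a coefficient of `f` or of `f'`, of absolute value at most `n H` under `σ`
  (`n ≥ 1`, `H ≥ 1`). (`sylvesterDeriv` is the Sylvester matrix with the last row replaced.)
  Alternative: `|σ discr f| = |a|^(2n-2) ∏ |z_i - z_j| ≤ 2^(n(n-1)) M(σ f)^(2n-2)` with
  `|z_i - z_j| ≤ 2 max(1,|z_i|) max(1,|z_j|)` and `M(σ f) ≤ ∑ |coeff| ≤ (n+1) H`
  (`Polynomial.mahlerMeasure_le_sum_norm_coeff`, `mahlerMeasure_eq_leadingCoeff_mul_prod_roots`).
* `discr_ne_zero`: from `discr_prod`, the roots are distinct and `a ≠ 0`.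
-/

open Polynomial NumberField IsDedekindDomain Module

namespace FreySparse

private lemma dsc_roots {L : Type*} [Field L] {n : ℕ} (a : L) (ha : a ≠ 0) (x : Fin n → L) :
    (C a * ∏ i, (X - C (x i))).roots = Finset.univ.val.map x ∧
      (C a * ∏ i, (X - C (x i))).Splits := by
  have h1 : ∏ i, (X - C (x i)) =
      (((Finset.univ : Finset (Fin n)).val.map x).map fun b => X - C b).prod := by
    rw [Multiset.map_map]
    rfl
  refine ⟨?_, ?_⟩
  · rw [roots_C_mul _ ha, h1, roots_multiset_prod_X_sub_C]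
  · exact (Splits.C a).mul (Splits.prod fun i _ => Splits.X_sub_C _)

private lemma dsc_deriv {L : Type*} [Field L] {n : ℕ} (a : L) (x : Fin n → L) (i : Fin n) :
    (derivative (C a * ∏ i, (X - C (x i)))).eval (x i) =
      a * ∏ j ∈ Finset.univ.erase i, (x i - x j) := by
  rw [derivative_C_mul, eval_mul, eval_C, derivative_prod_finset, eval_finsetSum,
    Finset.sum_eq_single i]
  · simp [eval_prod]
  · intro b _ hb
    rw [eval_mul, eval_prod]
    rw [Finset.prod_eq_zero (i := i) (by simp [Ne.symm hb]) (by simp), zero_mul]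
  · intro h
    exact absurd (Finset.mem_univ i) h

theorem discr_prod {K : Type} [Field K] [NumberField K] {f : (𝓞 K)[X]} (hn : 1 ≤ f.natDegree)
    (hf : (f.map (algebraMap (𝓞 K) K)).Separable)
    (x : Fin f.natDegree → Spl f) (hx : Function.Injective x) (hr : Set.range x = rts f) :
    ∃ u : ℤ, (u = 1 ∨ u = -1) ∧
      algebraMap K (Spl f) (algebraMap (𝓞 K) K (Polynomial.discr f)) =
        u * algebraMap K (Spl f) (algebraMap (𝓞 K) K f.leadingCoeff) ^ (2 * f.natDegree - 2) *
          ∏ i, ∏ j ∈ Finset.univ.erase i, (x i - x j) := by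
  set φ : 𝓞 K →+* Spl f := (algebraMap K (Spl f)).comp (algebraMap (𝓞 K) K) with hφ
  have hφi : Function.Injective φ :=
    (algebraMap K (Spl f)).injective.comp (RingOfIntegers.coe_injective)
  have hf0 : f ≠ 0 := by
    intro h
    rw [h] at hn
    simp at hn
  set a : Spl f := φ f.leadingCoeff with ha
  have ha0 : a ≠ 0 := by
    rw [ha]
    exact fun h => hf0 (leadingCoeff_eq_zero.mp ((map_eq_zero_iff φ hφi).mp h))
  have hF : f.map φ = C a * ∏ i, (X - C (x i)) := by
    have := factor hf x hx hr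
    rw [Polynomial.map_map] at this
    exact this
  have hFd : (f.map φ).natDegree = f.natDegree := natDegree_map_eq_of_injective hφi f
  have hFl : (f.map φ).leadingCoeff = a := by
    rw [leadingCoeff_map_of_injective hφi]
  have hdeg : 0 < f.degree := natDegree_pos_iff_degree_pos.mp (by omega)
  have h1 := congrArg φ (resultant_deriv hdeg)
  rw [← resultant_map_map, ← derivative_map] at h1
  have h2 := resultant_eq_prod_eval (f.map φ) (derivative (f.map φ)) (f.natDegree - 1)
    ((natDegree_derivative_le _).trans (by rw [hFd])) (by rw [hF]; exact (dsc_roots a ha0 x).2)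
  rw [hFd, hFl] at h2
  rw [h2] at h1
  have h3 : ((f.map φ).roots.map (derivative (f.map φ)).eval).prod =
      a ^ f.natDegree * ∏ i, ∏ j ∈ Finset.univ.erase i, (x i - x j) := by
    rw [hF, (dsc_roots a ha0 x).1, Multiset.map_map]
    have : ∀ i, ((fun y => eval y (derivative (C a * ∏ i, (X - C (x i))))) ∘ x) i =
        a * ∏ j ∈ Finset.univ.erase i, (x i - x j) := fun i => dsc_deriv a x i
    calc (Multiset.map ((fun y => eval y (derivative (C a * ∏ i, (X - C (x i))))) ∘ x)
          Finset.univ.val).prod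
        = ∏ i, ((fun y => eval y (derivative (C a * ∏ i, (X - C (x i))))) ∘ x) i := rfl
      _ = ∏ i, (a * ∏ j ∈ Finset.univ.erase i, (x i - x j)) :=
          Finset.prod_congr rfl fun i _ => this i
      _ = _ := by
          rw [Finset.prod_mul_distrib]
          simp
  rw [h3] at h1
  set e : ℕ := f.natDegree * (f.natDegree - 1) / 2 with he
  rw [map_mul, map_mul, map_pow, map_neg, map_one, ← ha] at h1
  refine ⟨(-1) ^ e, neg_one_pow_eq_or ℤ e, ?_⟩
  have hsq : ((-1 : Spl f) ^ e) * (-1) ^ e = 1 := by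
    rw [← mul_pow]
    simp
  show φ (Polynomial.discr f) = (((-1) ^ e : ℤ) : Spl f) * a ^ (2 * f.natDegree - 2) *
          ∏ i, ∏ j ∈ Finset.univ.erase i, (x i - x j)
  have h4 : a * φ (Polynomial.discr f) = a * ((((-1) ^ e : ℤ) : Spl f) *
      a ^ (2 * f.natDegree - 2) * ∏ i, ∏ j ∈ Finset.univ.erase i, (x i - x j)) := by
    have h5 : a * φ (Polynomial.discr f) =
        (-1) ^ e * ((-1) ^ e * a * φ (Polynomial.discr f)) := by
      calc a * φ (Polynomial.discr f) = 1 * (a * φ (Polynomial.discr f)) := by rw [one_mul]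
        _ = ((-1) ^ e * (-1) ^ e) * (a * φ (Polynomial.discr f)) := by rw [hsq]
        _ = _ := by ring
    rw [h5, ← h1]
    have h6 : a * a ^ (2 * f.natDegree - 2) = a ^ (f.natDegree - 1) * a ^ f.natDegree := by
      rw [← pow_succ', ← pow_add]
      congr 1
      omega
    push_cast
    calc (-1) ^ e * (a ^ (f.natDegree - 1) * (a ^ f.natDegree *
            ∏ i, ∏ j ∈ Finset.univ.erase i, (x i - x j)))
        = (-1) ^ e * (a ^ (f.natDegree - 1) * a ^ f.natDegree) *
            ∏ i, ∏ j ∈ Finset.univ.erase i, (x i - x j) := by ring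
      _ = _ := by rw [← h6]; ring
  exact mul_left_cancel₀ ha0 h4

theorem discr_ne_zero {K : Type} [Field K] [NumberField K] {f : (𝓞 K)[X]}
    (hn : 1 ≤ f.natDegree) (hf : (f.map (algebraMap (𝓞 K) K)).Separable) :
    Polynomial.discr f ≠ 0 := by
  obtain ⟨x, hx, hr⟩ := exists_enum hf
  obtain ⟨u, hu, h⟩ := discr_prod hn hf x hx hr
  intro h0
  rw [h0, map_zero, map_zero] at h
  have hf0 : f ≠ 0 := by
    intro h
    rw [h] at hn
    simp at hn
  have ha0 : algebraMap K (Spl f) (algebraMap (𝓞 K) K f.leadingCoeff) ≠ 0 := by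
    intro h2
    have h3 := (map_eq_zero_iff _ (algebraMap K (Spl f)).injective).mp h2
    have h4 := (map_eq_zero_iff _ (RingOfIntegers.coe_injective (K := K))).mp h3
    exact hf0 (leadingCoeff_eq_zero.mp h4)
  have hu0 : (u : Spl f) ≠ 0 := by
    rcases hu with h | h <;> simp [h]
  have hp : ∏ i, ∏ j ∈ Finset.univ.erase i, (x i - x j) ≠ 0 := by
    rw [Finset.prod_ne_zero_iff]
    intro i _
    rw [Finset.prod_ne_zero_iff]
    intro j hj
    rw [sub_ne_zero]
    intro h
    exact (Finset.ne_of_mem_erase hj) (hx h).symm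
  exact mul_ne_zero (mul_ne_zero hu0 (pow_ne_zero _ ha0)) hp h.symm

private lemma dsc_det {N : ℕ} (A : Matrix (Fin N) (Fin N) ℂ) (r : Fin N) {b H : ℝ} (hH : 1 ≤ H)
    (h1 : ∀ i, i ≠ r → ∀ j, ‖A i j‖ ≤ b * H) (h2 : ∀ j, ‖A r j‖ ≤ b) :
    ‖A.det‖ ≤ N.factorial * b ^ N * H ^ (N - 1) := by
  have hN : 0 < N := r.pos
  have hH0 : 0 < H := by linarith
  set A' := A.updateRow r ((H : ℂ) • A r) with hA'
  have hdet : A'.det = H * A.det := by
    rw [hA', Matrix.det_updateRow_smul, Matrix.updateRow_eq_self]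
  have hent : ∀ i j, (IsAbsoluteValue.toAbsoluteValue (norm : ℂ → ℝ)) (A' i j) ≤ b * H := by
    intro i j
    show ‖A' i j‖ ≤ b * H
    by_cases hi : i = r
    · subst hi
      rw [hA', Matrix.updateRow_self, Pi.smul_apply, smul_eq_mul, norm_mul, Complex.norm_real,
        Real.norm_eq_abs, abs_of_pos hH0, mul_comm]
      exact mul_le_mul_of_nonneg_right (h2 j) hH0.le
    · rw [hA', Matrix.updateRow_ne hi]
      exact h1 i hi j
  have h3 := Matrix.det_le hent
  have h4 : ‖A'.det‖ ≤ N.factorial • (b * H) ^ N := by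
    simpa using h3
  rw [hdet, norm_mul, Complex.norm_real, Real.norm_eq_abs, abs_of_pos hH0, nsmul_eq_mul,
    mul_pow] at h4
  have h5 : H ^ N = H * H ^ (N - 1) := by
    rw [← pow_succ']
    congr 1
    omega
  rw [h5] at h4
  have h6 : H * ‖A.det‖ ≤ H * (N.factorial * b ^ N * H ^ (N - 1)) := by
    calc H * ‖A.det‖ ≤ _ := h4
      _ = _ := by ring
  exact le_of_mul_le_mul_left h6 hH0

theorem discr_bound (n : ℕ) (hn : 1 ≤ n) : ∃ C : ℝ, 1 ≤ C ∧
    ∀ (K : Type) [Field K] [NumberField K] (H : ℝ), 1 ≤ H → ∀ f : (𝓞 K)[X], f.natDegree = n →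
      (∀ i, f.coeff i ∈ FreyAvg.Box K H) → Polynomial.discr f ∈ FreyAvg.Box K (C * H ^ (2 * n - 2)) := by
  refine ⟨(n - 1 + n).factorial * (n : ℝ) ^ (n - 1 + n), ?_, ?_⟩
  · have h1 : (1 : ℝ) ≤ (n - 1 + n).factorial := by
      exact_mod_cast Nat.one_le_iff_ne_zero.mpr (Nat.factorial_ne_zero _)
    have h2 : (1 : ℝ) ≤ (n : ℝ) ^ (n - 1 + n) := one_le_pow₀ (by exact_mod_cast hn)
    nlinarith
  intro K _ _ H hH f hfn hbox σ
  set ψ : 𝓞 K →+* ℂ := σ.comp (algebraMap (𝓞 K) K) with hψ
  have hH0 : 0 ≤ H := by linarith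
  have hn1 : (1 : ℝ) ≤ n := by exact_mod_cast hn
  have hcoeff : ∀ k, ‖ψ (f.coeff k)‖ ≤ n * H := by
    intro k
    have := hbox k σ
    calc ‖ψ (f.coeff k)‖ ≤ H := this
      _ = 1 * H := (one_mul H).symm
      _ ≤ n * H := by gcongr
  have hder : ∀ k, ‖ψ (f.derivative.coeff k)‖ ≤ n * H := by
    intro k
    by_cases hk : k + 1 ≤ n
    · rw [coeff_derivative, map_mul, norm_mul]
      have h1 : ‖ψ (f.coeff (k + 1))‖ ≤ H := hbox (k + 1) σ
      have h2 : ‖ψ ((k : 𝓞 K) + 1)‖ ≤ n := by
        have : ψ ((k : 𝓞 K) + 1) = ((k + 1 : ℕ) : ℂ) := by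
          push_cast
          simp
        rw [this, Complex.norm_natCast]
        exact_mod_cast hk
      calc ‖ψ (f.coeff (k + 1))‖ * ‖ψ ((k : 𝓞 K) + 1)‖ ≤ H * n := by gcongr
        _ = n * H := mul_comm _ _
    · rw [coeff_derivative, coeff_eq_zero_of_natDegree_lt (by omega)]
      simp only [zero_mul, map_zero, norm_zero]
      positivity
  show ‖ψ (Polynomial.discr f)‖ ≤ _
  rw [Polynomial.discr, map_mul, norm_mul, map_pow, map_neg, map_one, norm_pow, norm_neg,
    norm_one, one_pow, mul_one, RingHom.map_det]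
  have hr : 2 * f.natDegree - 2 < f.natDegree - 1 + f.natDegree := by omega
  have h0 : f.natDegree ≠ 0 := by omega
  have hb := dsc_det (ψ.mapMatrix f.sylvesterDeriv) ⟨2 * f.natDegree - 2, hr⟩ (b := n) hH
    (by
      intro i hi j
      rw [RingHom.mapMatrix_apply, Matrix.map_apply, sylvesterDeriv, dif_neg h0,
        Matrix.updateRow_ne hi, sylvester, Matrix.of_apply]
      refine Fin.addCases (fun j₁ => ?_) (fun j₁ => ?_) j
      · rw [Fin.addCases_left]
        split_ifs
        · exact hcoeff _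
        · simp only [map_zero, norm_zero]
          positivity
      · rw [Fin.addCases_right]
        split_ifs
        · exact hder _
        · simp only [map_zero, norm_zero]
          positivity)
    (by
      intro j
      rw [RingHom.mapMatrix_apply, Matrix.map_apply, sylvesterDeriv, dif_neg h0,
        Matrix.updateRow_self]
      split_ifs
      · simpa using hn1
      · rw [map_natCast, Complex.norm_natCast, hfn]
      · simp)
  refine hb.trans (le_of_eq ?_)
  have e1 : f.natDegree - 1 + f.natDegree = n - 1 + n := by rw [hfn]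
  have e2 : n - 1 + n - 1 = 2 * n - 2 := by omega
  rw [e1, e2]

end FreySparse
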