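import Pool.Agent.Lib.MP_6babc4_nt.Sp.Bas

/-!
# Module Fld: a small generator of a number field (35 minutes)

PROOF. Mathlib's `NumberField.exists_primitive_element_lt_of_isReal` (if `M` has a real place) and
`NumberField.exists_primitive_element_lt_of_isComplex` (if not), as in the proof of Hermite's
theorem in `Mathlib/NumberTheory/NumberField/Discriminant/Basic.lean` (`minkowskiBound_lt_boundOfDiscBdd`
etc.): `minkowskiBound M 1 = volume (fundamental domain) * 2 ^ finrank` `= 2^(-r₂) √|D| 2^(degree) ≤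
2^N √|D_M|` (`volume_fundamentalDomain_latticeBasis`, `minkowskiBound`; up to the exact shape), the
factors `convexBodyLTFactor` and `convexBodyLT'Factor` are at least `1`
(`one_le_convexBodyLTFactor`, `one_le_convexBodyLT'Factor`), so one can take
`B = 2^N √|D_M| + 1`, and all the infinite places of `θ` are at most `max B 1` resp.
`√(1 + B²) ≤ 1 + B`; `√|D_M| ≥ 1`, so `C = 2^N + 2` will do. (If `N = 0` there is no `M`.)
-/

open Polynomial NumberField Module

namespace FreySparse

section Fld
open scoped NNReal ENNReal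
open NumberField.InfinitePlace NumberField.mixedEmbedding MeasureTheory ENNReal

private noncomputable def fldB (M : Type) [Field M] [NumberField M] (N : ℕ) : ℝ≥0 :=
  NNReal.sqrt ‖NumberField.discr M‖₊ * (2 : ℝ≥0) ^ N + 1

private lemma fld_mink (M : Type) [Field M] [NumberField M] {N : ℕ} (h : finrank ℚ M ≤ N) :
    minkowskiBound M ↑1 < fldB M N := by
  have h0 : fldB M N - 1 < fldB M N := by
    simp_rw [fldB, add_tsub_cancel_right, lt_add_iff_pos_right, zero_lt_one]
  refine lt_of_le_of_lt ?_ (coe_lt_coe.mpr h0)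
  rw [minkowskiBound, volume_fundamentalDomain_fractionalIdealLatticeBasis, fldB,
    add_tsub_cancel_right, Units.val_one, FractionalIdeal.absNorm_one, Rat.cast_one,
    ENNReal.ofReal_one, one_mul, mixedEmbedding.finrank, volume_fundamentalDomain_latticeBasis,
    coe_mul, ENNReal.coe_pow, coe_ofNat,
    show ((NNReal.sqrt ‖NumberField.discr M‖₊ : ℝ≥0) : ℝ≥0∞) =
      (1 : ℝ≥0∞) * (NNReal.sqrt ‖NumberField.discr M‖₊ : ℝ≥0) by rw [one_mul]]
  gcongr
  · exact pow_le_one₀ (by positivity) (by simp)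
  · norm_num
  · norm_num

theorem small_gen (N : ℕ) : ∃ C : ℝ, 1 ≤ C ∧
    ∀ (M : Type) [Field M] [NumberField M], finrank ℚ M ≤ N →
      ∃ θ : 𝓞 M, IntermediateField.adjoin ℚ {(θ : M)} = ⊤ ∧
        ∀ σ : M →+* ℂ, ‖σ θ‖ ≤ C * √|(NumberField.discr M : ℝ)| := by
  refine ⟨2 ^ N + 2, by nlinarith [pow_pos (two_pos : (0 : ℝ) < 2) N], ?_⟩
  intro M _ _ hM
  have hlt := fld_mink M hM
  have hs : 1 ≤ √|(NumberField.discr M : ℝ)| := by
    rw [Real.one_le_sqrt]
    have : (1 : ℤ) ≤ |NumberField.discr M| := Int.one_le_abs (discr_ne_zero M)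
    exact_mod_cast this
  have hB : (fldB M N : ℝ) = √|(NumberField.discr M : ℝ)| * 2 ^ N + 1 := by
    simp [fldB, Int.norm_eq_abs]
  have hB1 : (fldB M N : ℝ) + 1 ≤ (2 ^ N + 2) * √|(NumberField.discr M : ℝ)| := by
    rw [hB]
    nlinarith
  have hB0 : (0 : ℝ) ≤ fldB M N := NNReal.coe_nonneg _
  obtain ⟨w₀⟩ : Nonempty (InfinitePlace M) := inferInstance
  by_cases hw : IsReal w₀
  · have h1 : minkowskiBound M ↑1 < (convexBodyLTFactor M) * fldB M N := by
      calc minkowskiBound M ↑1 < fldB M N := hlt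
        _ = 1 * fldB M N := by rw [one_mul]
        _ ≤ convexBodyLTFactor M * fldB M N := by
            gcongr; exact mod_cast one_le_convexBodyLTFactor M
    obtain ⟨θ, hθ, hθ'⟩ := exists_primitive_element_lt_of_isReal M hw h1
    refine ⟨θ, hθ, ?_⟩
    have h2 : ∀ w : InfinitePlace M, w θ ≤ (2 ^ N + 2) * √|(NumberField.discr M : ℝ)| := by
      intro w
      have h3 := (hθ' w).le
      have h4 : ((max (fldB M N) 1 : ℝ≥0) : ℝ) ≤ (fldB M N : ℝ) + 1 := by
        rw [NNReal.coe_max]
        exact max_le (by linarith) (by simp)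
      exact (h3.trans h4).trans hB1
    exact (InfinitePlace.le_iff_le (θ : M) _).mp h2
  · have hw' : IsComplex w₀ := not_isReal_iff_isComplex.mp hw
    have h1 : minkowskiBound M ↑1 < (convexBodyLT'Factor M) * fldB M N := by
      calc minkowskiBound M ↑1 < fldB M N := hlt
        _ = 1 * fldB M N := by rw [one_mul]
        _ ≤ convexBodyLT'Factor M * fldB M N := by
            gcongr; exact mod_cast one_le_convexBodyLT'Factor M
    obtain ⟨θ, hθ, hθ'⟩ := exists_primitive_element_lt_of_isComplex M hw' h1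
    refine ⟨θ, hθ, ?_⟩
    have h2 : ∀ w : InfinitePlace M, w θ ≤ (2 ^ N + 2) * √|(NumberField.discr M : ℝ)| := by
      intro w
      have h3 := (hθ' w).le
      have h4 : √(1 + (fldB M N : ℝ) ^ 2) ≤ (fldB M N : ℝ) + 1 := by
        rw [Real.sqrt_le_left (by linarith)]
        nlinarith
      exact (h3.trans h4).trans hB1
    exact (InfinitePlace.le_iff_le (θ : M) _).mp h2

end Fld

end FreySparse
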