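import Pool.Agent.Lib.MP_6babc4_nt.Sp.Fin

/-!
# Module RamC: an ideal divisible by the ramified primes (20 minutes)

PROOF. `J = (ℓ) ∏_{v bad} v` (finite product over `bad_finite`); its norm is `ℓ^d cond ℓ f`
(`cond_eq`, `map_prod`, `Ideal.absNorm` of `span {(ℓ : 𝓞 K)}` is `ℓ ^ [K : ℚ]`:
`Ideal.absNorm_span_natCast` or `Ideal.absNorm_span_singleton` with `Algebra.norm_natCast`). If `P^2`
divides `v 𝓞 L` then `v` is `Ramified f`, so either `ℓ ∈ v`, and `v` divides `(ℓ)`, or `v` is bad.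
-/

open Polynomial NumberField IsDedekindDomain Module

namespace FreySparse

variable {K : Type} [Field K] [NumberField K]

theorem exists_ram_ideal {ℓ : ℕ} (hℓ : ℓ.Prime) {f : (𝓞 K)[X]}
    (hf : (f.map (algebraMap (𝓞 K) K)).Separable) :
    ∃ J : Ideal (𝓞 K), J ≠ ⊥ ∧ Ideal.absNorm J = ℓ ^ finrank ℚ K * cond ℓ f ∧
      ∀ (v : HeightOneSpectrum (𝓞 K)) (P : HeightOneSpectrum (𝓞 (Spl f))),
        P.asIdeal ^ 2 ∣ v.asIdeal.map (algebraMap (𝓞 K) (𝓞 (Spl f))) → v.asIdeal ∣ J := by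
  classical
  refine ⟨Ideal.span {((ℓ : ℕ) : 𝓞 K)} * ∏ v ∈ (bad_finite hℓ hf).toFinset, v.asIdeal,
    ?_, ?_, ?_⟩
  · rw [← Ideal.zero_eq_bot]
    refine mul_ne_zero ?_ ?_
    · rw [Ideal.zero_eq_bot, Ne, Ideal.span_singleton_eq_bot]
      exact_mod_cast hℓ.ne_zero
    · rw [Finset.prod_ne_zero_iff]
      intro v _
      rw [Ideal.zero_eq_bot]
      exact v.ne_bot
  · rw [map_mul, map_prod, Ideal.absNorm_span_natCast, RingOfIntegers.rank, cond_eq hℓ hf]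
  · intro v P hP
    by_cases hl : (ℓ : 𝓞 K) ∈ v.asIdeal
    · refine Dvd.dvd.mul_right ?_ _
      rw [Ideal.dvd_span_singleton]
      exact hl
    · refine Dvd.dvd.mul_left ?_ _
      refine Finset.dvd_prod_of_mem (fun v : HeightOneSpectrum (𝓞 K) => v.asIdeal) ?_
      rw [Set.Finite.mem_toFinset]
      exact ⟨hl, Or.inl ⟨P, hP⟩⟩

end FreySparse
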