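import Pool.Agent.Lib.MP_6babc4_nt.Sp.DisL
import Pool.Agent.Lib.MP_6babc4_nt.Sp.Fld
import Pool.Agent.Lib.MP_6babc4_nt.Sp.RamC

/-!
# Module Gen: small generators of the fields generated by the roots (50 minutes)

PROOF. `L = Spl f` is Galois over `K` (`IsGalois.of_separable_splitting_field`), of degree at most
`n!` (`Polynomial.SplittingField` / `Polynomial.Gal` injects into the permutations of the roots; or
any other bound depending only on `n`, e.g. `Polynomial.IsSplittingField`...; any function of `n` is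
enough). Let `J` be the ideal of `exists_ram_ideal`, `N(J) = ℓ^d cond`. Let `M = K⟮x⟯`, of degree
`t ≤ n` over `K` (the minimal polynomial of `x` divides `f`), `t d ≤ n d` over `ℚ`. By `discr_sub`
`|D_M| ≤ (|D_K| (n!)^d ℓ^d cond)^t ≤ ((n!)^d ℓ^d Y)^n`. By `small_gen` with `N = n d` there is an
algebraic integer `θ ∈ M` with `ℚ(θ) = M` and `|σ θ| ≤ C₀ √|D_M| ≤ C₀ ((n!)^d ℓ^d)^(n/2) Y^(n/2)`
for all `σ : M → ℂ`, in particular for the restrictions of the `τ : L → ℂ`. The degree of the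
minimal polynomial of `θ` is `[M : ℚ] ≤ n d`. Every `y ∈ M` is in `ℚ(θ)`
(`IntermediateField.adjoin ℚ {θ}` in `L` is the image of the same in `M`:
`IntermediateField.adjoin_map`).
-/

open Polynomial NumberField IsDedekindDomain Module

namespace FreySparse

lemma gen_finrank_spl {K : Type} [Field K] (p : K[X]) (hp : p.Separable) :
    finrank K p.SplittingField ≤ p.natDegree.factorial := by
  classical
  have : Fact ((p.map (algebraMap K p.SplittingField)).Splits) := ⟨SplittingField.splits p⟩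
  rw [← Gal.card_of_separable hp]
  have h1 : Nat.card p.Gal ≤ Nat.card (Equiv.Perm (p.rootSet p.SplittingField)) :=
    Nat.card_le_card_of_injective _ (Gal.galActionHom_injective p p.SplittingField)
  refine h1.trans ?_
  rw [Nat.card_eq_fintype_card, Fintype.card_perm,
    card_rootSet_eq_natDegree hp (SplittingField.splits p)]

lemma gen_aux (A Y C₀ D : ℝ) (n : ℕ) (hA : 1 ≤ A) (hY : 1 ≤ Y) (hC : 1 ≤ C₀)
    (hD : D ≤ (A * Y) ^ n) : C₀ * √D ≤ C₀ * A ^ n * Y ^ ((n : ℝ) / 2) := by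
  have hA0 : 0 ≤ A := by linarith
  have hY0 : 0 ≤ Y := by linarith
  have h1 : √D ≤ √(A ^ n) * √(Y ^ n) := by
    rw [← Real.sqrt_mul (pow_nonneg hA0 n), ← mul_pow]
    exact Real.sqrt_le_sqrt hD
  have h2 : √(A ^ n) ≤ A ^ n := by
    have h3 : (1 : ℝ) ≤ A ^ n := one_le_pow₀ hA
    rw [Real.sqrt_le_left (by linarith)]
    nlinarith
  have h4 : √(Y ^ n) = Y ^ ((n : ℝ) / 2) := by
    rw [Real.sqrt_eq_rpow, ← Real.rpow_natCast, ← Real.rpow_mul hY0]
    congr 1
    ring
  rw [h4] at h1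
  have h5 : 0 ≤ Y ^ ((n : ℝ) / 2) := Real.rpow_nonneg hY0 _
  calc C₀ * √D ≤ C₀ * (√(A ^ n) * Y ^ ((n : ℝ) / 2)) :=
        mul_le_mul_of_nonneg_left h1 (by linarith)
    _ ≤ C₀ * (A ^ n * Y ^ ((n : ℝ) / 2)) :=
        mul_le_mul_of_nonneg_left (mul_le_mul_of_nonneg_right h2 h5) (by linarith)
    _ = C₀ * A ^ n * Y ^ ((n : ℝ) / 2) := by ring

theorem root_gen (d n ℓ : ℕ) (hn : 1 ≤ n) (hℓ : ℓ.Prime) : ∃ C : ℝ, 1 ≤ C ∧
    ∀ (K : Type) [Field K] [NumberField K], finrank ℚ K = d →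
      ∀ f : (𝓞 K)[X], f.natDegree = n → (f.map (algebraMap (𝓞 K) K)).Separable →
        ∀ Y : ℝ, 1 ≤ Y → |(NumberField.discr K : ℝ)| * cond ℓ f ≤ Y → ∀ x ∈ rts f,
          ∃ θ : Spl f, IsIntegral ℤ θ ∧ (minpoly ℚ θ).natDegree ≤ n * d ∧
            (∀ τ : Spl f →+* ℂ, ‖τ θ‖ ≤ C * Y ^ ((n : ℝ) / 2)) ∧
            ∀ y ∈ IntermediateField.adjoin K {x}, y ∈ IntermediateField.adjoin ℚ {θ} := by
  obtain ⟨C₀, hC₀, hgen⟩ := small_gen (n * d)
  set A : ℝ := (n.factorial : ℝ) ^ d * (ℓ : ℝ) ^ d with hAdef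
  have hA : 1 ≤ A := by
    have h1 : (1 : ℝ) ≤ (n.factorial : ℝ) := by exact_mod_cast Nat.succ_le_of_lt n.factorial_pos
    have h2 : (1 : ℝ) ≤ (ℓ : ℝ) := by exact_mod_cast hℓ.one_le
    exact one_le_mul_of_one_le_of_one_le (one_le_pow₀ h1) (one_le_pow₀ h2)
  refine ⟨C₀ * A ^ n, one_le_mul_of_one_le_of_one_le hC₀ (one_le_pow₀ hA), ?_⟩
  intro K _ _ hK f hfn hf Y hY hYc x hx
  have hgal : IsGalois K (Spl f) := IsGalois.of_separable_splitting_field hf
  obtain ⟨J, hJ0, hJn, hJ⟩ := exists_ram_ideal (K := K) hℓ hf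
  have hdeg : (f.map (algebraMap (𝓞 K) K)).natDegree = n := by
    rw [natDegree_map_eq_of_injective (FaithfulSMul.algebraMap_injective (𝓞 K) K), hfn]
  have hp0 : f.map (algebraMap (𝓞 K) K) ≠ 0 := hf.ne_zero
  let M : IntermediateField K (Spl f) := IntermediateField.adjoin K {x}
  have : NumberField M := NumberField.of_module_finite K M
  have hxint : IsIntegral K x := IsIntegral.of_finite K x
  have hMfin : finrank K M ≤ n := by
    change finrank K (IntermediateField.adjoin K {x}) ≤ n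
    rw [IntermediateField.adjoin.finrank hxint, ← hdeg]
    exact natDegree_le_of_dvd (minpoly.dvd K x hx) hp0
  have hMQ : finrank ℚ M ≤ n * d := by
    rw [← finrank_mul_finrank ℚ K M, hK, mul_comm]
    exact Nat.mul_le_mul_right d hMfin
  have hdisc := discr_sub K (Spl f) J hJ0 hJ M
  have hLfin : finrank K (Spl f) ≤ n.factorial := by
    have h := gen_finrank_spl _ hf
    rwa [hdeg] at h
  have hdiscR : |(NumberField.discr M : ℝ)| ≤ (A * Y) ^ n := by
    have h1 : ((NumberField.discr M).natAbs : ℝ) ≤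
        (((NumberField.discr K).natAbs : ℝ) * (finrank K (Spl f) : ℝ) ^ d *
          ((ℓ : ℝ) ^ d * (cond ℓ f : ℝ))) ^ finrank K M := by
      have h2 : ((NumberField.discr M).natAbs : ℝ) ≤
          ((((NumberField.discr K).natAbs * finrank K (Spl f) ^ finrank ℚ K * Ideal.absNorm J) ^
            finrank K M : ℕ) : ℝ) := by exact_mod_cast hdisc
      refine h2.trans (le_of_eq ?_)
      rw [hJn, hK]
      push_cast
      ring
    have hcast : ((NumberField.discr M).natAbs : ℝ) = |(NumberField.discr M : ℝ)| := by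
      rw [Nat.cast_natAbs]
      push_cast
      rfl
    have hcastK : ((NumberField.discr K).natAbs : ℝ) = |(NumberField.discr K : ℝ)| := by
      rw [Nat.cast_natAbs]
      push_cast
      rfl
    rw [hcast, hcastK] at h1
    have h3 : |(NumberField.discr K : ℝ)| * (finrank K (Spl f) : ℝ) ^ d *
          ((ℓ : ℝ) ^ d * (cond ℓ f : ℝ)) ≤ A * Y := by
      have h4 : (finrank K (Spl f) : ℝ) ^ d ≤ (n.factorial : ℝ) ^ d :=
        pow_le_pow_left₀ (Nat.cast_nonneg _) (by exact_mod_cast hLfin) d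
      have h5 : 0 ≤ |(NumberField.discr K : ℝ)| * cond ℓ f := by positivity
      calc |(NumberField.discr K : ℝ)| * (finrank K (Spl f) : ℝ) ^ d *
            ((ℓ : ℝ) ^ d * (cond ℓ f : ℝ))
          = (finrank K (Spl f) : ℝ) ^ d * (ℓ : ℝ) ^ d *
              (|(NumberField.discr K : ℝ)| * cond ℓ f) := by ring
        _ ≤ (n.factorial : ℝ) ^ d * (ℓ : ℝ) ^ d * (|(NumberField.discr K : ℝ)| * cond ℓ f) := by
            refine mul_le_mul_of_nonneg_right ?_ h5
            exact mul_le_mul_of_nonneg_right h4 (by positivity)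
        _ ≤ A * Y := mul_le_mul_of_nonneg_left hYc (by linarith)
    refine h1.trans ?_
    have h6 : 1 ≤ A * Y := one_le_mul_of_one_le_of_one_le hA hY
    refine (pow_le_pow_left₀ (by positivity) h3 _).trans ?_
    exact pow_le_pow_right₀ h6 hMfin
  obtain ⟨θ₀, hθtop, hθ⟩ := hgen M hMQ
  refine ⟨algebraMap M (Spl f) (θ₀ : M), ?_, ?_, ?_, ?_⟩
  · have h1 : IsIntegral ℤ (θ₀ : M) := θ₀.isIntegral_coe
    exact h1.map ((algebraMap M (Spl f)).toIntAlgHom)
  · rw [minpoly.algebraMap_eq (FaithfulSMul.algebraMap_injective M (Spl f))]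
    exact (minpoly.natDegree_le _).trans hMQ
  · intro τ
    have h1 := hθ (τ.comp (algebraMap M (Spl f)))
    rw [RingHom.comp_apply] at h1
    exact h1.trans (gen_aux A Y C₀ _ n hA hY hC₀ hdiscR)
  · intro y hy
    let φ : M →ₐ[ℚ] Spl f := IsScalarTower.toAlgHom ℚ M (Spl f)
    have hφ : ∀ z : M, φ z = algebraMap M (Spl f) z := fun z => rfl
    have h1 : (⟨y, hy⟩ : M) ∈ IntermediateField.adjoin ℚ {((θ₀ : M))} := by
      rw [hθtop]
      exact IntermediateField.mem_top
    have h2 : φ ⟨y, hy⟩ ∈ (IntermediateField.adjoin ℚ {((θ₀ : M))}).map φ := ⟨_, h1, rfl⟩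
    rw [IntermediateField.adjoin_map, Set.image_singleton] at h2
    exact h2

end FreySparse
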