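import Pool.Agent.Lib.MP_6babc4_nt.Sp.Defs

/-!
# Module Nrm: integers with restricted prime factors (30 minutes)

PROOF (Rankin). Let `S` be the set of the prime factors of `w`. The number of the `k ≤ X` with all
the prime factors in `S` is at most
`∑ (X / k)^ε ≤ X^ε ∏_{p ∈ S} (1 - p^(-ε))^(-1)`
(induct on `S`, or use `Nat.factoredNumbers` / `Nat.smoothNumbers` and
`EulerProduct.summable_and_hasSum_factoredNumbers_prod_filter_prime_tsum`, or the explicit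
injection `k ↦ (v_p(k))_p`). Each factor with `p^ε ≥ 2` is at most `2 ≤ p^ε`, and the finitely many
others (`p^ε < 2`) contribute a constant `C(ε) = ∏_{p^ε < 2} (1 - p^(-ε))^(-1)`. So the product is at
most `C(ε) ∏_{p | w} p^ε ≤ C(ε) w^ε`.

ALTERNATIVE without Euler products: the number of the `k ≤ X` with all prime factors in `S`,
`|S| = r`, is at most `(1 + log X / log 2)^r`-like, which is not enough; use Rankin. The version for
ideals with the same proof is `FreyAvg.rankin` in `AvgIdeals.lean` (adapt it, or apply it to `K = ℚ`).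
-/

namespace FreySparse

/-- the completely multiplicative function `n ↦ n^(-ε)` -/
private noncomputable def nrmF (ε : ℝ) : ℕ →* ℝ where
  toFun n := (n : ℝ) ^ (-ε)
  map_one' := by simp
  map_mul' m n := by
    push_cast
    rw [Real.mul_rpow (Nat.cast_nonneg _) (Nat.cast_nonneg _)]

private lemma nrmF_apply (ε : ℝ) (n : ℕ) : nrmF ε n = (n : ℝ) ^ (-ε) := rfl

private lemma nrmF_lt {ε : ℝ} (hε : 0 < ε) {p : ℕ} (hp : p.Prime) : nrmF ε p < 1 := by
  rw [nrmF_apply]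
  exact Real.rpow_lt_one_of_one_lt_of_neg (by exact_mod_cast hp.one_lt) (by linarith)

private lemma nrmF_nonneg (ε : ℝ) (n : ℕ) : 0 ≤ nrmF ε n := by
  rw [nrmF_apply]
  exact Real.rpow_nonneg (Nat.cast_nonneg _) _

private lemma nrm_rankin {ε : ℝ} (hε : 0 < ε) {X : ℝ} (hX : 1 ≤ X) (S T : Finset ℕ)
    (hS : ∀ p ∈ S, p.Prime)
    (hT : ∀ k ∈ T, 1 ≤ k ∧ (k : ℝ) ≤ X ∧ ∀ p : ℕ, p.Prime → p ∣ k → p ∈ S) :
    (T.card : ℝ) ≤ X ^ ε * ∏ p ∈ S, (1 - nrmF ε p)⁻¹ := by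
  have hsum := (EulerProduct.summable_and_hasSum_factoredNumbers_prod_filter_prime_geometric
    (f := nrmF ε) (fun {p} hp => by
      rw [Real.norm_of_nonneg (nrmF_nonneg ε p)]
      exact nrmF_lt hε hp) S).2
  rw [Finset.filter_true_of_mem hS] at hsum
  have hsum2 := (hasSum_subtype_iff_indicator (f := fun m : ℕ => nrmF ε m)
    (s := Nat.factoredNumbers S)).1 hsum
  have h1 : ∑ k ∈ T, (Nat.factoredNumbers S).indicator (fun m : ℕ => nrmF ε m) k ≤
      ∏ p ∈ S, (1 - nrmF ε p)⁻¹ := by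
    apply sum_le_hasSum T _ hsum2
    intro k _
    exact Set.indicator_nonneg (fun m _ => nrmF_nonneg ε m) k
  have h2 : ∀ k ∈ T, (1 : ℝ) ≤
      X ^ ε * (Nat.factoredNumbers S).indicator (fun m : ℕ => nrmF ε m) k := by
    intro k hk
    obtain ⟨hk1, hk2, hk3⟩ := hT k hk
    have hmem : k ∈ Nat.factoredNumbers S := Nat.mem_factoredNumbers'.2 hk3
    rw [Set.indicator_of_mem hmem, nrmF_apply]
    have hk0 : (0 : ℝ) < k := by exact_mod_cast hk1
    rw [Real.rpow_neg hk0.le, ← div_eq_mul_inv, one_le_div (Real.rpow_pos_of_pos hk0 _)]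
    exact Real.rpow_le_rpow hk0.le hk2 hε.le
  have h3 : (T.card : ℝ) ≤
      ∑ k ∈ T, X ^ ε * (Nat.factoredNumbers S).indicator (fun m : ℕ => nrmF ε m) k := by
    calc (T.card : ℝ) = ∑ _k ∈ T, (1 : ℝ) := by simp
      _ ≤ _ := Finset.sum_le_sum h2
  rw [← Finset.mul_sum] at h3
  exact le_trans h3 (mul_le_mul_of_nonneg_left h1 (Real.rpow_nonneg (by linarith) _))

private lemma nrm_factor_one_le {ε : ℝ} (hε : 0 < ε) {p : ℕ} (hp : p.Prime) :
    1 ≤ (1 - nrmF ε p)⁻¹ := by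
  have h1 := nrmF_lt hε hp
  have h2 := nrmF_nonneg ε p
  rw [one_le_inv₀ (by linarith)]
  linarith

theorem smooth_count {ε : ℝ} (hε : 0 < ε) : ∃ C : ℝ, 1 ≤ C ∧ ∀ X : ℝ, 1 ≤ X → ∀ w : ℕ, 1 ≤ w →
    {k : ℕ | 1 ≤ k ∧ (k : ℝ) ≤ X ∧ ∀ p : ℕ, p.Prime → p ∣ k → p ∣ w}.Finite ∧
    ({k : ℕ | 1 ≤ k ∧ (k : ℝ) ≤ X ∧ ∀ p : ℕ, p.Prime → p ∣ k → p ∣ w}.ncard : ℝ) ≤
      C * (X * w) ^ ε := by
  classical
  set M : ℕ := ⌈(2 : ℝ) ^ (1 / ε)⌉₊ with hM
  set U : Finset ℕ := (Finset.range (M + 1)).filter Nat.Prime with hU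
  set A : ℕ → ℝ := fun p => (1 - nrmF ε p)⁻¹ with hA
  have hA1 : ∀ p : ℕ, p.Prime → 1 ≤ A p := fun p hp => nrm_factor_one_le hε hp
  have hUp : ∀ p ∈ U, p.Prime := fun p hp => (Finset.mem_filter.1 hp).2
  have hone : ∀ V : Finset ℕ, (∀ p ∈ V, p.Prime) → 1 ≤ ∏ p ∈ V, A p := by
    intro V hV
    exact Finset.prod_induction A (fun x => 1 ≤ x)
      (fun a b ha hb => one_le_mul_of_one_le_of_one_le ha hb) le_rfl
      (fun p hp => hA1 p (hV p hp))
  refine ⟨∏ p ∈ U, A p, hone U hUp, ?_⟩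
  intro X hX w hw
  have hX0 : 0 ≤ X := by linarith
  have hfin : {k : ℕ | 1 ≤ k ∧ (k : ℝ) ≤ X ∧ ∀ p : ℕ, p.Prime → p ∣ k → p ∣ w}.Finite := by
    apply Set.Finite.subset (Finset.finite_toSet (Finset.range (⌊X⌋₊ + 1)))
    intro k hk
    rw [Finset.mem_coe, Finset.mem_range]
    exact Nat.lt_succ_of_le (Nat.le_floor hk.2.1)
  refine ⟨hfin, ?_⟩
  have hw0 : w ≠ 0 := by omega
  set S : Finset ℕ := w.primeFactors with hS
  have hSp : ∀ p ∈ S, p.Prime := fun p hp => Nat.prime_of_mem_primeFactors hp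
  have h1 := nrm_rankin hε hX S hfin.toFinset hSp (by
    intro k hk
    rw [Set.Finite.mem_toFinset] at hk
    exact ⟨hk.1, hk.2.1, fun p hp hpk => Nat.mem_primeFactors.2 ⟨hp, hk.2.2 p hp hpk, hw0⟩⟩)
  rw [Set.ncard_eq_toFinset_card _ hfin]
  refine le_trans h1 ?_
  -- the product of the Euler factors
  have h2 : ∀ p ∈ S, A p ≤ (if p ∈ U then A p else 1) * (p : ℝ) ^ ε := by
    intro p hp
    have hpp := hSp p hp
    have hp1 : (1 : ℝ) ≤ p := by exact_mod_cast hpp.one_lt.le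
    split_ifs with h
    · have h3 : (1 : ℝ) ≤ (p : ℝ) ^ ε := Real.one_le_rpow hp1 hε.le
      have h4 := hA1 p hpp
      nlinarith
    · rw [one_mul]
      have h3 : M < p := by
        by_contra h5
        apply h
        rw [hU, Finset.mem_filter, Finset.mem_range]
        exact ⟨by omega, hpp⟩
      have h4 : (2 : ℝ) ^ (1 / ε) ≤ p := by
        have h5 : (2 : ℝ) ^ (1 / ε) ≤ M := Nat.le_ceil _
        have h6 : (M : ℝ) ≤ p := by exact_mod_cast h3.le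
        linarith
      have h5 : (2 : ℝ) ≤ (p : ℝ) ^ ε := by
        calc (2 : ℝ) = ((2 : ℝ) ^ (1 / ε)) ^ ε := by
              rw [← Real.rpow_mul (by norm_num), one_div, inv_mul_cancel₀ hε.ne', Real.rpow_one]
          _ ≤ (p : ℝ) ^ ε := Real.rpow_le_rpow (by positivity) h4 hε.le
      have h6 : nrmF ε p ≤ 1 / 2 := by
        rw [nrmF_apply, Real.rpow_neg (by linarith), ← one_div]
        exact one_div_le_one_div_of_le (by norm_num) h5
      have h7 : A p ≤ 2 := by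
        rw [hA]
        simp only
        rw [inv_le_comm₀ (by linarith) (by norm_num)]
        linarith
      linarith
  have h3 : ∏ p ∈ S, A p ≤ (∏ p ∈ S, (if p ∈ U then A p else 1)) * (∏ p ∈ S, (p : ℝ)) ^ ε := by
    rw [← Real.finsetProd_rpow _ _ (fun p _ => Nat.cast_nonneg p), ← Finset.prod_mul_distrib]
    exact Finset.prod_le_prod (fun p hp => le_trans zero_le_one (hA1 p (hSp p hp))) h2
  have h4 : ∏ p ∈ S, (if p ∈ U then A p else 1) ≤ ∏ p ∈ U, A p := by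
    rw [Finset.prod_ite_mem]
    have h5 : (∏ p ∈ U \ (S ∩ U), A p) * ∏ p ∈ S ∩ U, A p = ∏ p ∈ U, A p :=
      Finset.prod_sdiff Finset.inter_subset_right
    rw [← h5]
    have h6 := hone (S ∩ U) (fun p hp => hUp p (Finset.mem_inter.1 hp).2)
    have h7 := hone (U \ (S ∩ U)) (fun p hp => hUp p (Finset.mem_sdiff.1 hp).1)
    nlinarith
  have h5 : (∏ p ∈ S, (p : ℝ)) ≤ w := by
    have h6 : ∏ p ∈ S, p ≤ w := Nat.le_of_dvd (by omega) (Nat.prod_primeFactors_dvd w)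
    have h7 : ((∏ p ∈ S, p : ℕ) : ℝ) ≤ (w : ℝ) := Nat.cast_le.2 h6
    rwa [Nat.cast_prod] at h7
  have h6 : (∏ p ∈ S, (p : ℝ)) ^ ε ≤ (w : ℝ) ^ ε :=
    Real.rpow_le_rpow (Finset.prod_nonneg (fun p _ => Nat.cast_nonneg p)) h5 hε.le
  have h7 : ∏ p ∈ S, A p ≤ (∏ p ∈ U, A p) * (w : ℝ) ^ ε := by
    refine le_trans h3 ?_
    apply mul_le_mul h4 h6 (Real.rpow_nonneg (Finset.prod_nonneg (fun p _ => Nat.cast_nonneg p)) _)
    linarith [hone U hUp]
  calc X ^ ε * ∏ p ∈ S, A p ≤ X ^ ε * ((∏ p ∈ U, A p) * (w : ℝ) ^ ε) :=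
        mul_le_mul_of_nonneg_left h7 (Real.rpow_nonneg hX0 _)
    _ = (∏ p ∈ U, A p) * (X * w) ^ ε := by
        rw [Real.mul_rpow hX0 (Nat.cast_nonneg _)]
        ring

end FreySparse
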