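import Pool.Agent.Lib.MP_6babc4_nt.Sp.Fin

/-!
# Module Sup: the prime divisors of the differences of the roots (35 minutes)

PROOF. Let `δ = a (x - y) ∈ 𝓞 L` (`isIntegral_lc_mul`), `x ≠ y` two roots, and
`w = ℓ * N(a) * cond * excess` (`≥ 1`). Let `P` be a prime of `𝓞 L` containing `δ` and `v` the prime
of `K` below (`exists_below`).
* If `ℓ ∈ v` then `ℓ ∈ P`, `w ∈ P`.
* If `a ∈ v` then `v ∣ (a)`, so `N(a) = Ideal.absNorm (span {a})` is in `(a) ⊆ v` (`Ideal.absNorm_mem`), so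
  `w ∈ P`.
* Otherwise `1 ≤ ord P (a (x - y)) = ord P (x - y)`, so `f` modulo `v` is not separable
  (`ord_eq_zero_of_sep`), so `v` is bad, or `Comp ℓ f v`. Then `N(v) ∣ cond` or `N(v) ∣ excess`
  (`dvd_cond`, `dvd_excess`) and `N(v) ∈ v`, so `w ∈ P`.
So `w` is in every prime ideal containing `δ`, so in the radical of `(δ)` (`Ideal.radical_eq_sInf`;
the zero ideal does not contain `δ ≠ 0`): `δ ∣ w^k` for some `k`.
-/

open Polynomial NumberField IsDedekindDomain Module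

namespace FreySparse

theorem diff_dvd {K : Type} [Field K] [NumberField K] {ℓ : ℕ} (hℓ : ℓ.Prime) {f : (𝓞 K)[X]}
    (hf : (f.map (algebraMap (𝓞 K) K)).Separable) {x y : Spl f} (hx : x ∈ rts f) (hy : y ∈ rts f)
    (hxy : x ≠ y) :
    ∃ δ : 𝓞 (Spl f), δ ≠ 0 ∧ (algebraMap (𝓞 (Spl f)) (Spl f) δ) =
        algebraMap K (Spl f) (algebraMap (𝓞 K) K f.leadingCoeff) * (x - y) ∧
      ∃ k : ℕ, δ ∣ ((ℓ * Ideal.absNorm (Ideal.span {f.leadingCoeff}) * cond ℓ f * excess ℓ f : ℕ) :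
        𝓞 (Spl f)) ^ k := by
  classical
  have hf0 : f ≠ 0 := by
    intro h
    rw [h, Polynomial.map_zero] at hf
    exact not_separable_zero hf
  have ha0 : f.leadingCoeff ≠ 0 := leadingCoeff_ne_zero.mpr hf0
  have hinj : Function.Injective (algebraMap (𝓞 K) (𝓞 (Spl f))) :=
    FaithfulSMul.algebraMap_injective _ _
  have hinjL : Function.Injective (algebraMap (𝓞 (Spl f)) (Spl f)) :=
    FaithfulSMul.algebraMap_injective _ _
  have htow : ∀ β : 𝓞 K, algebraMap (𝓞 (Spl f)) (Spl f) (algebraMap (𝓞 K) (𝓞 (Spl f)) β) =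
      algebraMap K (Spl f) (algebraMap (𝓞 K) K β) := by
    intro β
    rw [← IsScalarTower.algebraMap_apply, ← IsScalarTower.algebraMap_apply]
  have hint : IsIntegral ℤ
      (algebraMap K (Spl f) (algebraMap (𝓞 K) K f.leadingCoeff) * (x - y)) := by
    rw [mul_sub]
    exact (isIntegral_lc_mul hf hx).sub (isIntegral_lc_mul hf hy)
  obtain ⟨δ, hδ⟩ : ∃ δ : 𝓞 (Spl f), algebraMap (𝓞 (Spl f)) (Spl f) δ =
      algebraMap K (Spl f) (algebraMap (𝓞 K) K f.leadingCoeff) * (x - y) := ⟨⟨_, hint⟩, rfl⟩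
  have haL : algebraMap K (Spl f) (algebraMap (𝓞 K) K f.leadingCoeff) ≠ 0 := by
    rw [← htow]
    intro h
    apply ha0
    apply hinj
    rw [map_zero]
    exact (map_eq_zero_iff _ hinjL).mp h
  have hsub : x - y ≠ 0 := sub_ne_zero.mpr hxy
  have hδ0 : δ ≠ 0 := by
    intro h
    rw [h, map_zero] at hδ
    exact mul_ne_zero haL hsub hδ.symm
  refine ⟨δ, hδ0, hδ, ?_⟩
  set w : ℕ := ℓ * Ideal.absNorm (Ideal.span {f.leadingCoeff}) * cond ℓ f * excess ℓ f with hw
  have hmem : ((w : ℕ) : 𝓞 (Spl f)) ∈ (Ideal.span {δ}).radical := by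
    rw [Ideal.radical_eq_sInf, Submodule.mem_sInf]
    rintro J ⟨hJ, hJp⟩
    have hδJ : δ ∈ J := hJ (Ideal.mem_span_singleton_self δ)
    have hJ0 : J ≠ ⊥ := by
      intro h
      rw [h, Submodule.mem_bot] at hδJ
      exact hδ0 hδJ
    let P : HeightOneSpectrum (𝓞 (Spl f)) := ⟨J, hJp, hJ0⟩
    obtain ⟨v, hP⟩ := exists_below (K := K) P
    have key : ∀ m : ℕ, m ∣ w → (m : 𝓞 K) ∈ v.asIdeal → ((w : ℕ) : 𝓞 (Spl f)) ∈ J := by
      intro m hm hv
      obtain ⟨c, hc⟩ := hm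
      have h1 : algebraMap (𝓞 K) (𝓞 (Spl f)) (m : 𝓞 K) ∈ P.asIdeal := (mem_iff_of_above hP _).mpr hv
      rw [map_natCast] at h1
      rw [hc, Nat.cast_mul]
      exact Ideal.mul_mem_right _ J h1
    by_cases h1 : (ℓ : 𝓞 K) ∈ v.asIdeal
    · exact key ℓ ⟨_, by rw [hw, mul_assoc, mul_assoc]⟩ h1
    by_cases h2 : f.leadingCoeff ∈ v.asIdeal
    · refine key (Ideal.absNorm (Ideal.span {f.leadingCoeff})) ?_ ?_
      · rw [hw]
        exact Dvd.dvd.mul_right (Dvd.dvd.mul_right (Dvd.intro_left _ rfl) _) _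
      · have h3 := Ideal.absNorm_mem (Ideal.span {f.leadingCoeff})
        exact (Ideal.span_singleton_le_iff_mem _).mpr h2 h3
    · have hoa : ord P (algebraMap K (Spl f) (algebraMap (𝓞 K) K f.leadingCoeff)) = 0 := by
        rw [← htow]
        apply le_antisymm
        · by_contra h
          push Not at h
          have h1 := (ord_pos_iff P (α := algebraMap (𝓞 K) (𝓞 (Spl f)) f.leadingCoeff)
            (by rw [Ne, map_eq_zero_iff _ hinj]; exact ha0)).mp (by omega)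
          exact h2 ((mem_iff_of_above hP _).mp h1)
        · exact ord_nonneg P _
      have hod : 1 ≤ ord P (x - y) := by
        have h3 := (ord_pos_iff P hδ0).mpr hδJ
        rw [hδ, ord_mul P haL hsub, hoa, zero_add] at h3
        exact h3
      have hns : ¬ (f.map (Ideal.Quotient.mk v.asIdeal)).Separable := by
        intro hs
        have h3 := ord_eq_zero_of_sep hf hP h2 hs hx hy hxy
        omega
      by_cases hb : Bad ℓ f v
      · refine key (cond ℓ f) ?_ ?_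
        · rw [hw]
          exact Dvd.dvd.mul_right (Dvd.intro_left _ rfl) _
        · obtain ⟨c, hc⟩ := dvd_cond hℓ hf hb
          rw [hc, Nat.cast_mul]
          exact v.asIdeal.mul_mem_right _ (Ideal.absNorm_mem _)
      · refine key (excess ℓ f) ?_ ?_
        · rw [hw]
          exact Dvd.intro_left _ rfl
        · obtain ⟨c, hc⟩ := dvd_excess ℓ hf (⟨h1, h2, hns, hb⟩ : Comp ℓ f v)
          rw [hc, Nat.cast_mul]
          exact v.asIdeal.mul_mem_right _ (Ideal.absNorm_mem _)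
  obtain ⟨k, hk⟩ := hmem
  exact ⟨k, Ideal.mem_span_singleton.mp hk⟩

end FreySparse
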