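import Pool.Agent.Lib.MP_6babc4_nt.Sp.Gen
import Pool.Agent.Lib.MP_6babc4_nt.Sp.Sup
import Pool.Agent.Lib.MP_6babc4_nt.Sp.Hou
import Pool.Agent.Lib.MP_6babc4_nt.Sp.Pol
import Pool.Agent.Lib.MP_6babc4_nt.Sp.DCo

/-!
# Module Par: the parametrisation (50 minutes)

PROOF. Extend `τ₀` to `τ : Spl f → ℂ` (`IsAlgClosed.lift` for `Spl f` algebraic over `K`, with the
algebra structure `τ₀.toAlgebra` on `ℂ`). Let `x` be an enumeration of the roots (`exists_enum`),
`z_i = τ x_i`, `θ_i` the generator of `root_gen` for `x_i` and `Θ_i = τ θ_i`.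
* `factor` and `τ` give the factorisation of `f.map (τ₀ ...)` (the leading coefficient is
  `f.coeff n`).
* `Θ_i ∈ AlgInt (n d) (C Y^(n/2))`: integral; `minpoly ℚ Θ_i = minpoly ℚ θ_i` (`minpoly_emb`); its
  complex roots are the `τ' θ_i` (`exists_emb`).
* `δ = τ (a (x_i - x_j)) = τ₀ a (z_i - z_j)`: `a x_i ∈ K⟮x_i⟯ ⊆ ℚ⟮θ_i⟯`, so its image under `τ` is in
  `ℚ⟮Θ_i⟯ ⊆ ℚ(Θ)` (`IntermediateField.adjoin_map`, `IntermediateField.adjoin.mono`), the same for
  `a x_j`; it is integral (`isIntegral_lc_mul`); the roots of its minimal polynomial are the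
  `τ' (a (x_i - x_j))` (`exists_emb`), of absolute value `≤ 4 H` by `root_bound`; and it is `0` if
  `i = j`, and divides `w^k` if `i ≠ j` (`diff_dvd`; apply `τ`; `β` is the image of the cofactor,
  integral).
-/

open Polynomial NumberField IsDedekindDomain Module

namespace FreySparse

private theorem Par_mem {K : Type} [Field K] [NumberField K] {f : (𝓞 K)[X]}
    {n : ℕ} (τ : Spl f →+* ℂ) (θ : Fin n → Spl f) (i : Fin n) {y : Spl f}
    (h : y ∈ IntermediateField.adjoin ℚ {θ i}) :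
    τ y ∈ IntermediateField.adjoin ℚ (Set.range fun i => τ (θ i)) := by
  have h1 : τ.toRatAlgHom y ∈ (IntermediateField.adjoin ℚ {θ i}).map τ.toRatAlgHom :=
    ⟨y, h, rfl⟩
  rw [IntermediateField.adjoin_map] at h1
  refine IntermediateField.adjoin.mono ℚ _ _ ?_ h1
  rintro _ ⟨w, hw, rfl⟩
  rw [Set.mem_singleton_iff] at hw
  subst hw
  exact ⟨i, rfl⟩

theorem param (d n ℓ : ℕ) (hn : 1 ≤ n) (hℓ : ℓ.Prime) : ∃ C₀ : ℝ, 1 ≤ C₀ ∧
    ∀ (K : Type) [Field K] [NumberField K], finrank ℚ K = d → ∀ τ₀ : K →+* ℂ,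
      ∀ H : ℝ, 1 ≤ H → ∀ f ∈ Fam K n H, ∀ Y : ℝ, 1 ≤ Y →
        |(NumberField.discr K : ℝ)| * cond ℓ f ≤ Y →
          ∃ z Θ : Fin n → ℂ,
            f.map (τ₀.comp (algebraMap (𝓞 K) K)) =
              C (τ₀ (algebraMap (𝓞 K) K (f.coeff n))) * ∏ i, (X - C (z i)) ∧
            (∀ i, Θ i ∈ AlgInt (n * d) (C₀ * Y ^ ((n : ℝ) / 2))) ∧
            ∀ i j, τ₀ (algebraMap (𝓞 K) K (f.coeff n)) * (z i - z j) ∈
              DSet Θ (4 * H)
                (ℓ * Ideal.absNorm (Ideal.span {f.coeff n}) * cond ℓ f * excess ℓ f) := by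
  obtain ⟨C₀, hC₀, hgen⟩ := root_gen d n ℓ hn hℓ
  refine ⟨C₀, hC₀, ?_⟩
  intro K _ _ hd τ₀ H hH f hf Y hY hcond
  obtain ⟨hfn, hfc, hfs⟩ := hf
  have hlc : f.leadingCoeff = f.coeff n := by rw [leadingCoeff, hfn]
  -- the embedding
  obtain ⟨τ, hτ⟩ : ∃ τ : Spl f →+* ℂ, ∀ a : K, τ (algebraMap K (Spl f) a) = τ₀ a := by
    letI : Algebra K ℂ := τ₀.toAlgebra
    let τ' : Spl f →ₐ[K] ℂ := IsAlgClosed.lift
    exact ⟨τ'.toRingHom, fun a => τ'.commutes a⟩
  -- the roots
  obtain ⟨x₀, hx₀, hr₀⟩ := exists_enum hfs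
  obtain ⟨x, hx, hr⟩ : ∃ x : Fin n → Spl f, Function.Injective x ∧ Set.range x = rts f := by
    refine ⟨fun i => x₀ (Fin.cast hfn.symm i), ?_, ?_⟩
    · intro i j h
      have := hx₀ h
      exact Fin.cast_injective _ this
    · rw [← hr₀]
      ext y
      constructor
      · rintro ⟨i, rfl⟩
        exact ⟨_, rfl⟩
      · rintro ⟨i, rfl⟩
        exact ⟨Fin.cast hfn i, rfl⟩
  have hmem : ∀ i, x i ∈ rts f := fun i => hr ▸ ⟨i, rfl⟩
  choose θ hθ1 hθ2 hθ3 hθ4 using fun i => hgen K hd f hfn hfs Y hY hcond (x i) (hmem i)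
  set A : Spl f := algebraMap K (Spl f) (algebraMap (𝓞 K) K f.leadingCoeff) with hA
  have hτA : τ A = τ₀ (algebraMap (𝓞 K) K (f.coeff n)) := by
    rw [hA, hτ, hlc]
  refine ⟨fun i => τ (x i), fun i => τ (θ i), ?_, ?_, ?_⟩
  · have h1 := congrArg (Polynomial.map τ) (factor hfs x hx hr)
    rw [Polynomial.map_map, Polynomial.map_map, Polynomial.map_mul, map_C,
      Polynomial.map_prod] at h1
    have h2 : (τ.comp (algebraMap K (Spl f))).comp (algebraMap (𝓞 K) K) =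
        τ₀.comp (algebraMap (𝓞 K) K) := by
      ext a
      exact hτ _
    rw [RingHom.comp_assoc] at h2
    rw [← h2]
    rw [RingHom.comp_assoc] at h1
    refine h1.trans ?_
    rw [← hA, hτA]
    congr 1
    refine Finset.prod_congr rfl fun i _ => ?_
    rw [Polynomial.map_sub, map_X, map_C]
  · intro i
    refine ⟨map_isIntegral_int τ (hθ1 i), ?_, ?_⟩
    · rw [minpoly_emb]
      exact hθ2 i
    · intro w hw
      obtain ⟨τ', hτ'⟩ := exists_emb (θ i) τ w hw
      rw [← hτ']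
      exact hθ3 i τ'
  · intro i j
    have hδ : τ₀ (algebraMap (𝓞 K) K (f.coeff n)) * (τ (x i) - τ (x j)) =
        τ (A * x i - A * x j) := by
      rw [← hτA, map_sub, map_mul, map_mul, mul_sub]
    have hin : ∀ i, A * x i ∈ IntermediateField.adjoin ℚ {θ i} := by
      intro i
      refine hθ4 i _ ?_
      exact mul_mem (IntermediateField.algebraMap_mem _ _)
        (IntermediateField.mem_adjoin_simple_self K (x i))
    have hint : ∀ i, IsIntegral ℤ (A * x i) := fun i => isIntegral_lc_mul hfs (hmem i)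
    simp only
    rw [hδ]
    refine ⟨?_, ?_, ?_, ?_⟩
    · rw [map_sub]
      exact sub_mem (Par_mem τ θ i (hin i)) (Par_mem τ θ j (hin j))
    · exact map_isIntegral_int τ ((hint i).sub (hint j))
    · intro w hw
      obtain ⟨τ', hτ'⟩ := exists_emb (A * x i - A * x j) τ w hw
      rw [← hτ', map_sub]
      have h1 := root_bound hH (by omega) hfc (hmem i) τ'
      have h2 := root_bound hH (by omega) hfc (hmem j) τ'
      calc ‖τ' (A * x i) - τ' (A * x j)‖ ≤ ‖τ' (A * x i)‖ + ‖τ' (A * x j)‖ := norm_sub_le _ _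
        _ ≤ 2 * H + 2 * H := add_le_add h1 h2
        _ = 4 * H := by ring
    · by_cases hij : i = j
      · left
        rw [hij, sub_self, map_zero]
      · right
        obtain ⟨δ, hδ0, hδ1, k, c, hc⟩ := diff_dvd hℓ hfs (hmem i) (hmem j)
          (fun h => hij (hx h))
        refine ⟨k, τ (algebraMap (𝓞 (Spl f)) (Spl f) c), ?_, ?_⟩
        · exact map_isIntegral_int τ c.2
        · have h1 : A * x i - A * x j = algebraMap (𝓞 (Spl f)) (Spl f) δ := by
            rw [hδ1, mul_sub]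
          rw [h1, ← map_mul, ← map_mul, ← hc, hlc, map_pow, map_pow, map_natCast, map_natCast]

end FreySparse
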